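import Pool.Agent.KBQ.MatB
import Pool.Agent.KBQ.MatY
import Pool.Agent.KBZ.MkLoc

/-! Bessel's inequality for many sections with the same centralizer and the same block. -/

namespace Pool.Agent.KBR

open Pool.Agent.KB Pool.Agent.KB.ContrAux Pool.Agent.KBL Pool.Agent.KBZ Pool.Agent.KBU
  Pool.Agent.KBQ

private theorem besp_symm {G : Type} [Group G] [Fintype G] {p : ℕ} {𝔪 : Ideal AInt} {w : G}
    {C : Subgroup G} [Fintype C] {ψ : C → ℂ} (L : Loc p 𝔪 w C ψ) (i j : Fin L.K) :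
    L.M i j = L.M j i := by
  have h1 := L.hM i j
  rw [CDAux.T_symm, ← L.hM j i] at h1
  exact_mod_cast h1

private theorem besp_nonneg {G : Type} [Group G] [Fintype G] {p : ℕ} {𝔪 : Ideal AInt} {w : G}
    {C : Subgroup G} [Fintype C] {ψ : C → ℂ} (L : Loc p 𝔪 w C ψ) (x : Fin L.K → ℤ) :
    0 ≤ bil L.M x x := by
  have h := CovZ_norm L x
  have h2 : (0 : ℝ) ≤ ((bil L.M x x : ℤ) : ℝ) := by
    rw [← h]
    positivity
  exact_mod_cast h2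

private theorem besp_smul {k : ℕ} (M : Fin k → Fin k → ℤ) (c : ℤ) (y x : Fin k → ℤ) :
    bil M y (c • x) = c * bil M y x := by
  unfold bil
  rw [Finset.mul_sum]
  refine Finset.sum_congr rfl fun i _ => ?_
  rw [Finset.mul_sum]
  refine Finset.sum_congr rfl fun j _ => ?_
  rw [Pi.smul_apply, smul_eq_mul]
  ring

private theorem besp_smul2 {k : ℕ} (M : Fin k → Fin k → ℤ) (c : ℤ) (x : Fin k → ℤ) :
    bil M (c • x) (c • x) = c ^ 2 * bil M x x := by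
  unfold bil
  rw [Finset.mul_sum]
  refine Finset.sum_congr rfl fun i _ => ?_
  rw [Finset.mul_sum]
  refine Finset.sum_congr rfl fun j _ => ?_
  rw [Pi.smul_apply, Pi.smul_apply, smul_eq_mul, smul_eq_mul]
  ring

/-- MODULE BESP1. Transport of vectors between the local data of two elements with the same
centralizer and the same block. PROOF: `L.X` and `L'.X` are injective enumerations of the same set
`block 𝔪 ψ`, so there is an equivalence `σ : Fin L.K ≃ Fin L'.K` with `L'.X (σ k) = L.X k`. Put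
`x' = x ∘ σ.symm`. `L'.M (σ i) (σ j) = L.M i j` (`L.hM`, `L'.hM`, injectivity of `ℤ → ℂ`), so
`bil L'.M x' x' = bil L.M x x` (reindex). `HX_main` for both with `j = 1`: the inner sums
`∑ k, x' k * L'.X k y⁻¹ = ∑ k, x k * L.X k y⁻¹`, and `χ (w' ^ 1 * y) = χ (w ^ 1 * y)` by `hval`. -/
theorem BesP_loc {G : Type} [Group G] [Fintype G] {p : ℕ} {𝔪 : Ideal AInt} {w w' : G}
    {C : Subgroup G} [Fintype C] {ψ : C → ℂ} (L : Loc p 𝔪 w C ψ) (L' : Loc p 𝔪 w' C ψ)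
    (x : Fin L.K → ℤ) :
    ∃ x' : Fin L'.K → ℤ, bil L'.M x' x' = bil L.M x x ∧
      ∀ χ ∈ Irr G, (∀ y : C, ¬ p ∣ orderOf y → χ (w' * (y : G)) = χ (w * (y : G))) →
        L'.H 1 χ x' = L.H 1 χ x := by
  classical
  have hf : ∀ k : Fin L.K, ∃ i : Fin L'.K, L'.X i = L.X k := fun k => L'.surj _ (L.mem k)
  choose f hf using hf
  have hinj : Function.Injective f := by
    intro a b hab
    apply L.inj
    rw [← hf a, ← hf b, hab]
  have hsurj : Function.Surjective f := by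
    intro i
    obtain ⟨k, hk⟩ := L.surj _ (L'.mem i)
    refine ⟨k, L'.inj ?_⟩
    rw [hf, hk]
  obtain ⟨σ, hσ⟩ : ∃ σ : Fin L.K ≃ Fin L'.K, ∀ k, L'.X (σ k) = L.X k :=
    ⟨Equiv.ofBijective f ⟨hinj, hsurj⟩, hf⟩
  have hM : ∀ i j, L'.M (σ i) (σ j) = L.M i j := by
    intro i j
    have h1 := L'.hM (σ i) (σ j)
    rw [hσ, hσ, ← L.hM i j] at h1
    exact_mod_cast h1
  refine ⟨fun i => x (σ.symm i), ?_, ?_⟩
  · unfold bil
    rw [← Equiv.sum_comp σ]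
    refine Finset.sum_congr rfl fun i _ => ?_
    rw [← Equiv.sum_comp σ]
    refine Finset.sum_congr rfl fun j _ => ?_
    simp only [Equiv.symm_apply_apply, hM]
  · intro χ hχ hval
    rw [HX_main L' χ hχ 1, HX_main L χ hχ 1]
    congr 1
    refine Finset.sum_congr rfl fun y hy => ?_
    have h1 : ∑ k, ((x (σ.symm k) : ℤ) : ℂ) * L'.X k y⁻¹ = ∑ k, ((x k : ℤ) : ℂ) * L.X k y⁻¹ := by
      rw [← Equiv.sum_comp σ]
      refine Finset.sum_congr rfl fun k _ => ?_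
      rw [Equiv.symm_apply_apply, hσ]
    rw [h1, pow_one, pow_one, hval y (Finset.mem_filter.1 hy).2]

/-- MODULE BESP2. PROOF: for every `w ∈ S` choose `L w : Loc p 𝔪 w C ψ` (`MkLoc_main`). Put
`h a = bil L₀.M (Y a) x` (so `L₀.H 1 (χ a) x = h a`), `Q = ∑ a, h a ^ 2`, `μ = bil L₀.M x x ≥ 0` (`CovZ_norm`).
If `Q = 0` nothing to prove (`μ ≥ 0`). If `μ = 0` then all `h a = 0` (`HD_rad`), `Q = 0`. Otherwise
`Q > 0`, `μ > 0`: apply `MatB_main` with `I = S`, `w i = i`, `C i = C`, `ζ i = ψ`, `c a = μ * h a` and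
`x i` = the vector of `BesP_loc` for `Q • x` (so `bil (x i) (x i) = Q ^ 2 * μ` and
`H 1 (χ a) (x i) = L₀.H 1 (χ a) (Q • x) = Q * h a`, by `hval` and `hY`): the hypothesis `hx` of `MatB_main` reads
`∑ a, μ h a * (Q h a) = Q ^ 2 * μ`. Conclusion: `|S| * Q ^ 2 * μ ≤ p ^ d * μ ^ 2 * Q`; divide by `Q * μ`. -/
theorem BesP_main {G : Type} [Group G] [Fintype G] (p : ℕ) (hp : p.Prime) (𝔪 : Ideal AInt)
    (h𝔪 : 𝔪.IsMaximal) (hp𝔪 : (p : AInt) ∈ 𝔪) (w₀ : G) (C : Subgroup G) [Fintype C] (ψ : C → ℂ)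
    (hψ : ψ ∈ Irr C) (L₀ : Loc p 𝔪 w₀ C ψ) (S : Finset G)
    (hS : ∀ w ∈ S, ∃ t, orderOf w = p ^ (t + 1)) (hSC : ∀ w ∈ S, ∀ g : G, g ∈ C ↔ g * w = w * g)
    (hnc : ∀ w ∈ S, ∀ w' ∈ S, w ≠ w' → ∀ k : G, k * w * k⁻¹ = w' →
      ¬ Cj 𝔪 k C.subtype ψ C.subtype ψ)
    {m : ℕ} (χ : Fin m → G → ℂ) (hinj : Function.Injective χ) (hχ : ∀ a, χ a ∈ Irr G)
    (hval : ∀ w ∈ S, ∀ a, ∀ y : C, ¬ p ∣ orderOf y → χ a (w * (y : G)) = χ a (w₀ * (y : G)))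
    (Y : Fin m → Fin L₀.K → ℤ)
    (hY : ∀ a x, L₀.H 1 (χ a) x = ((bil L₀.M (Y a) x : ℤ) : ℂ)) (x : Fin L₀.K → ℤ) :
    (S.card : ℤ) * ∑ a, bil L₀.M (Y a) x ^ 2 ≤
      (p : ℤ) ^ defect p (block 𝔪 ψ) * bil L₀.M x x := by
  classical
  have hL : ∀ w : S, Nonempty (Loc p 𝔪 (w : G) C ψ) := by
    intro w
    obtain ⟨t, ht⟩ := hS w w.2
    exact MkLoc_main p hp 𝔪 h𝔪 hp𝔪 (w : G) t ht C (hSC w w.2) ψ hψ
  obtain ⟨L⟩ := Classical.nonempty_pi.2 hL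
  obtain ⟨Q, hQ⟩ : ∃ Q : ℤ, Q = ∑ a, bil L₀.M (Y a) x ^ 2 := ⟨_, rfl⟩
  obtain ⟨μ, hμ⟩ : ∃ μ : ℤ, μ = bil L₀.M x x := ⟨_, rfl⟩
  have hμ0 : 0 ≤ μ := by rw [hμ]; exact besp_nonneg L₀ x
  have hQ0 : 0 ≤ Q := by
    rw [hQ]
    exact Finset.sum_nonneg fun a _ => sq_nonneg _
  have hp0 : (0 : ℤ) < (p : ℤ) ^ defect p (block 𝔪 ψ) := by
    have : (0 : ℤ) < p := by exact_mod_cast hp.pos
    positivity
  rw [← hQ, ← hμ]
  rcases hQ0.eq_or_lt with hQz | hQpos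
  · rw [← hQz, mul_zero]
    exact mul_nonneg hp0.le hμ0
  rcases hμ0.eq_or_lt with hμz | hμpos
  · exfalso
    have h1 : ∀ a, bil L₀.M (Y a) x = 0 := fun a =>
      HD_rad L₀.M (besp_symm L₀) (besp_nonneg L₀) x (hμ ▸ hμz.symm) (Y a)
    have h2 : Q = 0 := by
      rw [hQ]
      exact Finset.sum_eq_zero fun a _ => by rw [h1]; ring
    omega
  have hx : ∀ w : S, ∃ x' : Fin (L w).K → ℤ, bil (L w).M x' x' = Q ^ 2 * μ ∧
      ∀ a, (L w).H 1 (χ a) x' = ((Q * bil L₀.M (Y a) x : ℤ) : ℂ) := by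
    intro w
    obtain ⟨x', h1, h2⟩ := BesP_loc L₀ (L w) (Q • x)
    refine ⟨x', ?_, fun a => ?_⟩
    · rw [h1, besp_smul2, ← hμ]
    · rw [h2 (χ a) (hχ a) (hval w w.2 a), hY, besp_smul]
  choose x' hx1 hx2 using hx
  have h := MatB_main p hp 𝔪 h𝔪 hp𝔪 (defect p (block 𝔪 ψ)) (I := S) (fun w => (w : G))
    (fun _ => C) (fun _ => ψ) L (fun _ => rfl)
    (fun i j hij k hk => hnc i i.2 j j.2 (fun h => hij (Subtype.ext h)) k hk) χ hinj hχ x'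
    (fun a => μ * bil L₀.M (Y a) x) (by
      intro w
      rw [hx1]
      have e : ∀ a, ((μ * bil L₀.M (Y a) x : ℤ) : ℂ) * (L w).H 1 (χ a) (x' w) =
          ((μ * Q * bil L₀.M (Y a) x ^ 2 : ℤ) : ℂ) := by
        intro a
        rw [hx2]
        push_cast
        ring
      rw [Finset.sum_congr rfl fun a _ => e a]
      rw [← Int.cast_sum, ← Finset.mul_sum, ← hQ]
      congr 1
      ring)
  have e1 : ∑ w : S, bil (L w).M (x' w) (x' w) = (S.card : ℤ) * (Q ^ 2 * μ) := by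
    rw [Finset.sum_congr rfl fun w _ => hx1 w, Finset.sum_const, Finset.card_univ,
      Fintype.card_coe, nsmul_eq_mul]
  have e2 : ∑ a, (μ * bil L₀.M (Y a) x) ^ 2 = μ ^ 2 * Q := by
    rw [hQ, Finset.mul_sum]
    exact Finset.sum_congr rfl fun a _ => by ring
  rw [e1, e2] at h
  have h3 : (Q * μ) * ((S.card : ℤ) * Q) ≤ (Q * μ) * ((p : ℤ) ^ defect p (block 𝔪 ψ) * μ) := by
    calc (Q * μ) * ((S.card : ℤ) * Q) = (S.card : ℤ) * (Q ^ 2 * μ) := by ring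
      _ ≤ _ := h
      _ = _ := by ring
  exact le_of_mul_le_mul_left h3 (mul_pos hQpos hμpos)

end Pool.Agent.KBR
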