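import Pool.Agent.KBU.FinA

/-! Central `p`-subgroups and the number `l(b)`. -/

namespace Pool.Agent.KBR

open Pool.Agent.KB Pool.Agent.KB.ContrAux Pool.Agent.KBL Pool.Agent.KBZ Pool.Agent.KBU

/-- MODULE CENP1. PROOF: induction on `s`. `s = 0`: `Q = C`. `s + 1`: `p` divides `|P|`, so `P` has an
element `z` of order `p` (Cauchy, `exists_prime_orderOf_dvd_card'`), central in `C`. `Q₁ = C ⧸ zpowers z`
(normal, see the proof of `Dom_quot` in `KBU/Dom.lean`), `Dom_main` gives `χ₁ ∈ Irr Q₁` with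
`ell ψ ≤ ell χ₁` and `defect χ₁ + 1 ≤ defect ψ`. The image `P₁` of `P` in `Q₁` is central and
`|P₁| = p ^ s` (`|P₁| * |zpowers z| = |P|`, the kernel of `P → P₁` is `zpowers z`). Induction for
`Q₁`, `P₁`, `χ₁`. -/
theorem CenP_main (p : ℕ) (hp : p.Prime) (𝔪 : Ideal AInt) (h𝔪 : 𝔪.IsMaximal)
    (hp𝔪 : (p : AInt) ∈ 𝔪) (s : ℕ) : ∀ {C : Type} [Group C] [Fintype C] (P : Subgroup C),
      Nat.card P = p ^ s → (∀ x ∈ P, ∀ y : C, y * x = x * y) → ∀ ψ : C → ℂ, ψ ∈ Irr C →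
      ∃ (Q : Type) (_ : Group Q) (_ : Fintype Q) (χ : Q → ℂ), χ ∈ Irr Q ∧
        ell p (block 𝔪 ψ) ≤ ell p (block 𝔪 χ) ∧
        defect p (block 𝔪 χ) + s ≤ defect p (block 𝔪 ψ) := by
  have : Fact p.Prime := ⟨hp⟩
  induction s with
  | zero =>
    intro C _ _ P _ _ ψ hψ
    exact ⟨C, inferInstance, inferInstance, ψ, hψ, le_rfl, by rw [Nat.add_zero]⟩
  | succ s ih =>
    intro C _ _ P hP hc ψ hψ
    have hdvd : p ∣ Nat.card P := by
      rw [hP, pow_succ]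
      exact Dvd.intro_left _ rfl
    obtain ⟨⟨z, hzP⟩, hz'⟩ := exists_prime_orderOf_dvd_card' p hdvd
    have hz : orderOf z = p := by
      rw [← hz', Subgroup.orderOf_mk]
    have hcen : ∀ y : C, y * z = z * y := hc z hzP
    have hn : (Subgroup.zpowers z).Normal := by
      constructor
      intro n hn g
      have hg : g * n = n * g := by
        obtain ⟨k, rfl⟩ := Subgroup.mem_zpowers_iff.1 hn
        exact ((show Commute g z from hcen g).zpow_right k).eq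
      rw [hg, mul_inv_cancel_right]
      exact hn
    obtain ⟨χ₁, hχ₁, h1, h2⟩ := Dom_main p hp 𝔪 h𝔪 hp𝔪 (QuotientGroup.mk' (Subgroup.zpowers z))
      (QuotientGroup.mk'_surjective _) z hz hcen
      (fun x => by rw [QuotientGroup.mk'_apply, QuotientGroup.eq_one_iff]) ψ hψ
    have hzle : Subgroup.zpowers z ≤ P := (Subgroup.zpowers_le).2 hzP
    have hcard : Nat.card (P.map (QuotientGroup.mk' (Subgroup.zpowers z))) = p ^ s := by
      let φ : P →* C ⧸ Subgroup.zpowers z := (QuotientGroup.mk' (Subgroup.zpowers z)).comp P.subtype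
      have e1 : φ.range = P.map (QuotientGroup.mk' (Subgroup.zpowers z)) := by
        rw [MonoidHom.range_comp, Subgroup.range_subtype]
      have e2 : φ.ker = (Subgroup.zpowers z).subgroupOf P := by
        rw [← MonoidHom.comap_ker, QuotientGroup.ker_mk']
        rfl
      have e3 : Nat.card φ.ker = p := by
        rw [e2, Nat.card_congr (Subgroup.subgroupOfEquivOfLe hzle).toEquiv, Nat.card_zpowers, hz]
      have e4 := φ.ker.card_mul_index
      rw [Subgroup.index_ker, e1, e3, hP, pow_succ'] at e4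
      exact Nat.eq_of_mul_eq_mul_left hp.pos e4
    have hcen1 : ∀ x ∈ P.map (QuotientGroup.mk' (Subgroup.zpowers z)),
        ∀ y : C ⧸ Subgroup.zpowers z, y * x = x * y := by
      rintro _ ⟨x, hx, rfl⟩ y
      obtain ⟨y, rfl⟩ := QuotientGroup.mk'_surjective _ y
      rw [← map_mul, ← map_mul, hc x hx]
    obtain ⟨Q, i1, i2, χ, hχ, h3, h4⟩ := ih (P.map (QuotientGroup.mk' (Subgroup.zpowers z))) hcard
      hcen1 χ₁ hχ₁
    exact ⟨Q, i1, i2, χ, hχ, h1.trans h3, by omega⟩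

/-- MODULE CENP2. PROOF: `CenP_main` gives `χ` with `ell ψ ≤ ell χ` and `defect χ ≤ 1`. If
`defect χ = 0`: `ell χ ≤ k(χ) ≤ 1` (`Gam_le`, `FinA_small`) and `2 ≤ p`. If `defect χ = 1`:
`ell χ + 1 ≤ k(χ) ≤ p` (`Gam_main`, `FinA_small`). -/
theorem CenP_one (p : ℕ) (hp : p.Prime) (𝔪 : Ideal AInt) (h𝔪 : 𝔪.IsMaximal)
    (hp𝔪 : (p : AInt) ∈ 𝔪) {C : Type} [Group C] [Fintype C] (P : Subgroup C) (s : ℕ)
    (hP : Nat.card P = p ^ s) (hc : ∀ x ∈ P, ∀ y : C, y * x = x * y) (ψ : C → ℂ)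
    (hψ : ψ ∈ Irr C) (hd : defect p (block 𝔪 ψ) ≤ s + 1) : ell p (block 𝔪 ψ) + 1 ≤ p := by
  obtain ⟨Q, _, _, χ, hχ, h1, h2⟩ := CenP_main p hp 𝔪 h𝔪 hp𝔪 s P hP hc ψ hψ
  have hd1 : defect p (block 𝔪 χ) ≤ 1 := by omega
  have h3 := FinA_small p hp 𝔪 h𝔪 hp𝔪 χ hχ (by omega)
  have hp2 := hp.two_le
  rcases Nat.eq_zero_or_pos (defect p (block 𝔪 χ)) with h0 | h0
  · obtain ⟨-, h4⟩ := Gam_le p 𝔪 χ
    rw [h0, pow_zero] at h3
    omega
  · have h4 := Gam_main p hp 𝔪 h𝔪 hp𝔪 χ hχ h0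
    have h5 : defect p (block 𝔪 χ) = 1 := by omega
    rw [h5, pow_one] at h3
    omega

end Pool.Agent.KBR
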