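import Pool.Agent.KBR.FixIb

/-! At least `l(B)` characters of a block are fixed by `χ ↦ χ (· ^ J)`. -/

namespace Pool.Agent.KBR

open Pool.Agent.KB Pool.Agent.KB.ContrAux Pool.Agent.KBL Pool.Agent.KBZ Pool.Agent.KBU
  Pool.Agent.KBQ

/-- MODULE FIXD. PROOF: copy the proof of `FixT_main`; instead of `FixT_split` / `FixT_sec` use
`FixI_split` / `FixI_sec`: `|R| * |G| = |G| * ell + r` with a real `r ≥ 0`, so `ell ≤ |R|`. -/
theorem FixI_main {G : Type} [Group G] [Fintype G] (p : ℕ) (hp : p.Prime) (𝔪 : Ideal AInt)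
    (h𝔪 : 𝔪.IsMaximal) (hp𝔪 : (p : AInt) ∈ 𝔪) (χ₀ : G → ℂ) (hχ₀ : χ₀ ∈ Irr G) (J : ℕ)
    (hJ : Nat.Coprime J (Nat.card G)) (hJp : ¬ p ∣ J)
    (hJ1 : J ≡ 1 [MOD Nat.card G / p ^ padicValNat p (Nat.card G)])
    (hns : ∀ (w : G) (n : ℕ), w ^ (p ^ n) = 1 → w ≠ 1 →
      ∀ (C : Type) [Group C] [Fintype C] (ι : C →* G), Function.Injective ι →
      (∀ x : G, (∃ y, ι y = x) ↔ w * x = x * w) → ∀ ψ ∈ Irr C, Ind 𝔪 ι ψ χ₀ →
      ∀ h : G, h * w * h⁻¹ = w ^ J → Cj 𝔪 h ι ψ ι ψ → ell p (block 𝔪 ψ) ≤ 1) :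
    ∃ R : Finset (G → ℂ), (∀ χ ∈ R, χ ∈ block 𝔪 χ₀ ∧ ∀ g, χ (g ^ J) = χ g) ∧
      ell p (block 𝔪 χ₀) ≤ R.card := by
  classical
  have hfin := Gam_fin 𝔪 χ₀
  obtain ⟨k, ⟨f⟩⟩ := Finite.exists_equiv_fin (block 𝔪 χ₀) (h := hfin.to_subtype)
  set χ : Fin k → G → ℂ := fun i => (f.symm i).1 with hχdef
  have hinj : Function.Injective χ := fun i j hij => f.symm.injective (Subtype.ext hij)
  have hχ : ∀ i, χ i ∈ block 𝔪 χ₀ := fun i => (f.symm i).2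
  have hsurj : ∀ ψ ∈ block 𝔪 χ₀, ∃ i, χ i = ψ := by
    intro ψ hψ
    exact ⟨f ⟨ψ, hψ⟩, by rw [hχdef]; simp⟩
  have hrow : ∀ i, ∑ g, χ i (g ^ J) * χ i g⁻¹ =
      if (∀ g, χ i (g ^ J) = χ i g) then (Nat.card G : ℂ) else 0 := by
    intro i
    have h1 := Gal_irr J hJ (χ i) (hχ i).1
    have h2 := Col_row (fun g => χ i (g ^ J)) (χ i) h1 (hχ i).1
    split_ifs with h3
    · exact h2.1 (funext h3)
    · exact h2.2 fun h4 => h3 fun g => congrFun h4 g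
  have hA : ∑ g, ∑ i, χ i (g ^ J) * χ i g⁻¹ =
      ((Finset.univ.filter fun i => ∀ g, χ i (g ^ J) = χ i g).card : ℂ) * (Nat.card G : ℂ) := by
    rw [Finset.sum_comm, Finset.sum_congr rfl fun i _ => hrow i, ← Finset.sum_filter,
      Finset.sum_const, nsmul_eq_mul]
  have hB : ∃ r : ℝ, 0 ≤ r ∧
      ∑ g, ∑ i, χ i (g ^ J) * χ i g⁻¹ = (Nat.card G : ℂ) * ell p (block 𝔪 χ₀) + (r : ℂ) := by
    obtain ⟨r, hr0, hr⟩ := FixI_split p hp (fun g => ∑ i, χ i (g ^ J) * χ i g⁻¹) (fun w n hw hw1 =>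
      FixI_sec p hp 𝔪 h𝔪 hp𝔪 χ₀ hχ₀ J hJ hJp hJ1 w n hw (hns w n hw hw1) χ hinj hχ hsurj)
    refine ⟨r, hr0, ?_⟩
    rw [hr]
    rw [← TrE_main p hp 𝔪 h𝔪 hp𝔪 χ₀ χ hinj hχ hsurj]
    unfold T
    rw [Finset.sum_comm (s := Finset.filter _ _)]
    congr 1
    refine Finset.sum_congr rfl fun i _ => Finset.sum_congr ?_ fun g hg => ?_
    · ext g
      simp
    · rw [Gal_reg p hp J hJ1 g (Finset.mem_filter.mp hg).2]
  have hcard : ell p (block 𝔪 χ₀) ≤ (Finset.univ.filter fun i => ∀ g, χ i (g ^ J) = χ i g).card := by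
    obtain ⟨r, hr0, hr⟩ := hB
    have h1 : ((Finset.univ.filter fun i => ∀ g, χ i (g ^ J) = χ i g).card : ℝ) * (Nat.card G : ℝ) =
        (Nat.card G : ℝ) * (ell p (block 𝔪 χ₀) : ℝ) + r := by
      have h2 := hA.symm.trans hr
      exact_mod_cast h2
    have h3 : (0 : ℝ) < (Nat.card G : ℝ) := by
      have : 0 < Nat.card G := Nat.card_pos
      exact_mod_cast this
    have h4 : (Nat.card G : ℝ) * (ell p (block 𝔪 χ₀) : ℝ) ≤
        (Nat.card G : ℝ) * ((Finset.univ.filter fun i => ∀ g, χ i (g ^ J) = χ i g).card : ℝ) := by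
      rw [mul_comm (Nat.card G : ℝ) ((Finset.univ.filter fun i => ∀ g, χ i (g ^ J) = χ i g).card : ℝ), h1]
      linarith
    have h5 := le_of_mul_le_mul_left h4 h3
    exact_mod_cast h5
  refine ⟨(Finset.univ.filter fun i => ∀ g, χ i (g ^ J) = χ i g).image χ, ?_, ?_⟩
  · intro ψ hψ
    obtain ⟨i, hi, rfl⟩ := Finset.mem_image.mp hψ
    exact ⟨hχ i, (Finset.mem_filter.mp hi).2⟩
  · rw [Finset.card_image_of_injective _ hinj]
    exact hcard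

end Pool.Agent.KBR
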