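import Mathlib

/-! Two characters on the sections of a block with inertial index one. -/

namespace Pool.Agent.KBR

/-- MODULE RIG1. `p` odd. PROOF: let `N = |I| ≥ F - 1`, `A i = M i 0 0`, `B i = M i 1 1`,
`X i = M i 0 1` (`= M i 1 0`), `SA = ∑ A i`, `SB = ∑ B i`. (1) `hB` for `c = (1, 0)` and `(0, 1)`:
`SA ≤ F`, `SB ≤ F`; as `A i ≥ 1`, `B i ≥ 1` and `N ≥ F - 1`: at most one `i` has `A i ≥ 2`, at most one has
`B i ≥ 2`. Call `i` good if `A i = B i = 1`; let `g` be the number of the good `i`: `g ≥ N - 2 ≥ F - 3`.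
(2) `hB` for `c = (1, ε)`, `ε = ±1`: `SA + SB + 2 ε ∑ X i ≤ 2 F`, so `2 |∑ X i| ≤ 2 F - SA - SB`.
(3) `hpsd` for `c = (1, ±1)`: `2 |X i| ≤ A i + B i` for all `i`. For good `i`: `|X i| ≤ 1`, and
`p ∣ A i * B i - X i * X i` (`hP i i 0 0 1 1`: `M i 0 0 * M i 1 1 - M i 0 1 * M i 1 0`) gives `X i ≠ 0`, so
`X i = ±1`. For good `i`, `j`: `hP i j 0 1 0 0`: `p ∣ M i 0 1 * M j 0 0 - M i 0 0 * M j 0 1 = X i - X j`, so
`X i = X j` as `p` is odd; let `ε` be the common value. (4) `|∑ X i| ≥ g - ∑_bad |X i|` and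
`2 ∑_bad |X i| ≤ ∑_bad (A i + B i) = SA + SB - 2 g`. So `2 g - (SA + SB - 2 g) ≤ 2 |∑ X i| ≤ 2 F - SA - SB`,
i.e. `4 g ≤ 2 F`; with `g ≥ F - 3`: `F ≤ 6`, contradiction. -/
theorem Rig1_main {I : Type} [Fintype I] (p F : ℕ) (hp : p.Prime) (hp2 : p ≠ 2) (hF : 7 ≤ F)
    (hI : F ≤ Fintype.card I + 1) (M : I → Fin 2 → Fin 2 → ℤ) (hsymm : ∀ i a b, M i a b = M i b a)
    (hpsd : ∀ i, ∀ c : Fin 2 → ℤ, 0 ≤ ∑ a, ∑ b, c a * c b * M i a b) (hdiag : ∀ i a, 1 ≤ M i a a)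
    (hP : ∀ i j a b c d, (p : ℤ) ∣ M i a b * M j c d - M i a d * M j c b)
    (hB : ∀ c : Fin 2 → ℤ, ∑ i, ∑ a, ∑ b, c a * c b * M i a b ≤ (F : ℤ) * ∑ a, c a ^ 2) :
    False := by
  have hc0 : ∀ m : Fin 2 → Fin 2 → ℤ, ∀ s t : ℤ, ∑ a, ∑ b, (![s, t] : Fin 2 → ℤ) a * (![s, t] : Fin 2 → ℤ) b * m a b =
      s * s * m 0 0 + s * t * m 0 1 + t * s * m 1 0 + t * t * m 1 1 := by
    intro m s t
    simp only [Fin.sum_univ_two, Matrix.cons_val_zero, Matrix.cons_val_one]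
    ring
  have hB' : ∀ s t : ℤ, s * s * (∑ i, M i 0 0) + 2 * (s * t) * (∑ i, M i 0 1) + t * t * (∑ i, M i 1 1) ≤
      (F : ℤ) * (s ^ 2 + t ^ 2) := by
    intro s t
    have h1 := hB ![s, t]
    have h2 : ∑ i, ∑ a, ∑ b, (![s, t] : Fin 2 → ℤ) a * (![s, t] : Fin 2 → ℤ) b * M i a b =
        s * s * (∑ i, M i 0 0) + 2 * (s * t) * (∑ i, M i 0 1) + t * t * (∑ i, M i 1 1) := by
      rw [Finset.sum_congr rfl fun i _ => hc0 (M i) s t, Finset.mul_sum, Finset.mul_sum, Finset.mul_sum,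
        ← Finset.sum_add_distrib, ← Finset.sum_add_distrib]
      refine Finset.sum_congr rfl fun i _ => ?_
      rw [hsymm i 1 0]
      ring
    rw [h2] at h1
    simpa [Fin.sum_univ_two] using h1
  have hp' : ∀ i, ∀ e : ℤ, 0 ≤ M i 0 0 + 2 * e * M i 0 1 + e * e * M i 1 1 := by
    intro i e
    have h1 := hpsd i ![1, e]
    rw [hc0 (M i) 1 e, hsymm i 1 0] at h1
    linarith
  have hA := hB' 1 0
  have hBB := hB' 0 1
  have hN : (F : ℤ) ≤ (Fintype.card I : ℤ) + 1 := by exact_mod_cast hI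
  have hF' : (7 : ℤ) ≤ F := by exact_mod_cast hF
  set N : ℤ := (Fintype.card I : ℤ) with hNdef
  have hone : ∑ _i : I, (1 : ℤ) = N := by simp [hNdef]
  -- the defect
  set D : ℤ := ∑ i, (M i 0 0 + M i 1 1 - 2) with hD
  have hDeq : D = (∑ i, M i 0 0) + (∑ i, M i 1 1) - 2 * N := by
    rw [hD, ← hone, Finset.mul_sum, ← Finset.sum_add_distrib, ← Finset.sum_sub_distrib]
    refine Finset.sum_congr rfl fun i _ => by ring
  have hd0 : ∀ i, 0 ≤ M i 0 0 + M i 1 1 - 2 := fun i => by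
    have h1 := hdiag i 0
    have h2 := hdiag i 1
    linarith
  -- a good index
  have hgood : ∃ i, M i 0 0 + M i 1 1 - 2 = 0 := by
    by_contra hcon
    push Not at hcon
    have h1 : ∀ i, (1 : ℤ) ≤ M i 0 0 + M i 1 1 - 2 := fun i => by
      have h2 := hd0 i
      have h3 := hcon i
      omega
    have h2 : ∑ _i : I, (1 : ℤ) ≤ D := Finset.sum_le_sum fun i _ => h1 i
    rw [hone] at h2
    linarith
  have hval : ∀ i, M i 0 0 + M i 1 1 - 2 = 0 → M i 0 0 = 1 ∧ M i 1 1 = 1 ∧ (M i 0 1 = 1 ∨ M i 0 1 = -1) := by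
    intro i hi
    have h1 := hdiag i 0
    have h2 := hdiag i 1
    have h3 : M i 0 0 = 1 := by linarith
    have h4 : M i 1 1 = 1 := by linarith
    refine ⟨h3, h4, ?_⟩
    have h5 := hp' i 1
    have h6 := hp' i (-1)
    rw [h3, h4] at h5 h6
    have h7 := hP i i 0 0 1 1
    rw [h3, h4, hsymm i 1 0] at h7
    have h8 : M i 0 1 ≠ 0 := by
      intro h0
      rw [h0] at h7
      have h9 : (p : ℤ) ∣ 1 := by simpa using h7
      have h10 : (p : ℤ) ≤ 1 := Int.le_of_dvd one_pos h9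
      have h11 : (2 : ℤ) ≤ p := by exact_mod_cast hp.two_le
      linarith
    have h9 : -1 ≤ M i 0 1 := by linarith
    have h10 : M i 0 1 ≤ 1 := by linarith
    omega
  obtain ⟨i₀, hi₀⟩ := hgood
  obtain ⟨h00, h11, hε⟩ := hval i₀ hi₀
  have hp3 : (3 : ℤ) ≤ p := by
    have h1 := hp.two_le
    have h2 : 3 ≤ p := by omega
    exact_mod_cast h2
  set ε : ℤ := M i₀ 0 1 with hεdef
  have hεε : ε * ε = 1 := by rcases hε with h | h <;> rw [h] <;> norm_num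
  have hkey : ∀ i, 2 - 5 * (M i 0 0 + M i 1 1 - 2) ≤ 2 * ε * M i 0 1 := by
    intro i
    by_cases hi : M i 0 0 + M i 1 1 - 2 = 0
    · obtain ⟨h1, h2, h3⟩ := hval i hi
      have h4 := hP i i₀ 0 1 0 0
      rw [h00, h1, one_mul, mul_one, ← hεdef] at h4
      have h5 : M i 0 1 = ε := by
        rcases h3 with h3 | h3 <;> rcases hε with h6 | h6 <;> rw [h3, h6] at h4 ⊢
        · exfalso
          have h7 : (p : ℤ) ≤ 2 := Int.le_of_dvd two_pos (by simpa using h4)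
          linarith
        · exfalso
          have h8 : (p : ℤ) ∣ 2 := by
            rw [← dvd_neg]
            simpa using h4
          have h7 : (p : ℤ) ≤ 2 := Int.le_of_dvd two_pos h8
          linarith
      rw [hi, h5, mul_assoc, hεε]
      norm_num
    · have h1 := hd0 i
      have h2 := hp' i ε
      rw [hεε] at h2
      have h3 : 1 ≤ M i 0 0 + M i 1 1 - 2 := by omega
      linarith
  have hsum : 2 * N - 5 * D ≤ 2 * ε * ∑ i, M i 0 1 := by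
    have h1 : ∑ i, (2 - 5 * (M i 0 0 + M i 1 1 - 2)) ≤ ∑ i, 2 * ε * M i 0 1 :=
      Finset.sum_le_sum fun i _ => hkey i
    rw [← Finset.mul_sum, Finset.sum_sub_distrib, ← Finset.mul_sum, ← hD] at h1
    have h2 : ∑ _i : I, (2 : ℤ) = 2 * N := by
      rw [← hone, Finset.mul_sum]
      simp
    rw [h2] at h1
    exact h1
  have hfin := hB' 1 ε
  have h1 : ε ^ 2 = 1 := by rw [sq]; exact hεε
  rw [h1, hεε] at hfin
  have h2 : 2 * (1 * ε) * (∑ i, M i 0 1) = 2 * ε * ∑ i, M i 0 1 := by ring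
  rw [h2] at hfin
  linarith

end Pool.Agent.KBR
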