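import Pool.Agent.KBQ.LX
import Pool.Agent.KBR.Rig1

/-! Blocks with abelian defect group and inertial index one: `l(b) ≤ 1`. -/

namespace Pool.Agent.KBR

open Pool.Agent.KB Pool.Agent.KB.ContrAux Pool.Agent.KBL Pool.Agent.KBZ Pool.Agent.KBU
  Pool.Agent.KBQ

/-- MODULE NILB. PROOF: otherwise `2 ≤ ell`; `LX_core` with `e = 1`, `m = 2` (`1 < p - 1` as `p ≥ 3`) gives
`I`, `M` and `Rig1_main` with `F = p ^ defect` applies (all hypotheses are literally the conclusions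
of `LX_core`). -/
theorem NilB_main {K H : Type} [Group K] [Fintype K] [Group H] [Fintype H] (p : ℕ)
    (hp : p.Prime) (hp2 : p ≠ 2) (𝔪 : Ideal AInt) (h𝔪 : 𝔪.IsMaximal) (hp𝔪 : (p : AInt) ∈ 𝔪)
    (χ : K → ℂ) (hχ : χ ∈ Irr K) (D : Subgroup K) (ι : H →* K) (ζ : H → ℂ)
    (hA : AbD p 𝔪 χ D ι ζ) (hF : 7 ≤ p ^ defect p (block 𝔪 χ))
    (hS : Stb 𝔪 hA.cen ζ ≤ ι.range) : ell p (block 𝔪 χ) ≤ 1 := by
  by_contra hcon
  have h2 : 2 ≤ ell p (block 𝔪 χ) := by omega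
  have he : Nat.card (Stb 𝔪 hA.cen ζ) ≤ 1 * Nat.card H := by
    rw [one_mul]
    have e1 : Nat.card (Stb 𝔪 hA.cen ζ) ≤ Nat.card ι.range :=
      Subgroup.card_le_of_le hS
    exact e1.trans (Nat.card_le_card_of_surjective ι.rangeRestrict ι.rangeRestrict_surjective)
  have hp1 : 1 < p - 1 := by
    have := hp.two_le
    omega
  obtain ⟨I, _, M, h1, hsymm, hpsd, hdiag, hP, hB⟩ :=
    LX_core p hp hp2 𝔪 h𝔪 hp𝔪 χ hχ D ι ζ hA 1 he hp1 2 h2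
  rw [one_mul] at h1
  exact Rig1_main p (p ^ defect p (block 𝔪 χ)) hp hp2 hF h1 M hsymm hpsd hdiag hP hB

end Pool.Agent.KBR
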