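import Pool.Agent.KBQ.NoJ
import Pool.Agent.KBR.NilB

/-! The blocks of the fused sections have `l = 1`. -/

namespace Pool.Agent.KBR

open Pool.Agent.KB Pool.Agent.KB.ContrAux Pool.Agent.KBL Pool.Agent.KBZ Pool.Agent.KBU
  Pool.Agent.KBQ

private theorem Fu_stb {K H C : Type} [Group K] [Fintype K] [Group H] [Fintype H] [Group C]
    {p : ℕ} {𝔪 : Ideal AInt} {χ : K → ℂ} {D : Subgroup K} {ι : H →* K} {ζ : H → ℂ}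
    (hA : AbD p 𝔪 χ D ι ζ) (u : K) (hu : u ∈ D) (ι₁ : C →* K) (hι₁ : Function.Injective ι₁)
    (hr : ∀ x : K, (∃ y, ι₁ y = x) ↔ u * x = x * u) (κ : H →* C) (hκ : ∀ x, ι₁ (κ x) = ι x)
    (hc : CenOf κ (D.comap ι₁)) (s : C) (hs : s ∈ Stb 𝔪 hc ζ) :
    ι₁ s ∈ Stb 𝔪 hA.cen ζ ∧ ι₁ s * u = u * ι₁ s := by
  refine ⟨?_, ((hr _).1 ⟨s, rfl⟩).symm⟩
  obtain ⟨hs1, hs2⟩ := (Stb_mem 𝔪 hc ζ _).1 hs
  have hC : ∀ x ∈ D, ∃ y, ι₁ y = x := fun x hx => (hr x).2 (hA.com u hu x hx)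
  rw [Stb_mem]
  constructor
  · intro x
    constructor
    · intro hx
      obtain ⟨y, rfl⟩ := hC x hx
      have h2 : ι₁ (s * y * s⁻¹) ∈ D := (hs1 y).1 hx
      rwa [map_mul, map_mul, map_inv] at h2
    · intro hx
      obtain ⟨z, hz⟩ := hC _ hx
      have h1 : x = ι₁ (s⁻¹ * z * s) := by
        rw [map_mul, map_mul, map_inv, hz]
        group
      rw [h1]
      apply (hs1 _).2
      show ι₁ (s * (s⁻¹ * z * s) * s⁻¹) ∈ D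
      have h2 : s * (s⁻¹ * z * s) * s⁻¹ = z := by group
      rw [h2, hz]
      exact hx
  · intro x₁ x₂ hx
    apply hs2 x₁ x₂
    apply hι₁
    rw [map_mul, map_mul, map_inv, hκ, hκ]
    exact hx

/-- MODULE FU1. PROOF: copy the first half of the proof of `NoJ_main` (`KBQ/NoJ.lean`): `SubC_main` gives `k`, `κ`, `w₁ = k * w * k⁻¹ ∈ D`,
`ι₁ y = k * ι y * k⁻¹` is the centralizer of `w₁`, `ι₁ (κ x) = ι₀ x`, `Ind 𝔪 κ ζ ψ`, `h₁ = k * h * k⁻¹`, `Cj 𝔪 h₁ ι₁ ψ ι₁ ψ`, and `Fus_main` gives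
`n ∈ Stb 𝔪 hA.cen ζ` with `n * w₁ * n⁻¹ = w₁ ^ J`. So by `hS`: every `g ∈ Stb 𝔪 hA.cen ζ` which commutes with `w₁` is in `ι₀.range`. `Bw_main` for `w₁`, `ι₁`, `κ`:
`defect ψ = defect χ` and `hB : AbD p 𝔪 ψ (D.comap ι₁) κ ζ`. `NilB_main` for `ψ`: if `s ∈ Stb 𝔪 hB.cen ζ` then `ι₁ s ∈ Stb 𝔪 hA.cen ζ` (as in `LY_stb` in `KBQ/LY.lean`, with `ι₁` in
place of the inclusion of the centralizer) and `ι₁ s` commutes with `w₁`, so `ι₁ s = ι₀ x = ι₁ (κ x)` and `s = κ x`. -/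
theorem Fu_main {K H C : Type} [Group K] [Fintype K] [Group H] [Fintype H] [Group C]
    [Fintype C] (p : ℕ) (hp : p.Prime) (hp2 : p ≠ 2) (𝔪 : Ideal AInt) (h𝔪 : 𝔪.IsMaximal)
    (hp𝔪 : (p : AInt) ∈ 𝔪) (χ : K → ℂ) (hχ : χ ∈ Irr K) (D : Subgroup K) (ι₀ : H →* K)
    (ζ : H → ℂ) (hA : AbD p 𝔪 χ D ι₀ ζ) (hF : 7 ≤ p ^ defect p (block 𝔪 χ)) (J : ℕ)
    (hJp : ¬ p ∣ J)
    (hS : ∀ n ∈ Stb 𝔪 hA.cen ζ, ∀ w₁ ∈ D, w₁ ≠ 1 → n * w₁ * n⁻¹ = w₁ ^ J →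
      ∀ g ∈ Stb 𝔪 hA.cen ζ, g * w₁ = w₁ * g → g ∈ ι₀.range)
    (w : K) (n : ℕ) (hw : w ^ (p ^ n) = 1) (hw1 : w ≠ 1) (ι : C →* K) (hι : Function.Injective ι)
    (hr : ∀ x : K, (∃ y, ι y = x) ↔ w * x = x * w) (ψ : C → ℂ) (hψ : ψ ∈ Irr C)
    (hind : Ind 𝔪 ι ψ χ) (h : K) (hh : h * w * h⁻¹ = w ^ J) (hcj : Cj 𝔪 h ι ψ ι ψ) :
    ell p (block 𝔪 ψ) ≤ 1 := by
  classical
  obtain ⟨k, κ, hkD, hκ, hκi⟩ := SubC_main p hp 𝔪 h𝔪 hp𝔪 χ hχ D ι₀ ζ hA w n hw ι hι hr ψ hψ hind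
  set w₁ : K := k * w * k⁻¹ with hw₁
  set ι₁ : C →* K := (MulAut.conj k).toMonoidHom.comp ι with hι₁
  have hι₁a : ∀ y, ι₁ y = k * ι y * k⁻¹ := fun y => rfl
  have hι₁i : Function.Injective ι₁ := by
    intro a b hab
    rw [hι₁a, hι₁a] at hab
    exact hι (mul_left_cancel (mul_right_cancel hab))
  have hr₁ : ∀ x : K, (∃ y, ι₁ y = x) ↔ w₁ * x = x * w₁ := by
    intro x
    have h1 : (∃ y, ι₁ y = x) ↔ ∃ y, ι y = k⁻¹ * x * k := by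
      constructor
      · rintro ⟨y, rfl⟩
        exact ⟨y, by rw [hι₁a]; group⟩
      · rintro ⟨y, hy⟩
        exact ⟨y, by rw [hι₁a, hy]; group⟩
    rw [h1, hr]
    constructor
    · intro h2
      have h3 : w₁ * x = k * (w * (k⁻¹ * x * k)) * k⁻¹ := by rw [hw₁]; group
      rw [h3, h2, hw₁]
      group
    · intro h2
      have h3 : w * (k⁻¹ * x * k) = k⁻¹ * (w₁ * x) * k := by rw [hw₁]; group
      rw [h3, h2, hw₁]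
      group
  have hκ₁ : ∀ x, ι₁ (κ x) = ι₀ x := by
    intro x
    rw [hι₁a, hκ]
    group
  set h₁ : K := k * h * k⁻¹ with hh₁
  have hw₁J : h₁ * w₁ * h₁⁻¹ = w₁ ^ J := by
    have h1 : h₁ * w₁ * h₁⁻¹ = k * (h * w * h⁻¹) * k⁻¹ := by rw [hh₁, hw₁]; group
    rw [h1, hh, hw₁, conj_pow]
  have hcj₁ : Cj 𝔪 h₁ ι₁ ψ ι₁ ψ := by
    intro x₁ x₂ hx
    refine hcj x₁ x₂ ?_
    rw [hι₁a, hι₁a] at hx
    have h1 : h₁ * (k * ι x₁ * k⁻¹) * h₁⁻¹ = k * (h * ι x₁ * h⁻¹) * k⁻¹ := by rw [hh₁]; group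
    rw [h1] at hx
    exact mul_left_cancel (mul_right_cancel hx)
  -- the order of `w₁`
  have hw₁n : w₁ ^ (p ^ n) = 1 := by
    rw [hw₁, conj_pow, hw]
    group
  have hw₁1 : w₁ ≠ 1 := by
    intro h1
    apply hw1
    have h2 : w = k⁻¹ * w₁ * k := by rw [hw₁]; group
    rw [h2, h1]
    group
  -- `w₁` is a power of `w₁ ^ J`
  have hcop : Nat.Coprime J (p ^ n) := by
    apply Nat.Coprime.pow_right
    exact ((Nat.Prime.coprime_iff_not_dvd hp).2 hJp).symm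
  obtain ⟨J', hJ'⟩ : ∃ J', (w₁ ^ J) ^ J' = w₁ := by
    have h1 : Nat.Coprime (orderOf w₁) J :=
      (hcop.coprime_dvd_right (orderOf_dvd_of_pow_eq_one hw₁n)).symm
    obtain ⟨m, hm⟩ := exists_pow_eq_self_of_coprime h1.symm
    exact ⟨m, hm⟩
  have hr₁' : ∀ x : K, (∃ y, ι₁ y = x) ↔ w₁ ^ J * x = x * w₁ ^ J := by
    intro x
    rw [hr₁ x]
    constructor
    · intro h1
      exact (Commute.pow_left (show Commute w₁ x from h1) J)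
    · intro h1
      have h2 : Commute ((w₁ ^ J) ^ J') x := (show Commute (w₁ ^ J) x from h1).pow_left J'
      rw [hJ'] at h2
      exact h2
  obtain ⟨g, hg, hgw⟩ := Fus_main p hp 𝔪 h𝔪 hp𝔪 χ hχ D ι₀ ζ hA w₁ (w₁ ^ J) hkD
    (D.pow_mem hkD J) ι₁ hι₁i hr₁ ι₁ hι₁i hr₁' κ hκ₁ κ hκ₁ ψ hψ ψ hψ hκi hκi h₁ hw₁J hcj₁
  have hS' := hS g hg w₁ hkD hw₁1 hgw
  obtain ⟨-, hdef, hB⟩ := Bw_main p hp 𝔪 h𝔪 hp𝔪 χ hχ D ι₀ ζ hA w₁ hkD ι₁ hι₁i hr₁ κ hκ₁ ψ hψ hκi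
  refine NilB_main p hp hp2 𝔪 h𝔪 hp𝔪 ψ hψ (D.comap ι₁) κ ζ hB (by rw [hdef]; exact hF) ?_
  intro s hs
  obtain ⟨h1, h2⟩ := Fu_stb hA w₁ hkD ι₁ hι₁i hr₁ κ hκ₁ hB.cen s hs
  obtain ⟨x, hx⟩ := hS' _ h1 h2
  refine ⟨x, hι₁i ?_⟩
  rw [hκ₁, hx]

end Pool.Agent.KBR
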