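import Pool.Agent.KBR.GGeoD

/-! The group `N / C` acting on an abelian subgroup `D` by conjugation. -/

namespace Pool.Agent.KBR

/-- `D` as a commutative group -/
private abbrev cnv_grp {K : Type} [Group K] (D : Subgroup K)
    (hab : ∀ a ∈ D, ∀ b ∈ D, a * b = b * a) : CommGroup D :=
  { D.toGroup with mul_comm := fun a b => Subtype.ext (hab a a.2 b b.2) }

/-- conjugation -/
private def cnv_phi {K : Type} [Group K] (D N : Subgroup K)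
    (hN : ∀ n ∈ N, ∀ x ∈ D, n * x * n⁻¹ ∈ D) : N →* MulAut D where
  toFun n :=
    { toFun := fun x => ⟨n.1 * x.1 * n.1⁻¹, hN n.1 n.2 x.1 x.2⟩
      invFun := fun x => ⟨n.1⁻¹ * x.1 * n.1, by
        have h := hN n.1⁻¹ (N.inv_mem n.2) x.1 x.2
        rwa [inv_inv] at h⟩
      left_inv := fun x => Subtype.ext (by
        show n.1⁻¹ * (n.1 * x.1 * n.1⁻¹) * n.1 = x.1
        group)
      right_inv := fun x => Subtype.ext (by
        show n.1 * (n.1⁻¹ * x.1 * n.1) * n.1⁻¹ = x.1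
        group)
      map_mul' := fun x y => Subtype.ext (by
        show n.1 * (x.1 * y.1) * n.1⁻¹ = (n.1 * x.1 * n.1⁻¹) * (n.1 * y.1 * n.1⁻¹)
        group) }
  map_one' := by
    ext x
    show (1 : K) * x.1 * (1 : K)⁻¹ = x.1
    simp
  map_mul' := fun a b => by
    ext x
    show (a.1 * b.1) * x.1 * (a.1 * b.1)⁻¹ = a.1 * (b.1 * x.1 * b.1⁻¹) * a.1⁻¹
    group

private theorem cnv_phi_apply {K : Type} [Group K] (D N : Subgroup K)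
    (hN : ∀ n ∈ N, ∀ x ∈ D, n * x * n⁻¹ ∈ D) (n : N) (x : D) :
    ((cnv_phi D N hN n x : D) : K) = n.1 * x.1 * n.1⁻¹ := rfl

private theorem cnv_ker {K : Type} [Group K] (D N C : Subgroup K)
    (hN : ∀ n ∈ N, ∀ x ∈ D, n * x * n⁻¹ ∈ D) (hC : ∀ c ∈ C, ∀ x ∈ D, c * x = x * c)
    (hCc : ∀ n ∈ N, (∀ x ∈ D, n * x = x * n) → n ∈ C) :
    (cnv_phi D N hN).ker = C.subgroupOf N := by
  ext n
  rw [MonoidHom.mem_ker, Subgroup.mem_subgroupOf]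
  constructor
  · intro h
    refine hCc n.1 n.2 fun x hx => ?_
    have h1 : ((cnv_phi D N hN n ⟨x, hx⟩ : D) : K) = x := by rw [h]; rfl
    rw [cnv_phi_apply] at h1
    exact mul_inv_eq_iff_eq_mul.1 h1
  · intro h
    ext x
    rw [cnv_phi_apply, hC n.1 h x.1 x.2, mul_inv_cancel_right]
    rfl

/-- MODULE GCNV1. PROOF: `D'` is `D` with its commutative group structure, `e` the inclusion. `n ∈ N` acts on `D` by conjugation (`hN`); this is a homomorphism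
`N →* MulAut D` with kernel `C` (as a subgroup of `N`; `hC`, `hCc`), `E` its range; `|E| = |N| / |C|`. (See `ChW_phi`, `ChW_ker`, `ChW_idx`
in `KBQ/ChW.lean`, where the same is done for the elements of order `p`.) -/
theorem Cnv_main {K : Type} [Group K] [Finite K] (p : ℕ) (D N C : Subgroup K)
    (hD : IsPGroup p D) (hab : ∀ a ∈ D, ∀ b ∈ D, a * b = b * a)
    (hN : ∀ n ∈ N, ∀ x ∈ D, n * x * n⁻¹ ∈ D) (hCN : C ≤ N) (hC : ∀ c ∈ C, ∀ x ∈ D, c * x = x * c)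
    (hCc : ∀ n ∈ N, (∀ x ∈ D, n * x = x * n) → n ∈ C) (hpi : ¬ p ∣ Nat.card N / Nat.card C) :
    ∃ (D' : Type) (_ : CommGroup D') (_ : Finite D') (e : D' →* K) (E : Subgroup (MulAut D')),
      Function.Injective e ∧ (∀ z, z ∈ D ↔ ∃ x, e x = z) ∧ IsPGroup p D' ∧
      Nat.card D' = Nat.card D ∧ ¬ p ∣ Nat.card E ∧
      (∀ n ∈ N, ∃ φ ∈ E, ∀ x, e (φ x) = n * e x * n⁻¹) ∧
      (∀ φ ∈ E, ∃ n ∈ N, ∀ x, e (φ x) = n * e x * n⁻¹) := by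
  letI : CommGroup D := cnv_grp D hab
  refine ⟨D, cnv_grp D hab, inferInstance, D.subtype, (cnv_phi D N hN).range,
    Subgroup.subtype_injective D, ?_, hD, rfl, ?_, ?_, ?_⟩
  · intro z
    exact ⟨fun hz => ⟨⟨z, hz⟩, rfl⟩, by rintro ⟨x, rfl⟩; exact x.2⟩
  · intro hdvd
    apply hpi
    have h1 := Subgroup.card_mul_index (cnv_phi D N hN).ker
    rw [Subgroup.index_ker, cnv_ker D N C hN hC hCc,
      Nat.card_congr (Subgroup.subgroupOfEquivOfLe hCN).toEquiv] at h1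
    rw [← h1, Nat.mul_div_cancel_left _ Nat.card_pos]
    exact hdvd
  · intro n hn
    exact ⟨cnv_phi D N hN ⟨n, hn⟩, ⟨_, rfl⟩, fun x => rfl⟩
  · rintro _ ⟨n, rfl⟩
    exact ⟨n.1, n.2, fun x => rfl⟩

private theorem cnv_zp {A B : Type} [Group A] [Group B] (e : A →* B)
    (he : Function.Injective e) (u x : A) :
    e x ∈ Subgroup.zpowers (e u) ↔ x ∈ Subgroup.zpowers u := by
  rw [Subgroup.mem_zpowers_iff, Subgroup.mem_zpowers_iff]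
  constructor
  · rintro ⟨k, hk⟩
    exact ⟨k, he (by rw [map_zpow, hk])⟩
  · rintro ⟨k, rfl⟩
    exact ⟨k, by rw [map_zpow]⟩

private theorem cnv_om {K D' : Type} [Group K] [Finite K] [CommGroup D'] [Finite D'] (p : ℕ)
    (D : Subgroup K) (e : D' →* K) (he : Function.Injective e) (hz : ∀ z, z ∈ D ↔ ∃ x, e x = z) :
    Nat.card (Om p D') = Nat.card {x : D // x ^ p = 1} := by
  refine Nat.card_eq_of_bijective (fun x : Om p D' =>
    (⟨⟨e x.1, (hz _).2 ⟨x.1, rfl⟩⟩, Subtype.ext (by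
      show (e x.1) ^ p = 1
      rw [← map_pow, (Om_mem p D' x.1).1 x.2, map_one])⟩ : {x : D // x ^ p = 1})) ⟨?_, ?_⟩
  · intro a b hab
    have h1 := congrArg (fun t : {x : D // x ^ p = 1} => (t.1 : K)) hab
    exact Subtype.ext (he h1)
  · rintro ⟨⟨z, hzD⟩, hzp⟩
    obtain ⟨x, rfl⟩ := (hz z).1 hzD
    have h1 : (e x) ^ p = 1 := congrArg Subtype.val hzp
    exact ⟨⟨x, (Om_mem p D' x).2 (he (by rw [map_pow, h1, map_one]))⟩, rfl⟩

/-- MODULE GCNV2. PROOF: `Cnv_main` and `GeoD_main` (`|Om p D'| = #{x : D // x ^ p = 1}`; `orderOf (e x) = orderOf x`; `e` maps `zpowers` to `zpowers`). `φ = 1` means that `n`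
commutes with `D`, so `n ∈ C` by `hCc`; `n` commutes with `e u` iff `φ u = u`. -/
theorem Cnv_geo {K : Type} [Group K] [Finite K] (p : ℕ) (hp : p.Prime) (hp2 : p ≠ 2)
    (D N C : Subgroup K) (hD : IsPGroup p D) (hab : ∀ a ∈ D, ∀ b ∈ D, a * b = b * a)
    (hN : ∀ n ∈ N, ∀ x ∈ D, n * x * n⁻¹ ∈ D) (hCN : C ≤ N) (hC : ∀ c ∈ C, ∀ x ∈ D, c * x = x * c)
    (hCc : ∀ n ∈ N, (∀ x ∈ D, n * x = x * n) → n ∈ C) (hpi : ¬ p ∣ Nat.card N / Nat.card C)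
    (hcard : Nat.card {x : D // x ^ p = 1} ≤ p ^ 3) :
    (∃ u ∈ D, ∀ n ∈ N, n * u = u * n → n ∈ C) ∨ (∃ u ∈ D, Nat.card D ≤ p * orderOf u) ∨
      ∃ u ∈ D, ∃ w ∈ D, Nat.card D = p ^ 2 * orderOf u ∧ (∀ z ∈ D, z ^ p ∈ Subgroup.zpowers u) ∧
        w ∉ Subgroup.zpowers u ∧ ∀ n ∈ N, n * u = u * n →
          (∀ μ : ℕ, (∀ x ∈ D, n * x * n⁻¹ * (x ^ μ)⁻¹ ∈ Subgroup.zpowers u) → n ∈ C) ∧
          ∀ i j : ℤ, n * w * n⁻¹ = u ^ i * w ^ j → n * w = w * n := by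
  haveI : Fact p.Prime := ⟨hp⟩
  obtain ⟨D', _, _, e, E, he, hz, hpg, hc, hE, hNE, hEN⟩ :=
    Cnv_main p D N C hD hab hN hCN hC hCc hpi
  have hmem : ∀ x, e x ∈ D := fun x => (hz _).2 ⟨x, rfl⟩
  have hcomm : ∀ n : K, ∀ φ : MulAut D', (∀ x, e (φ x) = n * e x * n⁻¹) → ∀ x,
      (n * e x = e x * n ↔ φ x = x) := by
    intro n φ h x
    rw [← he.eq_iff (a := φ x), h x, mul_inv_eq_iff_eq_mul]
  have hone : ∀ n ∈ N, ∀ φ : MulAut D', (∀ x, e (φ x) = n * e x * n⁻¹) → φ = 1 → n ∈ C := by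
    intro n hn φ h h1
    refine hCc n hn fun z hzD => ?_
    obtain ⟨x, rfl⟩ := (hz z).1 hzD
    rw [hcomm n φ h x, h1]
    rfl
  have hord : ∀ x, orderOf (e x) = orderOf x := fun x => orderOf_injective e he x
  rcases GeoD_main hp2 hpg E hE (by rw [cnv_om p D e he hz]; exact hcard) with
    ⟨u, h⟩ | ⟨u, h⟩ | ⟨u, w, h1, h2, h3, h4⟩
  · refine Or.inl ⟨e u, hmem u, fun n hn hnu => ?_⟩
    obtain ⟨φ, hφ, hφn⟩ := hNE n hn
    exact hone n hn φ hφn (h φ hφ ((hcomm n φ hφn u).1 hnu))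
  · refine Or.inr (Or.inl ⟨e u, hmem u, ?_⟩)
    rw [hord, ← hc]
    exact h
  · refine Or.inr (Or.inr ⟨e u, hmem u, e w, hmem w, ?_, ?_, ?_, ?_⟩)
    · rw [hord, ← hc]
      exact h1
    · intro z hzD
      obtain ⟨x, rfl⟩ := (hz z).1 hzD
      rw [← map_pow, cnv_zp e he]
      exact h2 x
    · rw [cnv_zp e he]
      exact h3
    · intro n hn hnu
      obtain ⟨φ, hφ, hφn⟩ := hNE n hn
      obtain ⟨h5, h6⟩ := h4 φ hφ ((hcomm n φ hφn u).1 hnu)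
      refine ⟨fun μ hμ => hone n hn φ hφn (h5 μ fun x => ?_), fun i j hij => ?_⟩
      · have h7 := hμ (e x) (hmem x)
        rw [← hφn, ← map_pow, ← map_inv, ← map_mul, cnv_zp e he] at h7
        exact h7
      · rw [hcomm n φ hφn w]
        refine h6 i j (he ?_)
        rw [hφn, hij, map_mul, map_zpow, map_zpow]

/-- MODULE GCNV3. PROOF: `Cnv_main` and `GeoJ_main`. -/
theorem Cnv_J {K : Type} [Group K] [Finite K] (p : ℕ) (hp : p.Prime) (hp2 : p ≠ 2)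
    (D N C : Subgroup K) (hD : IsPGroup p D) (hab : ∀ a ∈ D, ∀ b ∈ D, a * b = b * a)
    (hN : ∀ n ∈ N, ∀ x ∈ D, n * x * n⁻¹ ∈ D) (hCN : C ≤ N) (hC : ∀ c ∈ C, ∀ x ∈ D, c * x = x * c)
    (hCc : ∀ n ∈ N, (∀ x ∈ D, n * x = x * n) → n ∈ C) (hpi : ¬ p ∣ Nat.card N / Nat.card C)
    (u : K) (hu : u ∈ D) (hun : ∀ n ∈ N, n * u = u * n) (hcard : Nat.card D = p ^ 2 * orderOf u)
    (hexp : ∀ z ∈ D, z ^ p ∈ Subgroup.zpowers u)
    (hG : ∀ n ∈ N, ∀ μ : ℕ, (∀ x ∈ D, n * x * n⁻¹ * (x ^ μ)⁻¹ ∈ Subgroup.zpowers u) → n ∈ C)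
    (J : ℕ) (hJp : ¬ p ∣ J) (hJ : ∀ s, J ^ s ≡ 1 [MOD p] → (p - 1) ∣ s) (n : K) (hn : n ∈ N)
    (w : K) (hw : w ∈ D) (hw1 : w ≠ 1) (h : n * w * n⁻¹ = w ^ J) (g : K) (hg : g ∈ N)
    (hgw : g * w = w * g) : g ∈ C := by
  haveI : Fact p.Prime := ⟨hp⟩
  obtain ⟨D', _, _, e, E, he, hz, hpg, hc, hE, hNE, hEN⟩ :=
    Cnv_main p D N C hD hab hN hCN hC hCc hpi
  have hmem : ∀ x, e x ∈ D := fun x => (hz _).2 ⟨x, rfl⟩
  have hcomm : ∀ n : K, ∀ φ : MulAut D', (∀ x, e (φ x) = n * e x * n⁻¹) → ∀ x,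
      (n * e x = e x * n ↔ φ x = x) := by
    intro n φ h x
    rw [← he.eq_iff (a := φ x), h x, mul_inv_eq_iff_eq_mul]
  have hone : ∀ n ∈ N, ∀ φ : MulAut D', (∀ x, e (φ x) = n * e x * n⁻¹) → φ = 1 → n ∈ C := by
    intro n hn φ h h1
    refine hCc n hn fun z hzD => ?_
    obtain ⟨x, rfl⟩ := (hz z).1 hzD
    rw [hcomm n φ h x, h1]
    rfl
  obtain ⟨u, rfl⟩ := (hz u).1 hu
  obtain ⟨w, rfl⟩ := (hz w).1 hw
  obtain ⟨φ₀, hφ₀, hφ₀n⟩ := hNE n hn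
  obtain ⟨φ, hφ, hφn⟩ := hNE g hg
  refine hone g hg φ hφn (GeoJ_main hp2 hpg E hE u ?_ ?_ ?_ ?_ J hJp hJ φ₀ hφ₀ w ?_ ?_ φ hφ ?_)
  · intro ψ hψ
    obtain ⟨m, hm, hψm⟩ := hEN ψ hψ
    exact (hcomm m ψ hψm u).1 (hun m hm)
  · rw [hc, hcard, orderOf_injective e he]
  · intro x
    rw [← cnv_zp e he, map_pow]
    exact hexp _ (hmem x)
  · intro ψ hψ μ hμ
    obtain ⟨m, hm, hψm⟩ := hEN ψ hψ
    have h1 : m ∈ C := by
      refine hG m hm μ fun z hzD => ?_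
      obtain ⟨x, rfl⟩ := (hz z).1 hzD
      rw [← hψm, ← map_pow, ← map_inv, ← map_mul, cnv_zp e he]
      exact hμ x
    ext x
    exact (hcomm m ψ hψm x).1 (hC m h1 (e x) (hmem x))
  · intro h1
    apply hw1
    rw [h1, map_one]
  · apply he
    rw [hφ₀n, h, map_pow]
  · exact (hcomm g φ hφn w).1 hgw

end Pool.Agent.KBR
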