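import Pool.Agent.KBZ.Cent
import Pool.Agent.KBQ.JEx

/-! Central elements of `p`-power order are in the kernel of `J`-fixed characters. -/

namespace Pool.Agent.KBR

open Pool.Agent.KB Pool.Agent.KB.ContrAux Pool.Agent.KBL Pool.Agent.KBZ

/-- MODULE KER. `p` odd (otherwise `J` need not exist). PROOF: `χ (u * g) = z * χ g` for all `g`, with a
complex number `z`, `z ^ (p ^ n) = 1` (Schur: `Cent_main`, or directly `ρ u` is a scalar). So
`χ (u ^ j) = z ^ j * χ 1`, `χ 1 ≠ 0`. `hχJ` with `g = u`: `z ^ J = z`, i.e. `z ^ (J - 1) = 1`. By `hJ` with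
`s = 1`: if `p` divides `J - 1` (that is `J ≡ 1 [MOD p]`) then `p - 1 ∣ 1`, `p = 2`: excluded. So `J - 1` is prime to
the order of `z` (a power of `p`) and `z = 1`. (`J ≠ 0` as `p` does not divide `J`.) -/
theorem Ker_main {G : Type} [Group G] [Fintype G] (p : ℕ) (hp : p.Prime) (hp2 : p ≠ 2) (J : ℕ)
    (hJp : ¬ p ∣ J) (hJ : ∀ s, J ^ s ≡ 1 [MOD p] → (p - 1) ∣ s) (u : G) (n : ℕ)
    (hu : u ^ (p ^ n) = 1) (huc : ∀ g : G, g * u = u * g) (χ : G → ℂ) (hχ : χ ∈ Irr G)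
    (hχJ : ∀ g, χ (g ^ J) = χ g) (g : G) : χ (u * g) = χ g := by
  have hpp : 0 < p ^ n := pow_pos hp.pos n
  have hord : u ^ (p * p ^ n) = 1 := by
    rw [mul_comm, pow_mul, hu, one_pow]
  have hne : p * p ^ n ≠ 0 := (Nat.mul_pos hp.pos hpp).ne'
  obtain ⟨r, t, h1⟩ := Cent_main u huc p (p ^ n) hp.pos hpp hord _
    (Complex.isPrimitiveRoot_exp (p * p ^ n) hne) χ hχ
  obtain ⟨η, hη⟩ : ∃ η, η = Complex.exp (2 * Real.pi * Complex.I / ((p * p ^ n : ℕ) : ℂ)) :=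
    ⟨_, rfl⟩
  have hprim : IsPrimitiveRoot η (p * p ^ n) := hη ▸ Complex.isPrimitiveRoot_exp (p * p ^ n) hne
  rw [← hη] at h1
  obtain ⟨z, hz⟩ : ∃ z, z = η ^ ((r : ℕ) + p ^ n * (t : ℕ)) := ⟨_, rfl⟩
  have h2 : ∀ (j : ℕ) (y : G), χ (u ^ j * y) = z ^ j * χ y := by
    intro j y
    rw [h1, hz, ← pow_mul, mul_comm j]
  obtain ⟨k, hk, hk1⟩ := irr_deg hχ
  have hχ1 : χ 1 ≠ 0 := by
    rw [hk1]
    exact_mod_cast hk.ne'
  have h3 : z ^ J = z := by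
    have e1 := h2 J 1
    have e2 := h2 1 1
    rw [mul_one] at e1 e2
    rw [pow_one, pow_one] at e2
    have e3 := hχJ u
    rw [e1, e2] at e3
    exact mul_right_cancel₀ hχ1 e3
  have hz0 : z ≠ 0 := by
    rw [hz]
    exact pow_ne_zero _ (hprim.ne_zero hne)
  have hJ0 : J ≠ 0 := by
    rintro rfl
    exact hJp (dvd_zero p)
  have h4 : z ^ (J - 1) = 1 := by
    have e1 : z ^ (J - 1) * z = 1 * z := by
      rw [← pow_succ, Nat.sub_add_cancel (Nat.one_le_iff_ne_zero.2 hJ0), h3, one_mul]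
    exact mul_right_cancel₀ hz0 e1
  have h5 : z ^ (p ^ (n + 1)) = 1 := by
    rw [hz, ← pow_mul, mul_comm, pow_mul, pow_succ', hprim.pow_eq_one, one_pow]
  have h6 : ¬ p ∣ J - 1 := by
    intro h
    have e1 : J ^ 1 ≡ 1 [MOD p] := by
      rw [pow_one]
      exact ((Nat.modEq_iff_dvd' (Nat.one_le_iff_ne_zero.2 hJ0)).2 h).symm
    have e2 := Nat.dvd_one.1 (hJ 1 e1)
    have e3 := hp.two_le
    omega
  have h7 : orderOf z ∣ Nat.gcd (J - 1) (p ^ (n + 1)) :=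
    Nat.dvd_gcd (orderOf_dvd_of_pow_eq_one h4) (orderOf_dvd_of_pow_eq_one h5)
  have h8 : Nat.gcd (J - 1) (p ^ (n + 1)) = 1 :=
    Nat.Coprime.pow_right _ ((Nat.Prime.coprime_iff_not_dvd hp).2 h6).symm
  rw [h8, Nat.dvd_one, orderOf_eq_one_iff] at h7
  have h9 := h2 1 g
  rw [pow_one, pow_one, h7, one_mul] at h9
  exact h9

end Pool.Agent.KBR
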