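import Pool.Agent.KBQ.MatY
import Pool.Agent.KBQ.IndA
import Pool.Agent.KBZ.FinZ
import Pool.Agent.KBZ.Four

/-! The lattice theorem for rational characters. -/

namespace Pool.Agent.KBR

open Pool.Agent.KB Pool.Agent.KB.ContrAux Pool.Agent.KBL Pool.Agent.KBZ Pool.Agent.KBU
  Pool.Agent.KBQ

private theorem latr_symm {G : Type} [Group G] [Fintype G] {p : ℕ} {𝔪 : Ideal AInt} {w : G}
    {C : Subgroup G} [Fintype C] {ψ : C → ℂ} (L : Loc p 𝔪 w C ψ) (i j : Fin L.K) :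
    L.M i j = L.M j i := by
  have h1 := L.hM i j
  rw [CDAux.T_symm, ← L.hM j i] at h1
  exact_mod_cast h1

private theorem latr_nonneg {G : Type} [Group G] [Fintype G] {p : ℕ} {𝔪 : Ideal AInt} {w : G}
    {C : Subgroup G} [Fintype C] {ψ : C → ℂ} (L : Loc p 𝔪 w C ψ) (x : Fin L.K → ℤ) :
    0 ≤ bil L.M x x := by
  have h := CovZ_norm L x
  have h2 : (0 : ℝ) ≤ ((bil L.M x x : ℤ) : ℝ) := by
    rw [← h]
    positivity
  exact_mod_cast h2

/-- MODULE LATR1. PROOF: `Four_main` for `q = p ^ L.m`, `f r t = bil L.M x (L.a χ r t)` (symmetry of `bil`,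
`HD_symm`). Each of the terms with `p ∤ j` on the left is `‖L.H j χ x‖ ^ 2 = ‖L.H 1 χ x‖ ^ 2 = (bil L.M Y x) ^ 2` (`hH`,
`hY`), their number is `p ^ L.m * (p - 1)` (`Four_card` or count). Divide by `p ^ L.m`. -/
theorem LatR_dif {G : Type} [Group G] [Fintype G] {p : ℕ} {𝔪 : Ideal AInt} {w : G}
    {C : Subgroup G} [Fintype C] {ψ : C → ℂ} (L : Loc p 𝔪 w C ψ) (χ : G → ℂ)
    (Y x : Fin L.K → ℤ) (hY : L.H 1 χ x = ((bil L.M Y x : ℤ) : ℂ))
    (hH : ∀ j : ℕ, ¬ p ∣ j → L.H j χ x = L.H 1 χ x) :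
    ∑ r, ∑ t, ∑ t', (bil L.M x (L.a χ r t) - bil L.M x (L.a χ r t')) ^ 2 =
      2 * ((p : ℤ) - 1) * bil L.M Y x ^ 2 := by
  have hp := L.hp
  set q : ℕ := p ^ L.m with hq
  have hq0 : 0 < q := Nat.pow_pos hp.pos
  have hqR : (q : ℝ) ≠ 0 := by exact_mod_cast hq0.ne'
  have h1 := Four_main p q hp hq0 L.η L.hη (fun r t => ((bil L.M (L.a χ r t) x : ℤ) : ℝ))
  have h2 : ∀ j ∈ (Finset.range (p * q)).filter (fun j => ¬ p ∣ j),
      ‖∑ r : Fin q, ∑ t : Fin p, L.η ^ (j * ((r : ℕ) + q * (t : ℕ))) *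
        ((((bil L.M (L.a χ r t) x : ℤ) : ℝ)) : ℂ)‖ ^ 2 = ((bil L.M Y x : ℤ) : ℝ) ^ 2 := by
    intro j hj
    have h3 : L.H j χ x = ((bil L.M Y x : ℤ) : ℂ) := by
      rw [hH j (Finset.mem_filter.1 hj).2, hY]
    have h4 : ∑ r : Fin q, ∑ t : Fin p, L.η ^ (j * ((r : ℕ) + q * (t : ℕ))) *
        ((((bil L.M (L.a χ r t) x : ℤ) : ℝ)) : ℂ) = ((bil L.M Y x : ℤ) : ℂ) := by
      rw [← h3]
      unfold Loc.H
      refine Finset.sum_congr rfl fun r _ => Finset.sum_congr rfl fun t _ => ?_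
      rw [Complex.ofReal_intCast]
    rw [h4]
    have h5 : ((bil L.M Y x : ℤ) : ℂ) = (((bil L.M Y x : ℤ) : ℝ) : ℂ) := by
      rw [Complex.ofReal_intCast]
    rw [h5, Complex.norm_real, Real.norm_eq_abs, sq_abs]
  have hcard : ((Finset.range (p * q)).filter (fun j => ¬ p ∣ j)).card = (p - 1) * q :=
    Four_card p L.m hp
  rw [Finset.sum_congr rfl h2, Finset.sum_const, hcard, nsmul_eq_mul] at h1
  have h6 : ∑ r, ∑ t, ∑ t', (((bil L.M (L.a χ r t) x : ℤ) : ℝ) -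
      ((bil L.M (L.a χ r t') x : ℤ) : ℝ)) ^ 2 = 2 * ((p : ℝ) - 1) * ((bil L.M Y x : ℤ) : ℝ) ^ 2 := by
    apply mul_left_cancel₀ hqR
    rw [← h1]
    push_cast [Nat.cast_sub hp.one_lt.le]
    ring
  have h7 : ((∑ r, ∑ t, ∑ t', (bil L.M x (L.a χ r t) - bil L.M x (L.a χ r t')) ^ 2 : ℤ) : ℝ) =
      ((2 * ((p : ℤ) - 1) * bil L.M Y x ^ 2 : ℤ) : ℝ) := by
    push_cast
    rw [← h6]
    refine Finset.sum_congr rfl fun r _ => Finset.sum_congr rfl fun t _ =>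
      Finset.sum_congr rfl fun t' _ => ?_
    rw [HD_symm L.M (latr_symm L) x, HD_symm L.M (latr_symm L) x]
  exact_mod_cast h7

/-- MODULE LATR2. PROOF: copy `FinZ_main` (`KBZ/FinZ.lean`) with `k = m * (p - 1)`, the character of index
`i : Fin (m * (p - 1))` being `χ (finProdFinEquiv.symm i).1` (every `χ a` is repeated `p - 1` times) and `p ^ d`
replaced by `f`. `Y a` from `MatY_main` (`hrat`); `hcov`: by `LatR_dif` the sum over `r, t, t'` is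
`2 (p - 1) (bil L.M (Y a) x) ^ 2`, so the sum over all `i` is `2 (p - 1) * ((p - 1) * ∑ a, (bil L.M (Y a) x) ^ 2)`, at
most `2 (p - 1) * (f * bil L.M x x)` by `hB`. `AsmZ_main` (`hind` by `IndA_loc`) gives `c`, `v`, `hne`, `h4`;
`LatZ_main` with `f`: `k ≤ f`, or (`TrW_main`, `EmbB_main` as there) `(p + 1) * k ≤ f * ell`. -/
theorem LatR_main {G : Type} [Group G] [Fintype G] {p : ℕ} {𝔪 : Ideal AInt} {w : G}
    {C : Subgroup G} [Fintype C] {ψ : C → ℂ} (L : Loc p 𝔪 w C ψ) (χ₀ : G → ℂ) (hχ₀ : χ₀ ∈ Irr G)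
    (hind : Ind 𝔪 C.subtype ψ χ₀) (hmaj : defect p (block 𝔪 ψ) = defect p (block 𝔪 χ₀))
    {m : ℕ} (χ : Fin m → G → ℂ) (hχ : ∀ a, χ a ∈ block 𝔪 χ₀)
    (hrat : ∀ a, ∀ j : ℕ, ¬ p ∣ j → ∀ y : C, ¬ p ∣ orderOf y →
      χ a (w ^ j * (y : G)) = χ a (w * (y : G)))
    (f : ℕ)
    (hB : ∀ Y : Fin m → Fin L.K → ℤ, (∀ a x, L.H 1 (χ a) x = ((bil L.M (Y a) x : ℤ) : ℂ)) →
      ∀ x : Fin L.K → ℤ, ((p : ℤ) - 1) * ∑ a, bil L.M (Y a) x ^ 2 ≤ (f : ℤ) * bil L.M x x) :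
    m * (p - 1) ≤ f ∨ (p + 1) * (m * (p - 1)) ≤ f * ell p (block 𝔪 ψ) := by
  classical
  have hp := L.hp
  obtain ⟨c, v, hc, hv, hex, hne, h4⟩ := AsmZ_main L χ₀ hχ₀
    (fun g => IndA_loc 𝔪 C ψ L.hζ χ₀ hχ₀ hind g) hmaj
  obtain ⟨w', m', h1, h2, -, -, -, h6⟩ := EmbB_main p hp 𝔪 L.hmax L.hpm ψ L.hζ L.X L.inj L.mem
  have hm' : ∀ i j, m' i j = L.M i j := by
    intro i j
    have e1 := h2 i j
    have e2 := L.hM i j
    have e3 : (m' i j : ℂ) = (L.M i j : ℂ) := by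
      rw [e2]
      exact e1
    exact_mod_cast e3
  have hw : ∀ i j, inner ℝ (w' i) (w' j) = (L.M i j : ℝ) := by
    intro i j
    rw [h1, hm']
  have hsymm := latr_symm L
  have hpsd := latr_nonneg L
  have hY : ∀ a, ∃ Y : Fin L.K → ℤ, ∀ x : Fin L.K → ℤ,
      L.H 1 (χ a) x = ((bil L.M Y x : ℤ) : ℂ) ∧
        ∀ j : ℕ, ¬ p ∣ j → L.H j (χ a) x = L.H 1 (χ a) x :=
    fun a => MatY_main L (χ a) (hχ a).1 (hrat a)
  choose Y hY using hY
  have hp2 := hp.two_le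
  have hp1 : ((p - 1 : ℕ) : ℤ) = (p : ℤ) - 1 := by
    rw [Nat.cast_sub (by omega)]
    simp
  set l := ell p (block 𝔪 ψ) with hl
  -- the index
  set e : Fin (m * (p - 1)) → Fin m := fun i => (finProdFinEquiv.symm i).1 with he
  have hrep : ∀ g : Fin m → ℤ, ∑ i : Fin (m * (p - 1)), g (e i) = ((p : ℤ) - 1) * ∑ a, g a := by
    intro g
    rw [← Equiv.sum_comp finProdFinEquiv, Fintype.sum_prod_type, Finset.mul_sum]
    refine Finset.sum_congr rfl fun a _ => ?_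
    simp only [he, Equiv.symm_apply_apply]
    rw [Finset.sum_const, Finset.card_univ, Fintype.card_fin, nsmul_eq_mul, hp1]
  have hcov : ∀ x : Fin L.K → ℤ,
      ∑ i, ∑ r, ∑ t, ∑ t', (bil L.M x (L.a (χ (e i)) r t) - bil L.M x (L.a (χ (e i)) r t')) ^ 2 ≤
      2 * ((p : ℤ) - 1) * (f : ℤ) * bil L.M x x := by
    intro x
    have e1 : ∀ i, ∑ r, ∑ t, ∑ t', (bil L.M x (L.a (χ (e i)) r t) -
        bil L.M x (L.a (χ (e i)) r t')) ^ 2 = 2 * ((p : ℤ) - 1) * bil L.M (Y (e i)) x ^ 2 := fun i =>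
      LatR_dif L (χ (e i)) (Y (e i)) x (hY (e i) x).1 (hY (e i) x).2
    rw [Finset.sum_congr rfl fun i _ => e1 i, hrep (fun a => 2 * ((p : ℤ) - 1) * bil L.M (Y a) x ^ 2),
      ← Finset.mul_sum]
    have e2 := hB Y (fun a x => (hY a x).1) x
    have e3 : (0 : ℤ) ≤ 2 * ((p : ℤ) - 1) := by
      have : (2 : ℤ) ≤ p := by exact_mod_cast hp2
      linarith
    calc ((p : ℤ) - 1) * (2 * ((p : ℤ) - 1) * ∑ a, bil L.M (Y a) x ^ 2) =
        2 * ((p : ℤ) - 1) * (((p : ℤ) - 1) * ∑ a, bil L.M (Y a) x ^ 2) := by ring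
      _ ≤ 2 * ((p : ℤ) - 1) * ((f : ℤ) * bil L.M x x) := mul_le_mul_of_nonneg_left e2 e3
      _ = _ := by ring
  have hlat := LatZ_main p f hp L.M hsymm hpsd c v hc hv hex (fun i => L.a (χ (e i))) hcov
    (fun i => hne (χ (e i)) (hχ (e i))) (fun i => h4 (χ (e i)) (hχ (e i))) (fun g => P_all _ g)
  rcases hlat with h | h
  · exact Or.inl h
  · refine Or.inr ?_
    -- the trace
    set y : Fin (m * (p - 1)) × Fin (p ^ L.m) × Fin p × Fin p → Fin L.K → ℤ :=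
      fun z => L.a (χ (e z.1)) z.2.1 z.2.2.1 - L.a (χ (e z.1)) z.2.1 z.2.2.2 with hy
    have hsum : ∀ g : Fin (m * (p - 1)) → Fin (p ^ L.m) → Fin p → Fin p → ℤ,
        ∑ z : Fin (m * (p - 1)) × Fin (p ^ L.m) × Fin p × Fin p, g z.1 z.2.1 z.2.2.1 z.2.2.2 =
          ∑ i, ∑ r, ∑ t, ∑ t', g i r t t' := by
      intro g
      rw [Fintype.sum_prod_type]
      refine Finset.sum_congr rfl fun i _ => ?_
      rw [Fintype.sum_prod_type]
      refine Finset.sum_congr rfl fun r _ => ?_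
      rw [Fintype.sum_prod_type]
    have htr := TrW_main L.M w' hw y (2 * (p - 1) * f) l (by
      intro x
      have e1 := hsum (fun i r t t' => (bil L.M x (L.a (χ (e i)) r t) -
        bil L.M x (L.a (χ (e i)) r t')) ^ 2)
      have e2 : ∑ r, bil L.M x (y r) ^ 2 =
          ∑ z : Fin (m * (p - 1)) × Fin (p ^ L.m) × Fin p × Fin p,
          (bil L.M x (L.a (χ (e z.1)) z.2.1 z.2.2.1) - bil L.M x (L.a (χ (e z.1)) z.2.1 z.2.2.2)) ^ 2 :=
        Finset.sum_congr rfl fun z _ => by rw [hy]; simp only [LatZ_bil_sub]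
      rw [e2, e1]
      refine (hcov x).trans (le_of_eq ?_)
      push_cast
      rw [hp1]) h6
    have e1 := hsum (fun i r t t' => bil L.M (L.a (χ (e i)) r t - L.a (χ (e i)) r t')
      (L.a (χ (e i)) r t - L.a (χ (e i)) r t'))
    rw [← e1] at h
    have h3 := h.trans htr
    have h5 : 2 * ((p : ℤ) - 1) * (((p : ℤ) + 1) * ((m * (p - 1) : ℕ) : ℤ)) ≤
        2 * ((p : ℤ) - 1) * (((f * l : ℕ)) : ℤ) := by
      refine h3.trans (le_of_eq ?_)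
      push_cast
      rw [hp1]
      ring
    have hpos : (0 : ℤ) < 2 * ((p : ℤ) - 1) := by
      have : (2 : ℤ) ≤ p := by exact_mod_cast hp2
      linarith
    have h7 := le_of_mul_le_mul_left h5 hpos
    exact_mod_cast h7

end Pool.Agent.KBR
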