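import Mathlib

/-! The elements of `P ∖ ⟨u⟩`, `P = ⟨u, w⟩`. -/

namespace Pool.Agent.KBR

/-- powers of `w` prime to `p` do not lie in `zpowers u` -/
private theorem ps_not_mem {K : Type} [Group K] {p : ℕ} (hp : p.Prime) {u w : K}
    (hwu : w ∉ Subgroup.zpowers u) (hwp : w ^ p ∈ Subgroup.zpowers u) {k : ℕ} (hk : ¬ p ∣ k) :
    w ^ k ∉ Subgroup.zpowers u := by
  intro h
  apply hwu
  have hc : IsCoprime (k : ℤ) (p : ℤ) := by
    rw [Nat.isCoprime_iff_coprime]
    exact ((Nat.Prime.coprime_iff_not_dvd hp).2 hk).symm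
  obtain ⟨a, b, hab⟩ := hc
  have h1 : w = (w ^ k) ^ a * (w ^ p) ^ b := by
    rw [← zpow_natCast w k, ← zpow_natCast w p, ← zpow_mul, ← zpow_mul, ← zpow_add]
    have : (k : ℤ) * a + (p : ℤ) * b = 1 := by linarith
    rw [this, zpow_one]
  rw [h1]
  exact mul_mem (zpow_mem h a) (zpow_mem hwp b)

private theorem ps_inj {K : Type} [Group K] {p : ℕ} (hp : p.Prime) {u w : K}
    (hwu : w ∉ Subgroup.zpowers u) (hwp : w ^ p ∈ Subgroup.zpowers u)
    {j j' : ℕ} (hj : j < p) (hj' : j' < p) {a a' : K} (ha : a ∈ Subgroup.zpowers u)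
    (ha' : a' ∈ Subgroup.zpowers u) (h : a * w ^ j = a' * w ^ j') : j = j' ∧ a = a' := by
  have key : ∀ {j j' : ℕ} {a a' : K}, j < j' → j' < p → a ∈ Subgroup.zpowers u →
      a' ∈ Subgroup.zpowers u → a * w ^ j = a' * w ^ j' → False := by
    intro j j' a a' hlt hj' ha ha' h
    have h1 : w ^ (j' - j) = a'⁻¹ * a := by
      have h2 : w ^ j' = w ^ (j' - j) * w ^ j := by
        rw [← pow_add, Nat.sub_add_cancel hlt.le]
      rw [h2, ← mul_assoc] at h
      have h3 := mul_right_cancel h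
      rw [h3, inv_mul_cancel_left]
    refine ps_not_mem hp hwu hwp (k := j' - j) ?_ ?_
    · intro hd
      have := Nat.le_of_dvd (by omega) hd
      omega
    · rw [h1]
      exact mul_mem (inv_mem ha') ha
  rcases lt_trichotomy j j' with h1 | h1 | h1
  · exact (key h1 hj' ha ha' h).elim
  · subst h1
    exact ⟨rfl, mul_right_cancel h⟩
  · exact (key h1 hj ha' ha h.symm).elim

/-- MODULE PS1. PROOF: `P` = the set of the `u ^ i * w ^ j` (a subgroup, `u` is central), `|P| = p * orderOf u` (`w ^ p ∈ zpowers u`,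
`w ∉ zpowers u`, so the powers `w ^ j`, `0 ≤ j < p`, represent the cosets of `zpowers u` in `P`). `S = P ∖ zpowers u`: `(p - 1) * orderOf u` elements. An
element of `S` is `x = u ^ i * w ^ j` with `0 < j < p`. Powers of `w` and `w ^ j` centralize the same elements: the order of
`w` is a power of `p` (`hD`) and `p ∤ j`, so `w` is a power of `w ^ j` (`exists_pow_eq_self_of_coprime`). The order of `x ∈ D`, `x ≠ 1`, is
`p ^ (t + 1)`. -/
theorem PS_main {K : Type} [Group K] [Finite K] (p : ℕ) (hp : p.Prime) (D : Subgroup K)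
    (hD : IsPGroup p D) (u w : K) (hu : u ∈ D) (hw : w ∈ D) (huc : ∀ g : K, g * u = u * g)
    (hwu : w ∉ Subgroup.zpowers u) (hwp : w ^ p ∈ Subgroup.zpowers u) :
    ∃ S : Finset K, S.card = (p - 1) * orderOf u ∧ ∀ x ∈ S, x ∈ D ∧ x ≠ 1 ∧
      (∃ (i : ℤ) (j : ℕ), ¬ p ∣ j ∧ x = u ^ i * w ^ j) ∧ (∀ g : K, g * x = x * g ↔ g * w = w * g) ∧
      ∃ t, orderOf x = p ^ (t + 1) := by
  classical
  haveI := Fintype.ofFinite K
  have _ : Fact p.Prime := ⟨hp⟩
  let A : Finset K := Finset.univ.filter (fun a => a ∈ Subgroup.zpowers u)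
  have hA : A.card = orderOf u := by
    rw [← Nat.card_zpowers u]
    have e : A.card = Fintype.card {a // a ∈ Subgroup.zpowers u} := by
      rw [Fintype.card_subtype]
    rw [e, ← Nat.card_eq_fintype_card]
  have hmem : ∀ a, a ∈ A ↔ a ∈ Subgroup.zpowers u := by
    intro a
    simp [A]
  refine ⟨(Finset.Ico 1 p ×ˢ A).image (fun q => q.2 * w ^ q.1), ?_, ?_⟩
  · rw [Finset.card_image_of_injOn, Finset.card_product, Nat.card_Ico, hA]
    rintro ⟨j, a⟩ hja ⟨j', a'⟩ hja' h
    rw [Finset.mem_coe, Finset.mem_product, Finset.mem_Ico] at hja hja'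
    have := ps_inj hp hwu hwp hja.1.2 hja'.1.2 ((hmem _).1 hja.2) ((hmem _).1 hja'.2) h
    exact Prod.ext this.1 this.2
  · intro x hx
    rw [Finset.mem_image] at hx
    obtain ⟨⟨j, a⟩, hja, rfl⟩ := hx
    rw [Finset.mem_product, Finset.mem_Ico] at hja
    obtain ⟨⟨hj1, hj2⟩, ha⟩ := hja
    have ha' := (hmem _).1 ha
    obtain ⟨i, rfl⟩ := Subgroup.mem_zpowers_iff.1 ha'
    have hpj : ¬ p ∣ j := fun hd => by
      have := Nat.le_of_dvd (by omega) hd
      omega
    have hxD : u ^ i * w ^ j ∈ D := mul_mem (zpow_mem hu i) (pow_mem hw j)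
    have hx1 : u ^ i * w ^ j ≠ 1 := by
      intro h
      apply ps_not_mem hp hwu hwp hpj
      have : w ^ j = (u ^ i)⁻¹ := by
        rw [eq_inv_iff_mul_eq_one]
        have hc : w ^ j * u ^ i = u ^ i * w ^ j := by
          have hcm : Commute (w ^ j) u := huc (w ^ j)
          exact (hcm.zpow_right i).eq
        rw [hc, h]
      rw [this]
      exact inv_mem ha'
    refine ⟨hxD, hx1, ⟨i, j, hpj, rfl⟩, ?_, ?_⟩
    · intro g
      have hcu : g * u ^ i = u ^ i * g := by
        have hcm : Commute g u := huc g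
        exact (hcm.zpow_right i).eq
      have hco : j.Coprime (orderOf w) := by
        obtain ⟨k, hk⟩ := (IsPGroup.iff_orderOf.1 hD) ⟨w, hw⟩
        rw [Subgroup.orderOf_mk] at hk
        rw [hk]
        exact Nat.Coprime.pow_right k ((Nat.Prime.coprime_iff_not_dvd hp).2 hpj).symm
      constructor
      · intro h
        have h1 : g * w ^ j = w ^ j * g := by
          have h2 : u ^ i * (g * w ^ j) = u ^ i * (w ^ j * g) := by
            rw [← mul_assoc, ← hcu, mul_assoc, h, mul_assoc]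
          exact mul_left_cancel h2
        obtain ⟨m, hm⟩ := exists_pow_eq_self_of_coprime hco
        have hcm : Commute g (w ^ j) := h1
        have := hcm.pow_right m
        rw [hm] at this
        exact this
      · intro h
        have hcm : Commute g w := h
        have h1 : g * w ^ j = w ^ j * g := (hcm.pow_right j).eq
        rw [← mul_assoc, hcu, mul_assoc, h1, mul_assoc]
    · obtain ⟨k, hk⟩ := (IsPGroup.iff_orderOf.1 hD) ⟨u ^ i * w ^ j, hxD⟩
      rw [Subgroup.orderOf_mk] at hk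
      cases k with
      | zero =>
        rw [pow_zero, orderOf_eq_one_iff] at hk
        exact absurd hk hx1
      | succ t => exact ⟨t, hk⟩

/-- MODULE PS2. Two elements of `S` which are conjugate by `n`. PROOF: `x = u ^ i * w ^ j`, `x' = u ^ i' * w ^ j'`, `p ∤ j`. `n x n⁻¹ = u ^ i * (n w n⁻¹) ^ j = x'`, so
`(n w n⁻¹) ^ j ∈ P = {u ^ a * w ^ b}`; `n w n⁻¹` has `p`-power order, so it is a power of `(n w n⁻¹) ^ j` and lies in `P`:
`n w n⁻¹ = u ^ a * w ^ b`; `hG` gives `n w = w n`, so `n x = x n` and `x = x'`. -/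
theorem PS_conj {K : Type} [Group K] [Finite K] (p : ℕ) (hp : p.Prime) (D : Subgroup K)
    (hD : IsPGroup p D) (u w : K) (hu : u ∈ D) (hw : w ∈ D) (huc : ∀ g : K, g * u = u * g)
    (n : K) (hG : ∀ i j : ℤ, n * w * n⁻¹ = u ^ i * w ^ j → n * w = w * n) (i i' : ℤ) (j j' : ℕ)
    (hj : ¬ p ∣ j) (h : n * (u ^ i * w ^ j) * n⁻¹ = u ^ i' * w ^ j') :
    u ^ i * w ^ j = u ^ i' * w ^ j' := by
  have _ : Fact p.Prime := ⟨hp⟩
  have hcn : ∀ (g : K) (a : ℤ), g * u ^ a = u ^ a * g := fun g a => by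
    have hcm : Commute g u := huc g
    exact (hcm.zpow_right a).eq
  -- `z = n w n⁻¹`
  have hz : (n * w * n⁻¹) ^ j = u ^ (i' - i) * w ^ (j' : ℤ) := by
    have h1 : n * (u ^ i * w ^ j) * n⁻¹ = u ^ i * (n * w * n⁻¹) ^ j := by
      rw [conj_pow, ← mul_assoc n, hcn n i, mul_assoc (u ^ i), mul_assoc (u ^ i)]
    rw [h1] at h
    have h2 : (n * w * n⁻¹) ^ j = (u ^ i)⁻¹ * (u ^ i' * w ^ j') := by
      rw [← h, inv_mul_cancel_left]
    rw [h2, ← mul_assoc, ← zpow_neg, ← zpow_add, zpow_natCast]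
    congr 2
    ring
  have hco : j.Coprime (orderOf (n * w * n⁻¹)) := by
    obtain ⟨k, hk⟩ := (IsPGroup.iff_orderOf.1 hD) ⟨w, hw⟩
    rw [Subgroup.orderOf_mk] at hk
    have ho : orderOf (n * w * n⁻¹) = orderOf w := by
      have := orderOf_injective (MulAut.conj n).toMonoidHom (MulAut.conj n).injective w
      simpa using this
    rw [ho, hk]
    exact Nat.Coprime.pow_right k ((Nat.Prime.coprime_iff_not_dvd hp).2 hj).symm
  obtain ⟨m, hm⟩ := exists_pow_eq_self_of_coprime hco
  have hz2 : n * w * n⁻¹ = u ^ ((i' - i) * m) * w ^ ((j' : ℤ) * m) := by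
    rw [← hm, hz]
    have hcm : Commute (u ^ (i' - i)) (w ^ (j' : ℤ)) := (hcn (w ^ (j' : ℤ)) (i' - i)).symm
    rw [hcm.mul_pow, zpow_mul, zpow_mul, zpow_natCast, zpow_natCast, zpow_natCast]
  have hnw := hG _ _ hz2
  have hcm : Commute n w := hnw
  have h1 : n * (u ^ i * w ^ j) = (u ^ i * w ^ j) * n := by
    rw [← mul_assoc, hcn, mul_assoc, (hcm.pow_right j).eq, mul_assoc]
  rw [h1, mul_inv_cancel_right] at h
  exact h

/-- MODULE PS3. PROOF: `P` = the set of the `u ^ i * w ^ j` as in `PS_main`; `|P| = p * p ^ s`. -/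
theorem PS_cen {C : Type} [Group C] [Finite C] (p : ℕ) (hp : p.Prime) (u w : C) (s : ℕ)
    (hu : orderOf u = p ^ s) (huc : ∀ y : C, y * u = u * y) (hwc : ∀ y : C, y * w = w * y)
    (hwu : w ∉ Subgroup.zpowers u) (hwp : w ^ p ∈ Subgroup.zpowers u) :
    ∃ P : Subgroup C, Nat.card P = p ^ (s + 1) ∧ ∀ x ∈ P, ∀ y : C, y * x = x * y := by
  classical
  haveI := Fintype.ofFinite C
  have hcu : ∀ (g : C) (a : ℤ), g * u ^ a = u ^ a * g := fun g a => by
    have hcm : Commute g u := huc g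
    exact (hcm.zpow_right a).eq
  have hcw : ∀ (g : C) (a : ℤ), g * w ^ a = w ^ a * g := fun g a => by
    have hcm : Commute g w := hwc g
    exact (hcm.zpow_right a).eq
  let P : Subgroup C :=
    { carrier := {x | ∃ i j : ℤ, x = u ^ i * w ^ j}
      mul_mem' := by
        rintro _ _ ⟨i, j, rfl⟩ ⟨i', j', rfl⟩
        refine ⟨i + i', j + j', ?_⟩
        rw [zpow_add, zpow_add, mul_assoc, ← mul_assoc (w ^ j), hcu (w ^ j) i', mul_assoc, mul_assoc]
      one_mem' := ⟨0, 0, by simp⟩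
      inv_mem' := by
        rintro _ ⟨i, j, rfl⟩
        refine ⟨-i, -j, ?_⟩
        rw [mul_inv_rev, zpow_neg, zpow_neg]
        have := hcw ((u ^ i)⁻¹) (-j)
        rw [zpow_neg] at this
        exact this.symm }
  have hmemP : ∀ x, x ∈ P ↔ ∃ i j : ℤ, x = u ^ i * w ^ j := fun x => Iff.rfl
  refine ⟨P, ?_, ?_⟩
  · let A : Finset C := Finset.univ.filter (fun a => a ∈ Subgroup.zpowers u)
    have hA : A.card = orderOf u := by
      rw [← Nat.card_zpowers u]
      have e : A.card = Fintype.card {a // a ∈ Subgroup.zpowers u} := by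
        rw [Fintype.card_subtype]
      rw [e, ← Nat.card_eq_fintype_card]
    have hmem : ∀ a, a ∈ A ↔ a ∈ Subgroup.zpowers u := by
      intro a
      simp [A]
    have hP : (Finset.univ.filter (fun x => x ∈ P)) =
        (Finset.range p ×ˢ A).image (fun q => q.2 * w ^ q.1) := by
      ext x
      rw [Finset.mem_filter, Finset.mem_image]
      constructor
      · rintro ⟨_, hx⟩
        obtain ⟨i, j, rfl⟩ := (hmemP x).1 hx
        have hp0 : (p : ℤ) ≠ 0 := by exact_mod_cast hp.ne_zero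
        have hr0 := Int.emod_nonneg j hp0
        have hr1 := Int.emod_lt_of_pos j (by exact_mod_cast hp.pos : (0 : ℤ) < p)
        refine ⟨((j % p).toNat, u ^ i * (w ^ p) ^ (j / p)), ?_, ?_⟩
        · rw [Finset.mem_product, Finset.mem_range]
          refine ⟨by omega, ?_⟩
          rw [hmem]
          exact mul_mem (zpow_mem (Subgroup.mem_zpowers u) i) (zpow_mem hwp _)
        · simp only
          rw [mul_assoc, ← zpow_natCast w p, ← zpow_mul, ← zpow_natCast w (j % p).toNat,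
            Int.toNat_of_nonneg hr0, ← zpow_add]
          congr 2
          have := Int.emod_add_mul_ediv j p
          linarith
      · rintro ⟨⟨j, a⟩, hja, rfl⟩
        rw [Finset.mem_product, Finset.mem_range] at hja
        refine ⟨Finset.mem_univ _, ?_⟩
        obtain ⟨i, hi⟩ := Subgroup.mem_zpowers_iff.1 ((hmem _).1 hja.2)
        rw [hmemP]
        refine ⟨i, (j : ℤ), ?_⟩
        rw [hi, zpow_natCast]
    have hcard : Nat.card P = (Finset.univ.filter (fun x => x ∈ P)).card := by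
      rw [Nat.card_eq_fintype_card, Fintype.card_subtype]
    rw [hcard, hP, Finset.card_image_of_injOn, Finset.card_product, Finset.card_range, hA, hu,
      pow_succ, mul_comm]
    rintro ⟨j, a⟩ hja ⟨j', a'⟩ hja' h
    rw [Finset.mem_coe, Finset.mem_product, Finset.mem_range] at hja hja'
    have := ps_inj hp hwu hwp hja.1 hja'.1 ((hmem _).1 hja.2) ((hmem _).1 hja'.2) h
    exact Prod.ext this.1 this.2
  · intro x hx y
    obtain ⟨i, j, rfl⟩ := (hmemP x).1 hx
    rw [← mul_assoc, hcu, mul_assoc, hcw, mul_assoc]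

end Pool.Agent.KBR
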