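import Pool.Agent.KBQ.Fin
import Pool.Agent.KBR.CenP
import Pool.Agent.KBR.FixIc
import Pool.Agent.KBR.Ker
import Pool.Agent.KBR.BesP
import Pool.Agent.KBR.LatR
import Pool.Agent.KBR.Fu
import Pool.Agent.KBR.PS
import Pool.Agent.KBR.GCnv

/-! `l(b) ≤ p + 1` for a central `u` with `|D : ⟨u⟩| = p ^ 2` and a good flag. -/

namespace Pool.Agent.KBR

open Pool.Agent.KB Pool.Agent.KB.ContrAux Pool.Agent.KBL Pool.Agent.KBZ Pool.Agent.KBU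
  Pool.Agent.KBQ

/-- MODULE RAT1. The `J`-fixed characters. `u` is central. PROOF: `FixI_main` (`J` from `J_ex` for `N = |K|`); its hypothesis `hns` by
`Fu_main`, whose `hS` is `Cnv_J` for `N = Stb 𝔪 hA.cen ζ`, `C = ι.range` (hypotheses as in `Fin_index` in `KBQ/Fin.lean`: `Fin_nrm`, `Abl_range`, `Fin_com`, `Fin_cc`,
`LemV_main`, `|ι.range| = |H|`). `hF`: `|D| = p ^ 2 * orderOf u ≥ 9`. -/
theorem Rat_fix {K H : Type} [Group K] [Fintype K] [Group H] [Fintype H] (p : ℕ)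
    (hp : p.Prime) (hp2 : p ≠ 2) (𝔪 : Ideal AInt) (h𝔪 : 𝔪.IsMaximal) (hp𝔪 : (p : AInt) ∈ 𝔪)
    (χ : K → ℂ) (hχ : χ ∈ Irr K) (D : Subgroup K) (ι : H →* K) (ζ : H → ℂ)
    (hA : AbD p 𝔪 χ D ι ζ) (u : K) (hu : u ∈ D) (huc : ∀ g : K, g * u = u * g)
    (hcard : Nat.card D = p ^ 2 * orderOf u) (hexp : ∀ z ∈ D, z ^ p ∈ Subgroup.zpowers u)
    (hG : ∀ n ∈ Stb 𝔪 hA.cen ζ, ∀ μ : ℕ,
      (∀ x ∈ D, n * x * n⁻¹ * (x ^ μ)⁻¹ ∈ Subgroup.zpowers u) → n ∈ ι.range)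
    (J : ℕ) (hJc : Nat.Coprime J (Nat.card K))
    (hJ1 : J ≡ 1 [MOD Nat.card K / p ^ padicValNat p (Nat.card K)]) (hJp : ¬ p ∣ J)
    (hJo : ∀ s, J ^ s ≡ 1 [MOD p] → (p - 1) ∣ s) :
    ∃ R : Finset (K → ℂ), (∀ ψ ∈ R, ψ ∈ block 𝔪 χ ∧ ∀ g, ψ (g ^ J) = ψ g) ∧
      ell p (block 𝔪 χ) ≤ R.card := by
  have hcr : Nat.card ι.range = Nat.card H :=
    Nat.card_congr (MonoidHom.ofInjective hA.cen.inj).toEquiv.symm
  have hF : 7 ≤ p ^ defect p (block 𝔪 χ) := by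
    rw [← hA.card, hcard]
    have h2 := hp.two_le
    have h3 : 3 ≤ p := by omega
    have h4 : 0 < orderOf u := orderOf_pos u
    nlinarith
  apply FixI_main p hp 𝔪 h𝔪 hp𝔪 χ hχ J hJc hJp hJ1
  intro w n hw hw1 C _ _ ι' hι' hr ψ hψ hind h hh hcj
  refine Fu_main p hp hp2 𝔪 h𝔪 hp𝔪 χ hχ D ι ζ hA hF J hJp ?_ w n hw hw1 ι' hι' hr ψ hψ hind h hh
    hcj
  intro n' hn' w₁ hw₁ hw₁1 hnw g hg hgw
  refine Cnv_J p hp hp2 D (Stb 𝔪 hA.cen ζ) ι.range hA.pg hA.com (Fin_nrm 𝔪 hA.cen ζ)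
    (Abl_range 𝔪 D ι hA.cen ζ hA.irr) (Fin_com hA.cen) (Fin_cc 𝔪 hA.cen ζ) ?_ u hu
    (fun n _ => huc n) hcard hexp hG J hJp hJo n' hn' w₁ hw₁ hw₁1 hnw g hg hgw
  rw [hcr]
  exact LemV_main p hp 𝔪 h𝔪 hp𝔪 χ hχ D ι ζ hA D hA.pg ι hA.cen ζ hA.irr hA.ind

/-- MODULE RAT2. The key lemma. PROOF: `J` from `J_ex` for `N = |K|`; `R` from `Rat_fix`; `m = |R|`, `χs : Fin m → K → ℂ` injective with range `R`
(see `LX_core`). `S` from `PS_main`. `C = Subgroup.centralizer {w}`, `Bw_ex`, `Bw_main` (as in `LX_core`): `κ`, `ψ ∈ Irr C`, `Ind 𝔪 C.subtype ψ χ`, `defect ψ = defect χ`.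
`L₀` from `MkLoc_main` for `w`. RATIONALITY: `J_rat`: `χs a (w ^ j * y) = χs a (w * y)` for `p ∤ j`. For `x = u ^ i * w ^ j ∈ S` and
`y ∈ C` `p`-regular: `χs a (x * y) = χs a (w ^ j * y) = χs a (w * y)` (`Ker_main` for the central element `u ^ i`). NOT CONJUGATE: if
`x, x' ∈ S`, `x ≠ x'`, `k * x * k⁻¹ = x'`, `Cj 𝔪 k C.subtype ψ C.subtype ψ`: `Fus_main` for `x`, `x' ∈ D` (their centralizer is `C`, same `κ`, `ψ`) gives
`n ∈ Stb 𝔪 hA.cen ζ`, `n * x * n⁻¹ = x'`; `PS_conj` (`hG2`): `x = x'`. `BesP_main`: for all `Y` with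
`H 1 = bil (Y a) x`: `(p - 1) * orderOf u * ∑ a (bil (Y a) x) ^ 2 ≤ p ^ d * bil x x` and `p ^ d = |D| = p ^ 2 * orderOf u`; divide by `orderOf u`: this is
`hB` of `LatR_main` for `f = p ^ 2`. `LatR_main`: `m (p - 1) ≤ p ^ 2`, so `m ≤ p + 1` (`p ≥ 3`: `(p + 2) (p - 1) = p ^ 2 + p - 2 > p ^ 2`); or
`(p + 1) (m (p - 1)) ≤ p ^ 2 * ell ψ`, and `ell ψ + 1 ≤ p` (`CenP_one` in `C` for the `P` of `PS_cen`, `orderOf u = p ^ s`, `d = s + 2`), so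
`(p + 1) m ≤ p ^ 2` and `m < p`. -/
theorem Rat_main {K H : Type} [Group K] [Fintype K] [Group H] [Fintype H] (p : ℕ)
    (hp : p.Prime) (hp2 : p ≠ 2) (𝔪 : Ideal AInt) (h𝔪 : 𝔪.IsMaximal) (hp𝔪 : (p : AInt) ∈ 𝔪)
    (χ : K → ℂ) (hχ : χ ∈ Irr K) (D : Subgroup K) (ι : H →* K) (ζ : H → ℂ)
    (hA : AbD p 𝔪 χ D ι ζ) (u w : K) (hu : u ∈ D) (hw : w ∈ D) (huc : ∀ g : K, g * u = u * g)
    (hcard : Nat.card D = p ^ 2 * orderOf u) (hexp : ∀ z ∈ D, z ^ p ∈ Subgroup.zpowers u)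
    (hwu : w ∉ Subgroup.zpowers u)
    (hG : ∀ n ∈ Stb 𝔪 hA.cen ζ, ∀ μ : ℕ,
      (∀ x ∈ D, n * x * n⁻¹ * (x ^ μ)⁻¹ ∈ Subgroup.zpowers u) → n ∈ ι.range)
    (hG2 : ∀ n ∈ Stb 𝔪 hA.cen ζ, ∀ i j : ℤ, n * w * n⁻¹ = u ^ i * w ^ j → n * w = w * n) :
    ell p (block 𝔪 χ) ≤ p + 1 := by
  classical
  have hwp := hexp w hw
  have hp3 : 3 ≤ p := by
    have := hp.two_le
    omega
  obtain ⟨J, hJc, hJ1, hJp, hJ2, hJo⟩ := J_ex p hp hp2 (Nat.card K) Nat.card_pos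
  obtain ⟨R, hR, hRc⟩ := Rat_fix p hp hp2 𝔪 h𝔪 hp𝔪 χ hχ D ι ζ hA u hu huc hcard hexp hG J hJc hJ1
    hJp hJo
  refine hRc.trans ?_
  obtain ⟨m, hm⟩ : ∃ m, m = R.card := ⟨_, rfl⟩
  rw [← hm]
  obtain ⟨χs, hχi, hχR⟩ : ∃ χs : Fin m → K → ℂ, Function.Injective χs ∧ ∀ a, χs a ∈ R := by
    refine ⟨fun a => ((R.equivFinOfCardEq hm.symm).symm a).1, ?_, ?_⟩
    · intro a b hab
      exact (R.equivFinOfCardEq hm.symm).symm.injective (Subtype.ext hab)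
    · intro a
      exact ((R.equivFinOfCardEq hm.symm).symm a).2
  have hχb : ∀ a, χs a ∈ block 𝔪 χ := fun a => (hR _ (hχR a)).1
  have hχI : ∀ a, χs a ∈ Irr K := fun a => (hχb a).1
  -- the order of `u` and `w`
  have hpow : ∀ z ∈ D, ∃ n, z ^ (p ^ n) = 1 := by
    intro z hz
    obtain ⟨n, hn⟩ := hA.pg ⟨z, hz⟩
    exact ⟨n, by simpa using congrArg Subtype.val hn⟩
  obtain ⟨s, hs⟩ : ∃ s, orderOf u = p ^ s := by
    obtain ⟨n, hn⟩ := hpow u hu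
    obtain ⟨t, -, ht⟩ := (Nat.dvd_prime_pow hp).mp (orderOf_dvd_of_pow_eq_one hn)
    exact ⟨t, ht⟩
  have hd : defect p (block 𝔪 χ) = s + 2 := by
    have h1 := hA.card
    rw [hcard, hs, ← pow_add] at h1
    have h2 := Nat.pow_right_injective hp.two_le h1
    omega
  -- the centralizer of `w`
  obtain ⟨S, hSc, hS⟩ := PS_main p hp D hA.pg u w hu hw huc hwu hwp
  let C : Subgroup K := Subgroup.centralizer {w}
  have hmemC : ∀ x : K, x ∈ C ↔ x * w = w * x := by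
    intro x
    rw [Subgroup.mem_centralizer_singleton_iff]
  have hr : ∀ x : K, (∃ y, C.subtype y = x) ↔ w * x = x * w := by
    intro x
    rw [eq_comm (a := w * x), ← hmemC]
    exact ⟨fun ⟨y, hy⟩ => hy ▸ y.2, fun hx => ⟨⟨x, hx⟩, rfl⟩⟩
  obtain ⟨κ, ψ, hκ, hψ, hindκ⟩ := Bw_ex p hp 𝔪 h𝔪 hp𝔪 χ D ι ζ hA w hw C.subtype
    C.subtype_injective hr
  obtain ⟨hInd, hdef, hB⟩ := Bw_main p hp 𝔪 h𝔪 hp𝔪 χ hχ D ι ζ hA w hw C.subtype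
    C.subtype_injective hr κ hκ ψ hψ hindκ
  obtain ⟨n₀, hn₀⟩ := hpow w hw
  obtain ⟨t₀, ht₀⟩ : ∃ t, orderOf w = p ^ (t + 1) := by
    obtain ⟨t, -, ht⟩ := (Nat.dvd_prime_pow hp).mp (orderOf_dvd_of_pow_eq_one hn₀)
    rcases Nat.eq_zero_or_pos t with h0 | h0
    · exfalso
      rw [h0, pow_zero, orderOf_eq_one_iff] at ht
      apply hwu
      rw [ht]
      exact Subgroup.one_mem _
    · exact ⟨t - 1, by rw [ht]; congr 1; omega⟩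
  obtain ⟨L⟩ := MkLoc_main p hp 𝔪 h𝔪 hp𝔪 w t₀ ht₀ C hmemC ψ hψ
  -- rationality
  have hrat : ∀ (a : Fin m), ∀ j : ℕ, ¬ p ∣ j → ∀ y : C, ¬ p ∣ orderOf y →
      χs a (w ^ j * (y : K)) = χs a (w * (y : K)) := by
    intro a j hj y hy
    refine J_rat p hp J hJ1 hJ2 (χs a) (hR _ (hχR a)).2 w (y : K) n₀ hn₀ ?_ ?_ j hj
    · rw [Subgroup.orderOf_coe]
      exact hy
    · exact ((hmemC _).1 y.2).symm
  have hker : ∀ (a : Fin m) (i : ℤ) (g : K), χs a (u ^ i * g) = χs a g := by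
    intro a i g
    obtain ⟨n, hn⟩ := hpow (u ^ i) (D.zpow_mem hu i)
    exact Ker_main p hp hp2 J hJp hJo (u ^ i) n hn
      (fun g => (show Commute g u from huc g).zpow_right i) (χs a) (hχI a) (hR _ (hχR a)).2 g
  have hval : ∀ x ∈ S, ∀ a, ∀ y : C, ¬ p ∣ orderOf y →
      χs a (x * (y : K)) = χs a (w * (y : K)) := by
    intro x hx a y hy
    obtain ⟨-, -, ⟨i, j, hj, rfl⟩, -, -⟩ := hS x hx
    rw [mul_assoc, hker, hrat a j hj y hy]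
  have hSC : ∀ x ∈ S, ∀ g : K, g ∈ C ↔ g * x = x * g := by
    intro x hx g
    rw [hmemC, (hS x hx).2.2.2.1 g]
  have hrS : ∀ x ∈ S, ∀ g : K, (∃ y, C.subtype y = g) ↔ x * g = g * x := by
    intro x hx g
    rw [hr, eq_comm, ← (hS x hx).2.2.2.1 g, eq_comm]
  have hnc : ∀ x ∈ S, ∀ x' ∈ S, x ≠ x' → ∀ k : K, k * x * k⁻¹ = x' →
      ¬ Cj 𝔪 k C.subtype ψ C.subtype ψ := by
    intro x hx x' hx' hne k hk hcj
    obtain ⟨n, hn, hn2⟩ := Fus_main p hp 𝔪 h𝔪 hp𝔪 χ hχ D ι ζ hA x x' (hS x hx).1 (hS x' hx').1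
      C.subtype C.subtype_injective (hrS x hx) C.subtype C.subtype_injective (hrS x' hx')
      κ hκ κ hκ ψ hψ ψ hψ hindκ hindκ k hk hcj
    obtain ⟨-, -, ⟨i, j, hj, rfl⟩, -, -⟩ := hS x hx
    obtain ⟨-, -, ⟨i', j', hj', rfl⟩, -, -⟩ := hS x' hx'
    exact hne (PS_conj p hp D hA.pg u w hu hw huc n (hG2 n hn) i i' j j' hj hn2)
  -- the Bessel inequality
  have hBes : ∀ Y : Fin m → Fin L.K → ℤ, (∀ a x, L.H 1 (χs a) x = ((bil L.M (Y a) x : ℤ) : ℂ)) →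
      ∀ x : Fin L.K → ℤ,
        ((p : ℤ) - 1) * ∑ a, bil L.M (Y a) x ^ 2 ≤ ((p ^ 2 : ℕ) : ℤ) * bil L.M x x := by
    intro Y hY x
    have h1 := BesP_main p hp 𝔪 h𝔪 hp𝔪 w C ψ hψ L S (fun x hx => (hS x hx).2.2.2.2) hSC hnc χs hχi
      hχI hval Y hY x
    rw [hSc, hdef, hd, hs] at h1
    have hps : (0 : ℤ) < (p : ℤ) ^ s := by
      have : (0 : ℤ) < p := by exact_mod_cast hp.pos
      positivity
    have hp1 : ((p - 1 : ℕ) : ℤ) = (p : ℤ) - 1 := by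
      rw [Nat.cast_sub (by omega)]
      simp
    push_cast [hp1] at h1 ⊢
    rw [pow_add] at h1
    have h2 : (p : ℤ) ^ s * (((p : ℤ) - 1) * ∑ a, bil L.M (Y a) x ^ 2) ≤
        (p : ℤ) ^ s * ((p : ℤ) ^ 2 * bil L.M x x) := by
      linarith
    exact le_of_mul_le_mul_left h2 hps
  -- `l(ψ) ≤ p - 1`
  have hell : ell p (block 𝔪 ψ) + 1 ≤ p := by
    have huC : u ∈ C := (hmemC u).2 (huc w).symm
    have hwC : w ∈ C := (hmemC w).2 rfl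
    obtain ⟨P, hP, hPc⟩ := PS_cen (C := C) p hp ⟨u, huC⟩ ⟨w, hwC⟩ s
      (by rw [← hs, ← Subgroup.orderOf_coe]) (fun y => Subtype.ext (huc y))
      (fun y => Subtype.ext ((hmemC _).1 y.2)) (by
        intro h
        apply hwu
        obtain ⟨k, hk⟩ := Subgroup.mem_zpowers_iff.1 h
        exact Subgroup.mem_zpowers_iff.2 ⟨k, by simpa using congrArg Subtype.val hk⟩) (by
        obtain ⟨k, hk⟩ := Subgroup.mem_zpowers_iff.1 hwp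
        exact Subgroup.mem_zpowers_iff.2 ⟨k, Subtype.ext (by simpa using hk)⟩)
    refine CenP_one p hp 𝔪 h𝔪 hp𝔪 P (s + 1) hP hPc ψ hψ ?_
    rw [hdef, hd]
  rcases LatR_main L χ hχ hInd hdef χs hχb hrat (p ^ 2) hBes with h | h
  · by_contra hcon
    have h1 : (p + 2) * (p - 1) ≤ m * (p - 1) := Nat.mul_le_mul_right _ (by omega)
    obtain ⟨q, rfl⟩ : ∃ q, p = q + 1 := ⟨p - 1, by omega⟩
    simp only [Nat.add_sub_cancel] at h h1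
    nlinarith
  · have h1 : p ^ 2 * ell p (block 𝔪 ψ) ≤ p ^ 2 * (p - 1) := Nat.mul_le_mul_left _ (by omega)
    have h2 : (p - 1) * ((p + 1) * m) ≤ (p - 1) * p ^ 2 := by
      calc (p - 1) * ((p + 1) * m) = (p + 1) * (m * (p - 1)) := by ring
        _ ≤ p ^ 2 * (p - 1) := h.trans h1
        _ = (p - 1) * p ^ 2 := by ring
    have h3 := Nat.le_of_mul_le_mul_left h2 (by omega)
    by_contra hcon
    have h4 : (p + 1) * (p + 2) ≤ (p + 1) * m := Nat.mul_le_mul_left _ (by omega)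
    nlinarith


end Pool.Agent.KBR
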