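import Pool.Agent.KBQ.LY
import Pool.Agent.KBQ.Sub
import Pool.Agent.KBQ.Fin
import Pool.Agent.KBZ.MainZ
import Pool.Agent.KBR.Rat

/-! Brauer's inequality for abelian defect groups of rank at most three. -/

namespace Pool.Agent.KBR

open Pool.Agent.KB Pool.Agent.KB.ContrAux Pool.Agent.KBL Pool.Agent.KBZ Pool.Agent.KBU
  Pool.Agent.KBQ

open Classical in
/-- MODULE FIN1. The end: it is enough that `ell p (block 𝔪 ψ) ≤ p + 1` for the block `ψ` of the centralizer of some `u ∈ D`. PROOF: as in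
`KX_main` (`KBQ/KX.lean`): `C = Subgroup.centralizer {u}`; `Bw_ex`, `Bw_main` give `κ`, `ψ`, `AbD p 𝔪 ψ (D.comap C.subtype) κ ζ`, apply `h`; `MainZ_main`. -/
theorem Fin3_end {G H : Type} [Group G] [Fintype G] [Group H] [Fintype H] (p : ℕ)
    (hp : p.Prime) (𝔪 : Ideal AInt) (h𝔪 : 𝔪.IsMaximal) (hp𝔪 : (p : AInt) ∈ 𝔪) (χ : G → ℂ)
    (hχ : χ ∈ Irr G) (D : Subgroup G) (ι : H →* G) (ζ : H → ℂ) (hA : AbD p 𝔪 χ D ι ζ) (u : G)
    (hu : u ∈ D)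
    (h : ∀ (κ : H →* (Subgroup.centralizer {u} : Subgroup G))
      (ψ : (Subgroup.centralizer {u} : Subgroup G) → ℂ),
      (∀ x, (Subgroup.centralizer {u} : Subgroup G).subtype (κ x) = ι x) →
      ψ ∈ Irr (Subgroup.centralizer {u} : Subgroup G) →
      defect p (block 𝔪 ψ) = defect p (block 𝔪 χ) →
      AbD p 𝔪 ψ (D.comap (Subgroup.centralizer {u} : Subgroup G).subtype) κ ζ →
      ell p (block 𝔪 ψ) ≤ p + 1) :
    (block 𝔪 χ).Finite ∧ (block 𝔪 χ).ncard ≤ p ^ defect p (block 𝔪 χ) := by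
  have hr : ∀ x : G, (∃ y : Subgroup.centralizer {u}, (Subgroup.centralizer {u}).subtype y = x) ↔
      u * x = x * u := by
    intro x
    constructor
    · rintro ⟨y, rfl⟩
      exact (Subgroup.mem_centralizer_singleton_iff.1 y.2).symm
    · intro hx
      exact ⟨⟨x, Subgroup.mem_centralizer_singleton_iff.2 hx.symm⟩, rfl⟩
  have hinj : Function.Injective (Subgroup.centralizer {u} : Subgroup G).subtype :=
    Subgroup.subtype_injective _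
  obtain ⟨κ, ψ, hκ, hψ, hindψ⟩ := Bw_ex p hp 𝔪 h𝔪 hp𝔪 χ D ι ζ hA u hu _ hinj hr
  obtain ⟨hInd, hdef, hB⟩ := Bw_main p hp 𝔪 h𝔪 hp𝔪 χ hχ D ι ζ hA u hu _ hinj hr κ hκ ψ hψ hindψ
  have hep : ell p (block 𝔪 ψ) ≤ p + 1 := h κ ψ hκ hψ hdef hB
  obtain ⟨m, hm⟩ : ∃ m, orderOf u = p ^ m := by
    obtain ⟨l, hl⟩ := hA.pg ⟨u, hu⟩
    have h1 : u ^ (p ^ l) = 1 := congrArg Subtype.val hl
    obtain ⟨m, -, hm⟩ := (Nat.dvd_prime_pow hp).1 (orderOf_dvd_of_pow_eq_one h1)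
    exact ⟨m, hm⟩
  obtain ⟨hfin, -, h3⟩ := MainZ_main p hp 𝔪 h𝔪 hp𝔪 χ hχ u m hm ψ hψ
    ((IndA_sub 𝔪 _ ψ hψ χ hχ).2 hInd) hdef
  exact ⟨hfin, h3 hep⟩

private theorem fin3_range {G H : Type} [Group G] [Group H] {u : G} {ι : H →* G}
    {κ : H →* (Subgroup.centralizer {u} : Subgroup G)}
    (hκ : ∀ x, (Subgroup.centralizer {u} : Subgroup G).subtype (κ x) = ι x)
    (s : (Subgroup.centralizer {u} : Subgroup G)) (hs : (s : G) ∈ ι.range) : s ∈ κ.range := by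
  obtain ⟨x, hx⟩ := hs
  exact ⟨x, Subtype.ext ((hκ x).trans hx)⟩

private theorem fin3_zp {G : Type} [Group G] {u : G}
    (v z : (Subgroup.centralizer {u} : Subgroup G)) :
    z ∈ Subgroup.zpowers v ↔ (z : G) ∈ Subgroup.zpowers (v : G) := by
  rw [Subgroup.mem_zpowers_iff, Subgroup.mem_zpowers_iff]
  constructor
  · rintro ⟨k, rfl⟩
    exact ⟨k, by simp⟩
  · rintro ⟨k, hk⟩
    exact ⟨k, Subtype.ext (by simpa using hk)⟩

/-- MODULE FIN2. A regular `u`. PROOF: if `p ^ defect < 7` then `defect ≤ 1` (`p ≥ 3`): `FinA_small`, `Gam_fin`. Otherwise `Fin3_end`; `NilB_main` for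
`ψ`: by `LY_stb` an `s` in the stabilizer in the centralizer of `u` is in `Stb 𝔪 hA.cen ζ` and commutes with `u`, so it is in `ι.range` (`hu`), so
`s ∈ κ.range`. -/
theorem Fin3_reg {G H : Type} [Group G] [Fintype G] [Group H] [Fintype H] (p : ℕ)
    (hp : p.Prime) (hp2 : p ≠ 2) (𝔪 : Ideal AInt) (h𝔪 : 𝔪.IsMaximal) (hp𝔪 : (p : AInt) ∈ 𝔪)
    (χ : G → ℂ) (hχ : χ ∈ Irr G) (D : Subgroup G) (ι : H →* G) (ζ : H → ℂ)
    (hA : AbD p 𝔪 χ D ι ζ) (u : G) (huD : u ∈ D)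
    (hu : ∀ n ∈ Stb 𝔪 hA.cen ζ, n * u = u * n → n ∈ ι.range) :
    (block 𝔪 χ).Finite ∧ (block 𝔪 χ).ncard ≤ p ^ defect p (block 𝔪 χ) := by
  classical
  rcases Nat.lt_or_ge (p ^ defect p (block 𝔪 χ)) 7 with h7 | h7
  · refine ⟨Gam_fin 𝔪 χ, FinA_small p hp 𝔪 h𝔪 hp𝔪 χ hχ ?_⟩
    by_contra hcon
    have h3 : 3 ≤ p := by
      have := hp.two_le
      omega
    have h1 : p ^ 3 ≤ p ^ defect p (block 𝔪 χ) :=
      Nat.pow_le_pow_right hp.pos (by omega)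
    have h2 : 3 ^ 3 ≤ p ^ 3 := Nat.pow_le_pow_left h3 3
    omega
  · refine Fin3_end p hp 𝔪 h𝔪 hp𝔪 χ hχ D ι ζ hA u huD ?_
    intro κ ψ hκ hψ hdef hB
    have h1 : ell p (block 𝔪 ψ) ≤ 1 := by
      refine NilB_main p hp hp2 𝔪 h𝔪 hp𝔪 ψ hψ _ κ ζ hB (by rw [hdef]; exact h7) ?_
      intro s hs
      obtain ⟨h2, h3⟩ := LY_stb hA u huD hκ hB.cen s hs
      exact fin3_range hκ s (hu _ h2 h3)
    omega

/-- MODULE FIN3. `|D : ⟨u⟩| ≤ p`. PROOF: `Fin3_end`; `CenP_one` in the centralizer of `u` for `P` = the subgroup generated by `u` (as an element of the centralizer, in its centre),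
`|P| = orderOf u = p ^ s`; `p ^ defect = |D| ≤ p ^ (s + 1)`, so `defect ≤ s + 1`. -/
theorem Fin3_one {G H : Type} [Group G] [Fintype G] [Group H] [Fintype H] (p : ℕ)
    (hp : p.Prime) (𝔪 : Ideal AInt) (h𝔪 : 𝔪.IsMaximal) (hp𝔪 : (p : AInt) ∈ 𝔪)
    (χ : G → ℂ) (hχ : χ ∈ Irr G) (D : Subgroup G) (ι : H →* G) (ζ : H → ℂ)
    (hA : AbD p 𝔪 χ D ι ζ) (u : G) (huD : u ∈ D) (hu : Nat.card D ≤ p * orderOf u) :
    (block 𝔪 χ).Finite ∧ (block 𝔪 χ).ncard ≤ p ^ defect p (block 𝔪 χ) := by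
  classical
  refine Fin3_end p hp 𝔪 h𝔪 hp𝔪 χ hχ D ι ζ hA u huD ?_
  intro κ ψ hκ hψ hdef hB
  obtain ⟨s, hs⟩ : ∃ m, orderOf u = p ^ m := by
    obtain ⟨l, hl⟩ := hA.pg ⟨u, huD⟩
    have h1 : u ^ (p ^ l) = 1 := congrArg Subtype.val hl
    obtain ⟨m, -, hm⟩ := (Nat.dvd_prime_pow hp).1 (orderOf_dvd_of_pow_eq_one h1)
    exact ⟨m, hm⟩
  set u' : (Subgroup.centralizer {u} : Subgroup G) :=
    ⟨u, Subgroup.mem_centralizer_singleton_iff.2 rfl⟩ with hu'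
  have ho : orderOf u' = p ^ s := by
    rw [← hs, ← Subgroup.orderOf_coe]
  have hd : defect p (block 𝔪 ψ) ≤ s + 1 := by
    have h1 : p ^ defect p (block 𝔪 χ) ≤ p ^ (s + 1) := by
      rw [← hA.card, pow_succ', ← hs]
      exact hu
    rw [hdef]
    exact (Nat.pow_le_pow_iff_right hp.one_lt).1 h1
  have h1 := CenP_one p hp 𝔪 h𝔪 hp𝔪 (Subgroup.zpowers u') s
    (by rw [Nat.card_zpowers, ho]) (by
      intro x hx y
      obtain ⟨k, rfl⟩ := Subgroup.mem_zpowers_iff.1 hx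
      have h2 : Commute y u' := by
        apply Subtype.ext
        exact Subgroup.mem_centralizer_singleton_iff.1 y.2
      exact h2.zpow_right k) ψ hψ hd
  omega

/-- MODULE FIN4. A good flag. PROOF: `Fin3_end`; `Rat_main` in the centralizer `C` of `u` for `u`, `w` (elements of `C`, as `D` is abelian) and `D.comap C.subtype` (same order as
`D`, `Bw_card`); `hG`, `hG2` by `LY_stb` and injectivity of the inclusion (`s ∈ Stb` in `C` with `(s : G) ∈ ι.range` is in `κ.range`; `zpowers` in `C` and in `G`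
correspond). -/
theorem Fin3_flag {G H : Type} [Group G] [Fintype G] [Group H] [Fintype H] (p : ℕ)
    (hp : p.Prime) (hp2 : p ≠ 2) (𝔪 : Ideal AInt) (h𝔪 : 𝔪.IsMaximal) (hp𝔪 : (p : AInt) ∈ 𝔪)
    (χ : G → ℂ) (hχ : χ ∈ Irr G) (D : Subgroup G) (ι : H →* G) (ζ : H → ℂ)
    (hA : AbD p 𝔪 χ D ι ζ) (u w : G) (hu : u ∈ D) (hw : w ∈ D)
    (hcard : Nat.card D = p ^ 2 * orderOf u) (hexp : ∀ z ∈ D, z ^ p ∈ Subgroup.zpowers u)
    (hwu : w ∉ Subgroup.zpowers u)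
    (hG : ∀ n ∈ Stb 𝔪 hA.cen ζ, n * u = u * n → ∀ μ : ℕ,
      (∀ x ∈ D, n * x * n⁻¹ * (x ^ μ)⁻¹ ∈ Subgroup.zpowers u) → n ∈ ι.range)
    (hG2 : ∀ n ∈ Stb 𝔪 hA.cen ζ, n * u = u * n →
      ∀ i j : ℤ, n * w * n⁻¹ = u ^ i * w ^ j → n * w = w * n) :
    (block 𝔪 χ).Finite ∧ (block 𝔪 χ).ncard ≤ p ^ defect p (block 𝔪 χ) := by
  classical
  refine Fin3_end p hp 𝔪 h𝔪 hp𝔪 χ hχ D ι ζ hA u hu ?_
  intro κ ψ hκ hψ hdef hB
  have hDC : ∀ x ∈ D, x ∈ (Subgroup.centralizer {u} : Subgroup G) := fun x hx =>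
    Subgroup.mem_centralizer_singleton_iff.2 (hA.com x hx u hu)
  have hr : ∀ x : G, (∃ y : (Subgroup.centralizer {u} : Subgroup G), (Subgroup.centralizer {u} : Subgroup G).subtype y = x) ↔ u * x = x * u := by
    intro x
    constructor
    · rintro ⟨y, rfl⟩
      exact (Subgroup.mem_centralizer_singleton_iff.1 y.2).symm
    · intro hx
      exact ⟨⟨x, Subgroup.mem_centralizer_singleton_iff.2 hx.symm⟩, rfl⟩
  have hcd := Bw_card D hA.com u hu (Subgroup.centralizer {u} : Subgroup G).subtype (Subgroup.subtype_injective _) hr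
  refine Rat_main p hp hp2 𝔪 h𝔪 hp𝔪 ψ hψ (D.comap (Subgroup.centralizer {u} : Subgroup G).subtype) κ ζ hB ⟨u, hDC u hu⟩ ⟨w, hDC w hw⟩
    hu hw ?_ ?_ ?_ ?_ ?_ ?_
  · intro g
    exact Subtype.ext (Subgroup.mem_centralizer_singleton_iff.1 g.2)
  · rw [hcd, hcard, ← Subgroup.orderOf_coe (⟨u, hDC u hu⟩ : (Subgroup.centralizer {u} : Subgroup G))]
  · intro z hz
    rw [fin3_zp]
    exact hexp z hz
  · rw [fin3_zp]
    exact hwu
  · intro n hn μ hx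
    obtain ⟨h2, h3⟩ := LY_stb hA u hu hκ hB.cen n hn
    refine fin3_range hκ n (hG _ h2 h3 μ ?_)
    intro x hxD
    have h4 := (fin3_zp _ _).1 (hx ⟨x, hDC x hxD⟩ hxD)
    exact h4
  · intro n hn i j hx
    obtain ⟨h2, h3⟩ := LY_stb hA u hu hκ hB.cen n hn
    apply Subtype.ext
    refine hG2 _ h2 h3 i j ?_
    have h4 := congrArg Subtype.val hx
    simpa using h4

/-- MODULE FIN5. PROOF: `Cnv_geo` for `N = Stb 𝔪 hA.cen ζ`, `C = ι.range` (hypotheses as in `Fin_index` in `KBQ/Fin.lean`), then `Fin3_reg`,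
`Fin3_one`, `Fin3_flag`. -/
theorem Fin3_main {G H : Type} [Group G] [Fintype G] [Group H] [Fintype H] (p : ℕ)
    (hp : p.Prime) (hp2 : p ≠ 2) (𝔪 : Ideal AInt) (h𝔪 : 𝔪.IsMaximal) (hp𝔪 : (p : AInt) ∈ 𝔪)
    (χ : G → ℂ) (hχ : χ ∈ Irr G) (D : Subgroup G) (ι : H →* G) (ζ : H → ℂ)
    (hA : AbD p 𝔪 χ D ι ζ) (hr : Nat.card {x : D // x ^ p = 1} ≤ p ^ 3) :
    (block 𝔪 χ).Finite ∧ (block 𝔪 χ).ncard ≤ p ^ defect p (block 𝔪 χ) := by
  have hcr : Nat.card ι.range = Nat.card H :=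
    Nat.card_congr (MonoidHom.ofInjective hA.cen.inj).toEquiv.symm
  rcases Cnv_geo p hp hp2 D (Stb 𝔪 hA.cen ζ) ι.range hA.pg hA.com
    (Fin_nrm 𝔪 hA.cen ζ) (Abl_range 𝔪 D ι hA.cen ζ hA.irr) (Fin_com hA.cen) (Fin_cc 𝔪 hA.cen ζ)
    (by
      rw [hcr]
      exact LemV_main p hp 𝔪 h𝔪 hp𝔪 χ hχ D ι ζ hA D hA.pg ι hA.cen ζ hA.irr hA.ind) hr with
    ⟨u, hu, h⟩ | ⟨u, hu, h⟩ | ⟨u, hu, w, hw, h1, h2, h3, h4⟩
  · exact Fin3_reg p hp hp2 𝔪 h𝔪 hp𝔪 χ hχ D ι ζ hA u hu h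
  · exact Fin3_one p hp 𝔪 h𝔪 hp𝔪 χ hχ D ι ζ hA u hu h
  · exact Fin3_flag p hp hp2 𝔪 h𝔪 hp𝔪 χ hχ D ι ζ hA u w hu hw h1 h2 h3
      (fun n hn hnu => (h4 n hn hnu).1) (fun n hn hnu => (h4 n hn hnu).2)

end Pool.Agent.KBR
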