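import Pool.Agent.KBQ.FixT

/-! Preparations for the inequality for the number of fixed characters. -/

namespace Pool.Agent.KBR

open Pool.Agent.KB Pool.Agent.KB.ContrAux Pool.Agent.KBL Pool.Agent.KBZ Pool.Agent.KBU
  Pool.Agent.KBQ

/-- MODULE FIXA. PROOF: `preg p X` and `preg p Y` lie in the space `Submodule.span ℂ (preg p '' block 𝔪 ψ)` of
dimension `ell ≤ 1`, and `preg p Y ≠ 0` (its value at `1` is `Y 1 ≠ 0`: a degree). So
`preg p X = c • preg p Y`; the value at `1` gives `c = 1` (`1` is `p`-regular as `p` does not divide `1`);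
the value at `y` is the claim. -/
theorem FixI_one {C : Type} [Group C] [Fintype C] (p : ℕ) (hp : p.Prime) (𝔪 : Ideal AInt)
    (ψ : C → ℂ) (hell : ell p (block 𝔪 ψ) ≤ 1) (X Y : C → ℂ) (hX : X ∈ block 𝔪 ψ)
    (hY : Y ∈ block 𝔪 ψ) (h1 : X 1 = Y 1) (y : C) (hy : ¬ p ∣ orderOf y) : X y = Y y := by
  have hXV : preg p X ∈ Submodule.span ℂ (preg p '' block 𝔪 ψ) := Submodule.subset_span ⟨X, hX, rfl⟩
  have hYV : preg p Y ∈ Submodule.span ℂ (preg p '' block 𝔪 ψ) := Submodule.subset_span ⟨Y, hY, rfl⟩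
  have hfr : Module.finrank ℂ (Submodule.span ℂ (preg p '' block 𝔪 ψ)) ≤ 1 := hell
  obtain ⟨v, hv⟩ := finrank_le_one_iff.mp hfr
  obtain ⟨a, ha⟩ := hv ⟨preg p X, hXV⟩
  obtain ⟨b, hb⟩ := hv ⟨preg p Y, hYV⟩
  have ha' : ∀ g, a * (v : C → ℂ) g = preg p X g := fun g => by
    have h2 := congrFun (congrArg Subtype.val ha) g
    exact h2
  have hb' : ∀ g, b * (v : C → ℂ) g = preg p Y g := fun g => by
    have h2 := congrFun (congrArg Subtype.val hb) g
    exact h2
  have hval : ∀ (Z : C → ℂ) (g : C), ¬ p ∣ orderOf g → preg p Z g = Z g := fun Z g hg => if_neg hg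
  have h1p : ¬ p ∣ orderOf (1 : C) := by
    rw [orderOf_one]
    intro h2
    exact absurd (Nat.le_of_dvd one_pos h2) (not_le.mpr hp.one_lt)
  obtain ⟨n, hn, hYn⟩ := irr_deg hY.1
  have hY0 : Y 1 ≠ 0 := by
    rw [hYn]
    exact_mod_cast hn.ne'
  have h2 := ha' 1
  have h3 := hb' 1
  rw [hval X 1 h1p, h1] at h2
  rw [hval Y 1 h1p] at h3
  have hv1 : (v : C → ℂ) 1 ≠ 0 := by
    intro h4
    rw [h4, mul_zero] at h3
    exact hY0 h3.symm
  have hab : a = b := mul_right_cancel₀ hv1 (h2.trans h3.symm)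
  rw [← hval X y hy, ← hval Y y hy, ← ha' y, ← hb' y, hab]

open Classical in
/-- MODULE FIXB. Sums over `G` by `p`-parts, with an inequality. PROOF: copy the proof of `FixT_split`
(`FixT_exp` is public): `∑ g, S g = ∑ w, (sum over the fibre of w)`; the fibre over `w = 1` is the sum over the
`p`-regular elements; the other fibres are empty (if `w` is not a `p`-element: sum `0`) or equal to
`∑ y with w * y = y * w ∧ ¬ p ∣ orderOf y, S (w * y) = r w` with real `r w ≥ 0`. `r = ∑ w ≠ 1, r w`. -/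
theorem FixI_split {G : Type} [Group G] [Fintype G] (p : ℕ) (hp : p.Prime) (S : G → ℂ)
    (h : ∀ (w : G) (n : ℕ), w ^ (p ^ n) = 1 → w ≠ 1 →
      ∃ r : ℝ, 0 ≤ r ∧ ∑ y : G with w * y = y * w ∧ ¬ p ∣ orderOf y, S (w * y) = (r : ℂ)) :
    ∃ r : ℝ, 0 ≤ r ∧ ∑ g, S g = (∑ g with ¬ p ∣ orderOf g, S g) + (r : ℂ) := by
  obtain ⟨e, he1, he2, he3⟩ := FixT_exp G p hp
  have hfib : ∀ (w : G) (n : ℕ), w ^ (p ^ n) = 1 →
      ∑ g with g * (g ^ e)⁻¹ = w, S g = ∑ y : G with w * y = y * w ∧ ¬ p ∣ orderOf y, S (w * y) := by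
    intro w n hw
    symm
    refine Finset.sum_bij (fun y _ => w * y) ?_ ?_ ?_ ?_
    · intro y hy
      rw [Finset.mem_filter] at hy ⊢
      refine ⟨Finset.mem_univ _, ?_⟩
      rw [he1 w y n hw hy.2.1 hy.2.2]
      group
    · intro y _ z _ hyz
      exact mul_left_cancel hyz
    · intro g hg
      rw [Finset.mem_filter] at hg
      refine ⟨g ^ e, ?_, ?_⟩
      · rw [Finset.mem_filter]
        refine ⟨Finset.mem_univ _, ?_, he2 g⟩
        rw [← hg.2]
        have h1 : g * g ^ e = g ^ e * g := (pow_succ' g e).symm.trans (pow_succ g e)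
        calc g * (g ^ e)⁻¹ * g ^ e = g := by group
          _ = (g ^ e * g) * (g ^ e)⁻¹ := by rw [← h1]; group
          _ = g ^ e * (g * (g ^ e)⁻¹) := by rw [mul_assoc]
      · show w * g ^ e = g
        rw [← hg.2]
        group
    · intro y _
      rfl
  have hsplit : ∑ g, S g = ∑ w : G, ∑ g with g * (g ^ e)⁻¹ = w, S g :=
    (Finset.sum_fiberwise Finset.univ (fun g : G => g * (g ^ e)⁻¹) S).symm
  have hone : ∑ g with g * (g ^ e)⁻¹ = 1, S g = ∑ g with ¬ p ∣ orderOf g, S g := by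
    rw [hfib 1 0 (one_pow _)]
    refine Finset.sum_congr ?_ fun y _ => by rw [one_mul]
    ext y
    simp
  have hr : ∀ w : G, ∃ r : ℝ, 0 ≤ r ∧ (w ≠ 1 → ∑ g with g * (g ^ e)⁻¹ = w, S g = (r : ℂ)) := by
    intro w
    by_cases hw1 : w = 1
    · exact ⟨0, le_refl _, fun h1 => absurd hw1 h1⟩
    by_cases hw : w ^ (p ^ padicValNat p (Nat.card G)) = 1
    · obtain ⟨r, hr0, hr1⟩ := h w _ hw hw1
      exact ⟨r, hr0, fun _ => (hfib w _ hw).trans hr1⟩
    · refine ⟨0, le_refl _, fun _ => ?_⟩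
      rw [Complex.ofReal_zero]
      apply Finset.sum_eq_zero
      intro g hg
      rw [Finset.mem_filter] at hg
      exact absurd (hg.2 ▸ he3 g) hw
  choose r hr0 hr1 using hr
  refine ⟨∑ w ∈ Finset.univ.erase (1 : G), r w, Finset.sum_nonneg fun w _ => hr0 w, ?_⟩
  rw [hsplit, ← hone, ← Finset.add_sum_erase Finset.univ
    (fun w : G => ∑ g with g * (g ^ e)⁻¹ = w, S g) (Finset.mem_univ (1 : G)), Complex.ofReal_sum]
  congr 1
  exact Finset.sum_congr rfl fun w hw => hr1 w (Finset.ne_of_mem_erase hw)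

end Pool.Agent.KBR
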