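import Pool.Agent.KBR.FixIa

/-! The contribution of one section to the number of fixed characters. -/

namespace Pool.Agent.KBR

open Pool.Agent.KB Pool.Agent.KB.ContrAux Pool.Agent.KBL Pool.Agent.KBZ Pool.Agent.KBU
  Pool.Agent.KBQ

open Classical in
/-- MODULE FIXC. This is `FixT_sec` with a weaker hypothesis `hns` and a weaker conclusion. PROOF: copy the
proof of `FixT_sec` (`KBQ/FixT.lean`). If `w ^ J` is not conjugate to `w` the sum is `0` (`r = 0`), same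
proof. If `h * w * h⁻¹ = w ^ J` the sum is `∑ j with Ind 𝔪 ι (Y j) χ₀, ∑ y₀ regular, Y j (c y₀) * Y j y₀⁻¹`
as there. For each `j` this inner sum is a real number `≥ 0`: if `Y j` is not in the block of `Y j ∘ c` it is `0`
(`Orth_main`). Otherwise the argument there shows that `Cj 𝔪 h ι (Y j) ι (Y j)` (prove
`Cj` from `Y j ∈ block 𝔪 (Y j ∘ c)`: if `h * ι x₁ * h⁻¹ = ι x₂` then `x₁ = c x₂` and `UOne_omega`), so
`ell p (block 𝔪 (Y j)) ≤ 1` by `hns`, and `FixI_one` (`X = Y j ∘ c`, `Y = Y j`, `c 1 = 1`) gives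
`Y j (c y₀) = Y j y₀` for `p`-regular `y₀`; the sum is `∑ Y j y₀ * Y j y₀⁻¹ = ∑ ‖Y j y₀‖ ^ 2` (`irr_inv`:
`Y y⁻¹` is the complex conjugate). -/
theorem FixI_sec {G : Type} [Group G] [Fintype G] (p : ℕ) (hp : p.Prime) (𝔪 : Ideal AInt)
    (h𝔪 : 𝔪.IsMaximal) (hp𝔪 : (p : AInt) ∈ 𝔪) (χ₀ : G → ℂ) (hχ₀ : χ₀ ∈ Irr G) (J : ℕ)
    (hJ : Nat.Coprime J (Nat.card G)) (hJp : ¬ p ∣ J)
    (hJ1 : J ≡ 1 [MOD Nat.card G / p ^ padicValNat p (Nat.card G)])
    (w : G) (n : ℕ) (hw : w ^ (p ^ n) = 1)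
    (hns : ∀ (C : Type) [Group C] [Fintype C] (ι : C →* G), Function.Injective ι →
      (∀ x : G, (∃ y, ι y = x) ↔ w * x = x * w) → ∀ ψ ∈ Irr C, Ind 𝔪 ι ψ χ₀ →
      ∀ h : G, h * w * h⁻¹ = w ^ J → Cj 𝔪 h ι ψ ι ψ → ell p (block 𝔪 ψ) ≤ 1)
    {k : ℕ} (χ : Fin k → G → ℂ) (hinj : Function.Injective χ) (hχ : ∀ i, χ i ∈ block 𝔪 χ₀)
    (hsurj : ∀ ψ ∈ block 𝔪 χ₀, ∃ i, χ i = ψ) :
    ∃ r : ℝ, 0 ≤ r ∧ ∑ y : G with w * y = y * w ∧ ¬ p ∣ orderOf y,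
      ∑ i, χ i ((w * y) ^ J) * χ i (w * y)⁻¹ = (r : ℂ) := by
  obtain ⟨e, he1, he2, he3⟩ := FixT_exp G p hp
  obtain ⟨K, X, hXi, hXr, -, -⟩ := Col_main G
  have hXI : ∀ i, X i ∈ Irr G := fun i => by rw [← hXr]; exact ⟨i, rfl⟩
  -- the sum over the enumeration of the block
  have hsum : ∀ F : (G → ℂ) → ℂ, ∑ i, F (χ i) = ∑ i with X i ∈ block 𝔪 χ₀, F (X i) := by
    intro F
    have h1 : ∑ i, F (χ i) = ∑ ψ ∈ Finset.univ.image χ, F ψ := by
      rw [Finset.sum_image (fun i _ j _ hij => hinj hij)]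
    have h2 : ∑ i with X i ∈ block 𝔪 χ₀, F (X i) =
        ∑ ψ ∈ (Finset.univ.filter fun i => X i ∈ block 𝔪 χ₀).image X, F ψ := by
      rw [Finset.sum_image (fun i _ j _ hij => hXi hij)]
    rw [h1, h2]
    congr 1
    ext ψ
    rw [Finset.mem_image, Finset.mem_image]
    constructor
    · rintro ⟨i, -, rfl⟩
      have h3 : χ i ∈ Set.range X := by rw [hXr]; exact (hχ i).1
      obtain ⟨j, hj⟩ := h3
      exact ⟨j, Finset.mem_filter.mpr ⟨Finset.mem_univ _, by rw [hj]; exact hχ i⟩, hj⟩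
    · rintro ⟨j, hj, rfl⟩
      obtain ⟨i, hi⟩ := hsurj _ (Finset.mem_filter.mp hj).2
      exact ⟨i, Finset.mem_univ _, hi⟩
  let C : Subgroup G := Subgroup.centralizer {w}
  have hmemC : ∀ x : G, x ∈ C ↔ w * x = x * w := by
    intro x
    rw [Subgroup.mem_centralizer_singleton_iff]
    exact eq_comm
  let ι : C →* G := C.subtype
  have hι : Function.Injective ι := C.subtype_injective
  have hr : ∀ x : G, (∃ y, ι y = x) ↔ w * x = x * w := by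
    intro x
    rw [← hmemC]
    exact ⟨fun ⟨y, hy⟩ => hy ▸ y.2, fun hx => ⟨⟨x, hx⟩, rfl⟩⟩
  have hord : ∀ y : C, orderOf (ι y) = orderOf y := fun y => orderOf_injective ι hι y
  -- the `J`-th power
  have hpowJ : ∀ y : G, w * y = y * w → ¬ p ∣ orderOf y → (w * y) ^ J = w ^ J * y := by
    intro y hy hy'
    have hcm : Commute w y := hy
    rw [hcm.mul_pow, Gal_reg p hp J hJ1 y hy']
  by_cases hcon : ∃ h : G, h * w * h⁻¹ = w ^ J
  · obtain ⟨h, hh⟩ := hcon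
    obtain ⟨L, Y, hYi, hYr, -, -⟩ := Col_main C
    have hYI : ∀ j, Y j ∈ Irr C := fun j => by rw [← hYr]; exact ⟨j, rfl⟩
    have hwpow : ∃ m : ℕ, (w ^ J) ^ m = w := by
      have h1 : Nat.Coprime J (orderOf w) := by
        have h2 : orderOf w ∣ p ^ n := orderOf_dvd_of_pow_eq_one hw
        exact Nat.Coprime.coprime_dvd_right h2
          (Nat.Coprime.pow_right n ((Nat.Prime.coprime_iff_not_dvd hp).mpr hJp).symm)
      exact exists_pow_eq_self_of_coprime h1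
    obtain ⟨m, hm⟩ := hwpow
    have hw' : h⁻¹ * w ^ J * h⁻¹⁻¹ = w := by
      rw [← hh]
      group
    have h12 : ∀ x₁ : C, ∃ x₂ : C, ι x₂ = h⁻¹ * ι x₁ * h⁻¹⁻¹ := by
      intro x₁
      rw [hr]
      have h1 : w * ι x₁ = ι x₁ * w := (hr _).1 ⟨x₁, rfl⟩
      have h2 : w ^ J * ι x₁ = ι x₁ * w ^ J := (Commute.pow_left (show Commute w (ι x₁) from h1) J)
      calc w * (h⁻¹ * ι x₁ * h⁻¹⁻¹) = h⁻¹ * w ^ J * h⁻¹⁻¹ * (h⁻¹ * ι x₁ * h⁻¹⁻¹) := by rw [hw']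
        _ = h⁻¹ * (w ^ J * ι x₁) * h⁻¹⁻¹ := by group
        _ = h⁻¹ * ι x₁ * h⁻¹⁻¹ * (h⁻¹ * w ^ J * h⁻¹⁻¹) := by rw [h2]; group
        _ = h⁻¹ * ι x₁ * h⁻¹⁻¹ * w := by rw [hw']
    have h21 : ∀ x₂ : C, ∃ x₁ : C, ι x₂ = h⁻¹ * ι x₁ * h⁻¹⁻¹ := by
      intro x₂
      have h3 : ∃ x₁ : C, ι x₁ = h * ι x₂ * h⁻¹ := by
        rw [hr]
        have h1 : w * ι x₂ = ι x₂ * w := (hr _).1 ⟨x₂, rfl⟩
        have h4 : w ^ J * (h * ι x₂ * h⁻¹) = (h * ι x₂ * h⁻¹) * w ^ J := by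
          rw [← hh]
          calc h * w * h⁻¹ * (h * ι x₂ * h⁻¹) = h * (w * ι x₂) * h⁻¹ := by group
            _ = h * ι x₂ * h⁻¹ * (h * w * h⁻¹) := by rw [h1]; group
        have h5 := Commute.pow_left (show Commute (w ^ J) (h * ι x₂ * h⁻¹) from h4) m
        rw [hm] at h5
        exact h5
      obtain ⟨x₁, hx₁⟩ := h3
      exact ⟨x₁, by rw [hx₁]; group⟩
    obtain ⟨c, hc⟩ := IndA_iso h⁻¹ ι ι hι hι h12 h21
    have hterm : ∀ y₀ : C, ¬ p ∣ orderOf y₀ →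
        ∑ i, χ i ((w * ι y₀) ^ J) * χ i (w * ι y₀)⁻¹ =
          ∑ j with Ind 𝔪 ι (Y j) χ₀, Y j (c y₀) * Y j y₀⁻¹ := by
      intro y₀ hy₀
      have hcom : w * ι y₀ = ι y₀ * w := (hr _).1 ⟨y₀, rfl⟩
      have hreg : ¬ p ∣ orderOf (ι y₀) := by rw [hord]; exact hy₀
      rw [hpowJ _ hcom hreg]
      rw [hsum (fun ψ => ψ (w ^ J * ι y₀) * ψ (w * ι y₀)⁻¹)]
      have h1 : ∀ i, X i (w ^ J * ι y₀) = X i (w * ι (c y₀)) := by
        intro i
        refine irr_conj (hXI i) (isConj_iff.mpr ⟨h⁻¹, ?_⟩)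
        rw [hc]
        calc h⁻¹ * (w ^ J * ι y₀) * h⁻¹⁻¹ = (h⁻¹ * w ^ J * h⁻¹⁻¹) * (h⁻¹ * ι y₀ * h⁻¹⁻¹) := by group
          _ = w * (h⁻¹ * ι y₀ * h⁻¹⁻¹) := by rw [hw']
      have h2 : ∑ i with X i ∈ block 𝔪 χ₀, X i (w ^ J * ι y₀) * X i (w * ι y₀)⁻¹ =
          ∑ i with X i ∈ block 𝔪 χ₀, X i (w * ι (c y₀)) * X i (w * ι y₀)⁻¹ :=
        Finset.sum_congr rfl fun i _ => by rw [h1]
      have hcy : ¬ p ∣ orderOf (c y₀) := by
        rw [MulEquiv.orderOf_eq c y₀]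
        exact hy₀
      rw [h2]
      exact SMTb_main p hp 𝔪 h𝔪 hp𝔪 χ₀ hχ₀ w n hw ι hι hr X hXi hXr Y hYi hYr (c y₀) y₀ hcy hy₀
    have hre : ∑ y : G with w * y = y * w ∧ ¬ p ∣ orderOf y,
        ∑ i, χ i ((w * y) ^ J) * χ i (w * y)⁻¹ =
        ∑ y₀ : C with ¬ p ∣ orderOf y₀, ∑ i, χ i ((w * ι y₀) ^ J) * χ i (w * ι y₀)⁻¹ := by
      symm
      refine Finset.sum_bij (fun y₀ _ => ι y₀) ?_ ?_ ?_ ?_
      · intro y₀ hy₀
        rw [Finset.mem_filter] at hy₀ ⊢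
        exact ⟨Finset.mem_univ _, (hr _).1 ⟨y₀, rfl⟩, by rw [hord]; exact hy₀.2⟩
      · intro a _ b _ hab
        exact hι hab
      · intro y hy
        rw [Finset.mem_filter] at hy
        obtain ⟨y₀, hy₀⟩ := (hr y).2 hy.2.1
        refine ⟨y₀, ?_, hy₀⟩
        rw [Finset.mem_filter]
        refine ⟨Finset.mem_univ _, ?_⟩
        rw [← hord, hy₀]
        exact hy.2.2
      · intro a _
        rfl
    rw [hre]
    have hre2 : ∑ y₀ : C with ¬ p ∣ orderOf y₀, ∑ i, χ i ((w * ι y₀) ^ J) * χ i (w * ι y₀)⁻¹ =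
        ∑ y₀ : C with ¬ p ∣ orderOf y₀, ∑ j with Ind 𝔪 ι (Y j) χ₀, Y j (c y₀) * Y j y₀⁻¹ :=
      Finset.sum_congr rfl fun y₀ hy₀ => hterm y₀ (Finset.mem_filter.mp hy₀).2
    rw [hre2, Finset.sum_comm]
    have hin : ∀ j, ∃ r : ℝ, 0 ≤ r ∧ (Ind 𝔪 ι (Y j) χ₀ →
        ∑ y₀ : C with ¬ p ∣ orderOf y₀, Y j (c y₀) * Y j y₀⁻¹ = (r : ℂ)) := by
      intro j
      have hirr : (fun x => Y j (c x)) ∈ Irr C := UOne_irr c (hYI j)
      by_cases hb : Y j ∈ block 𝔪 (fun x => Y j (c x))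
      · refine ⟨∑ y₀ : C with ¬ p ∣ orderOf y₀, ‖Y j y₀‖ ^ 2,
          Finset.sum_nonneg fun y₀ _ => by positivity, fun hj' => ?_⟩
        have hell : ell p (block 𝔪 (Y j)) ≤ 1 := by
          refine hns C ι hι hr (Y j) (hYI j) hj' h hh ?_
          intro x₁ x₂ hx
          have h1 : x₁ = c x₂ := by
            apply hι
            rw [hc, ← hx]
            group
          have h2 : InM 𝔪 (omega (fun x => Y j (c x)) x₂ - omega (Y j) x₂) := hb.2 x₂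
          rw [UOne_omega c (Y j) x₂] at h2
          rw [h1]
          exact h2
        have hbX : (fun x => Y j (c x)) ∈ block 𝔪 (Y j) := by
          refine ⟨hirr, fun g => ?_⟩
          obtain ⟨z, hz, hz'⟩ := hb.2 g
          exact ⟨-z, 𝔪.neg_mem hz, by push_cast; rw [hz']; ring⟩
        have hbY : Y j ∈ block 𝔪 (Y j) := ⟨hYI j, fun g => ⟨0, 𝔪.zero_mem, by simp⟩⟩
        rw [Complex.ofReal_sum]
        refine Finset.sum_congr rfl fun y₀ hy₀ => ?_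
        have h3 : Y j (c y₀) = Y j y₀ :=
          FixI_one p hp 𝔪 (Y j) hell (fun x => Y j (c x)) (Y j) hbX hbY (by
            show Y j (c 1) = Y j 1
            rw [map_one]) y₀ (Finset.mem_filter.mp hy₀).2
        rw [h3, irr_inv (hYI j), Complex.mul_conj, Complex.normSq_eq_norm_sq]
      · refine ⟨0, le_refl _, fun _ => ?_⟩
        have hT := Orth_main p hp 𝔪 h𝔪 hp𝔪 (fun x => Y j (c x)) (Y j) hirr (hYI j) hb
        unfold T at hT
        rw [Complex.ofReal_zero, ← hT]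
    choose r hr0 hr1 using hin
    refine ⟨∑ j with Ind 𝔪 ι (Y j) χ₀, r j, Finset.sum_nonneg fun j _ => hr0 j, ?_⟩
    rw [Complex.ofReal_sum]
    exact Finset.sum_congr rfl fun j hj => hr1 j (Finset.mem_filter.mp hj).2
  · refine ⟨0, le_refl _, ?_⟩
    rw [Complex.ofReal_zero]
    refine Finset.sum_eq_zero fun y hy => ?_
    rw [Finset.mem_filter] at hy
    obtain ⟨-, hcom, hreg⟩ := hy
    rw [hpowJ y hcom hreg, hsum (fun ψ => ψ (w ^ J * y) * ψ (w * y)⁻¹)]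
    obtain ⟨y₀, hy₀⟩ := (hr y).2 hcom
    have hreg₀ : ¬ p ∣ orderOf y₀ := by rw [← hord, hy₀]; exact hreg
    have hwJ : (w ^ J) ^ (p ^ n) = 1 := by
      rw [← pow_mul, mul_comm, pow_mul, hw, one_pow]
    have hrJ : ∀ x : G, (∃ y, ι y = x) ↔ w ^ J * x = x * w ^ J := by
      intro x
      rw [hr]
      constructor
      · intro h1
        exact Commute.pow_left (show Commute w x from h1) J
      · intro h1
        have h2 : Nat.Coprime J (orderOf w) := by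
          have h2 : orderOf w ∣ p ^ n := orderOf_dvd_of_pow_eq_one hw
          exact Nat.Coprime.coprime_dvd_right h2
            (Nat.Coprime.pow_right n ((Nat.Prime.coprime_iff_not_dvd hp).mpr hJp).symm)
        obtain ⟨m, hm⟩ := exists_pow_eq_self_of_coprime h2
        have h5 := Commute.pow_left (show Commute (w ^ J) x from h1) m
        rw [hm] at h5
        exact h5
    have hz : ∀ c : C, ¬ p ∣ orderOf c → ¬ IsConj (w * y) (w ^ J * ι c) := by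
      intro c hc hcj
      obtain ⟨g, hg⟩ := isConj_iff.mp hcj
      apply hcon
      refine ⟨g, ?_⟩
      have h1 : (w * y) ^ e = y := he1 w y n hw hcom hreg
      have h2 : (w ^ J * ι c) ^ e = ι c := by
        refine he1 (w ^ J) (ι c) n hwJ ((hrJ _).1 ⟨c, rfl⟩) ?_
        rw [hord]
        exact hc
      have h3 : g * y * g⁻¹ = ι c := by
        rw [← h2, ← hg, conj_pow, h1]
      calc g * w * g⁻¹ = (g * (w * y) * g⁻¹) * (g * y * g⁻¹)⁻¹ := by group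
        _ = w ^ J * ι c * (ι c)⁻¹ := by rw [hg, h3]
        _ = w ^ J := by group
    have hoff := SMTb_off p hp 𝔪 h𝔪 hp𝔪 χ₀ hχ₀ (w ^ J) n hwJ ι hι hrJ X hXi hXr y₀ hreg₀
      (w * y) hz
    rw [hy₀] at hoff
    exact hoff

end Pool.Agent.KBR
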