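import Pool.Agent.KBR.GLin

/-! Commutative coprime linear groups in dimension two. -/

namespace Pool.Agent.KBR

private theorem gabl_span {p : ℕ} [Fact p.Prime] {W : Type} [AddCommGroup W] [Module (ZMod p) W]
    [Finite W] (hW : Nat.card W = p ^ 2) (w v : W) (hw : w ≠ 0) (hv : ∀ c : ZMod p, v ≠ c • w) :
    ∀ x, ∃ a b : ZMod p, x = a • w + b • v := by
  have hinj : Function.Injective (fun z : ZMod p × ZMod p => z.1 • w + z.2 • v) := by
    rintro ⟨a, b⟩ ⟨a', b'⟩ h
    simp only at h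
    have h1 : (b - b') • v = (a' - a) • w := by
      rw [sub_smul, sub_smul, sub_eq_sub_iff_add_eq_add, add_comm, h, add_comm]
    by_cases hb : b = b'
    · rw [hb, sub_self, zero_smul] at h1
      rcases smul_eq_zero.1 h1.symm with h2 | h2
      · rw [hb, sub_eq_zero.1 h2]
      · exact absurd h2 hw
    · exfalso
      have hb' : b - b' ≠ 0 := sub_ne_zero.2 hb
      apply hv ((b - b')⁻¹ * (a' - a))
      rw [mul_smul, ← h1, smul_smul, inv_mul_cancel₀ hb', one_smul]
  have hcard : Nat.card (ZMod p × ZMod p) = Nat.card W := by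
    rw [Nat.card_prod, Nat.card_zmod, hW, sq]
  have hfin : Finite (ZMod p × ZMod p) := inferInstance
  have hbij := (Nat.bijective_iff_injective_and_card _).2 ⟨hinj, hcard⟩
  intro x
  obtain ⟨⟨a, b⟩, h⟩ := hbij.2 x
  exact ⟨a, b, h.symm⟩

private theorem gabl_out {p : ℕ} [Fact p.Prime] {W : Type} [AddCommGroup W] [Module (ZMod p) W]
    [Finite W] (hW : Nat.card W = p ^ 2) (v : W) : ∃ w : W, ∀ c : ZMod p, w ≠ c • v := by
  by_contra hcon
  push Not at hcon
  have hsur : Function.Surjective (fun c : ZMod p => c • v) := fun w => by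
    obtain ⟨c, hc⟩ := hcon w
    exact ⟨c, hc.symm⟩
  have h1 := Nat.card_le_card_of_surjective _ hsur
  rw [hW, Nat.card_zmod] at h1
  have hp1 : 1 < p := (Fact.out : p.Prime).one_lt
  nlinarith

/-- MODULE GABL1. A non-scalar `g` (order prime to `p`) has a vector `w ≠ 0` which is not an eigenvector; and if another
non-scalar `h` commutes with `g` then `w` is not an eigenvector of `h`. PROOF: `w` from `GLin_cyc`. If `h w = c • w`, `h = a + b g`
(`GLin_cent`), `b ≠ 0` as `h` is not a scalar, so `g w = b⁻¹ (c - a) • w`, contradiction. -/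
theorem GAbl_vec {p : ℕ} [Fact p.Prime] {W : Type} [AddCommGroup W] [Module (ZMod p) W]
    [Finite W] (hW : Nat.card W = p ^ 2) (g : W ≃ₗ[ZMod p] W)
    (hg : ∀ c : ZMod p, ∃ x, g x ≠ c • x) :
    ∃ w : W, w ≠ 0 ∧ ∀ h : W ≃ₗ[ZMod p] W, h * g = g * h → (∀ c : ZMod p, ∃ x, h x ≠ c • x) →
      ∀ c : ZMod p, h w ≠ c • w := by
  obtain ⟨w, hw, hsp⟩ := GLin_cyc hW g hg
  refine ⟨w, ?_, ?_⟩
  · intro h
    apply hw 0
    rw [h, map_zero, smul_zero]
  · intro h hgh hsc c hc
    obtain ⟨a, b, hab⟩ := GLin_cent hW g h hg hgh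
    have hb : b ≠ 0 := by
      intro hb
      obtain ⟨x, hx⟩ := hsc a
      apply hx
      rw [hab, hb, zero_smul, add_zero]
    apply hw (b⁻¹ * (c - a))
    have h1 := hab w
    rw [hc] at h1
    have h2 : (c - a) • w = b • g w := by
      rw [sub_smul, h1]
      abel
    rw [mul_smul, h2, smul_smul, inv_mul_cancel₀ hb, one_smul]

/-- MODULE GABL2. A commutative group has a regular vector. PROOF: if all elements of `H` are scalars take any `w ≠ 0`
(`c • w = w` gives `c = 1`). Otherwise let `g ∈ H` be non-scalar and `w` from `GAbl_vec`. If `h ∈ H`,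
`h w = w = 1 • w` then `h` is a scalar by `GAbl_vec`, `h x = c • x`, `c • w = w`, so `c = 1`. -/
theorem GAbl_reg {p : ℕ} [Fact p.Prime] {W : Type} [AddCommGroup W] [Module (ZMod p) W]
    [Finite W] (hW : Nat.card W = p ^ 2) (H : Subgroup (W ≃ₗ[ZMod p] W))
    (hc : ∀ g ∈ H, ∀ h ∈ H, g * h = h * g) : ∃ w : W, w ≠ 0 ∧ ∀ T ∈ H, T w = w → T = 1 := by
  have hp1 : 1 < p := (Fact.out : p.Prime).one_lt
  have : Nontrivial W := by
    rw [← Finite.one_lt_card_iff_nontrivial, hW]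
    exact one_lt_pow₀ hp1 two_ne_zero
  by_cases hall : ∀ T ∈ H, ∃ c : ZMod p, ∀ x, T x = c • x
  · obtain ⟨w, hw⟩ := exists_ne (0 : W)
    refine ⟨w, hw, fun T hT hTw => ?_⟩
    obtain ⟨c, hc⟩ := hall T hT
    have h1 : (c - 1) • w = 0 := by
      rw [sub_smul, one_smul, ← hc, hTw, sub_self]
    have h2 : c = 1 := sub_eq_zero.1 ((smul_eq_zero.1 h1).resolve_right hw)
    apply LinearEquiv.ext
    intro x
    rw [hc, h2, one_smul]
    rfl
  · push Not at hall
    obtain ⟨g, hg, hgs⟩ := hall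
    obtain ⟨w, hw, hvec⟩ := GAbl_vec hW g hgs
    refine ⟨w, hw, fun T hT hTw => ?_⟩
    by_cases hTs : ∀ c : ZMod p, ∃ x, T x ≠ c • x
    · exfalso
      exact hvec T (hc T hT g hg) hTs 1 (by rw [one_smul, hTw])
    · push Not at hTs
      obtain ⟨c, hc⟩ := hTs
      have h1 : (c - 1) • w = 0 := by
        rw [sub_smul, one_smul, ← hc, hTw, sub_self]
      have h2 : c = 1 := sub_eq_zero.1 ((smul_eq_zero.1 h1).resolve_right hw)
      apply LinearEquiv.ext
      intro x
      rw [hc, h2, one_smul]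
      rfl

/-- MODULE GABL3. A coprime group which preserves a line is commutative. `v ≠ 0` spans the line. PROOF: for `S, T ∈ H` let
`K = S T S⁻¹ T⁻¹`. `K v = v`. Choose `w` outside `span v` (`|W| = p ^ 2 > p`); then `v`, `w` span `W`; `T w = β(T) • w + (multiple of v)`
for all `T ∈ H`, and `β` is multiplicative, so `K w - w ∈ span v`. So `K x - x ∈ span v` for all `x` and
`K (K x - x) = K x - x`: `K = 1` by `GUni_main`. -/
theorem GAbl_line {p : ℕ} [Fact p.Prime] {W : Type} [AddCommGroup W] [Module (ZMod p) W]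
    [Finite W] (hW : Nat.card W = p ^ 2) (H : Subgroup (W ≃ₗ[ZMod p] W)) [Finite H]
    (hH : ¬ p ∣ Nat.card H) (v : W) (hv : v ≠ 0) (hl : ∀ T ∈ H, ∃ c : ZMod p, T v = c • v) :
    ∀ g ∈ H, ∀ h ∈ H, g * h = h * g := by
  intro S hS T hT
  obtain ⟨w, hw⟩ := gabl_out hW v
  have hsp := gabl_span hW v w hv hw
  have key : ∀ T ∈ H, ∃ β : ZMod p, ∀ x, ∃ c : ZMod p, T x = β • x + c • v := by
    intro T hT
    obtain ⟨γ, hγ⟩ := hl T hT
    obtain ⟨a, β, hab⟩ := hsp (T w)
    refine ⟨β, fun x => ?_⟩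
    obtain ⟨a', b', rfl⟩ := hsp x
    refine ⟨a' * γ + b' * a - β * a', ?_⟩
    rw [map_add, map_smul, map_smul, hγ, hab]
    module
  obtain ⟨βS, hβS⟩ := key S hS
  obtain ⟨βT, hβT⟩ := key T hT
  obtain ⟨γS, hγS⟩ := hl S hS
  obtain ⟨γT, hγT⟩ := hl T hT
  set K : W ≃ₗ[ZMod p] W := (S * T) * (T * S)⁻¹ with hK
  have hKH : K ∈ H := H.mul_mem (H.mul_mem hS hT) (H.inv_mem (H.mul_mem hT hS))
  have hTS : ∀ x, (T * S) ((T * S)⁻¹ x) = x := fun x => (T * S).apply_symm_apply x
  have hdiff : ∀ x, ∃ c : ZMod p, K x - x = c • v := by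
    intro x
    set z := (T * S)⁻¹ x with hz
    have h1 : K x = S (T z) := rfl
    have h2 : x = T (S z) := (hTS x).symm
    obtain ⟨c1, hc1⟩ := hβT z
    obtain ⟨c2, hc2⟩ := hβS z
    obtain ⟨c3, hc3⟩ := hβS (T z)
    obtain ⟨c4, hc4⟩ := hβT (S z)
    refine ⟨βS * c1 + c3 - (βT * c2 + c4), ?_⟩
    rw [h1, h2, hc3, hc4, hc1, hc2]
    module
  have hKv : K v = v := by
    have h1 : ∀ c : ZMod p, T (S v) = (γS * γT) • v := by
      intro c
      rw [hγS, map_smul, hγT, smul_smul]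
    have h2 : S (T v) = (γS * γT) • v := by
      rw [hγT, map_smul, hγS, smul_smul, mul_comm]
    have h3 : K (T (S v)) = S (T v) := by
      change S (T ((T * S)⁻¹ ((T * S) v))) = S (T v)
      have h4 : (T * S)⁻¹ ((T * S) v) = v := (T * S).symm_apply_apply v
      rw [h4]
    rw [h1 0, h2, map_smul] at h3
    have h5 : γS * γT ≠ 0 := by
      intro h6
      have h7 := h1 0
      rw [h6, zero_smul] at h7
      have h8 : S v = 0 := T.map_eq_zero_iff.1 h7
      exact hv (S.map_eq_zero_iff.1 h8)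
    exact smul_right_injective W h5 h3
  have hK1 : K = 1 := by
    apply LinearEquiv.ext
    intro x
    refine GUni_main H hH K hKH x ?_
    obtain ⟨c, hc⟩ := hdiff x
    rw [hc, map_smul, hKv]
  rw [hK] at hK1
  exact mul_inv_eq_one.1 hK1

end Pool.Agent.KBR
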