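import Pool.Agent.KBR.GDefs

/-! The linear group induced on a section `P / U` of exponent `p` of a commutative group. -/

namespace Pool.Agent.KBR

/-- The section as an additive group. -/
private abbrev BriW {D : Type} [CommGroup D] (P U : Subgroup D) : Type :=
  Additive (P ⧸ U.subgroupOf P)

/-- MODULE GBRI. PROOF: `W = Additive (P ⧸ U.subgroupOf P)`; `p • y = 0` for all `y : W` by `hU`, so `W` is a
module over `ZMod p` (`AddCommGroup.zmodModule`). `q x` = the class of `x` for `x ∈ P` (and `0` for `x ∉ P`).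
Every `φ ∈ E` preserves `P` and `U` (`hEP`, `hEU`; by finiteness `φ` maps `P` onto `P`, `U` onto `U`), so it induces an automorphism of
the group `P ⧸ U.subgroupOf P`, which is `ZMod p`-linear on `W` (`AddMonoidHom.toZModLinearMap`). This gives a
homomorphism `E →* (W ≃ₗ[ZMod p] W)`; `H` is its range, `|H|` divides `|E|`. `|P| = |W| * |U|` (Lagrange). -/
theorem Bri_main {p : ℕ} [Fact p.Prime] {D : Type} [CommGroup D] [Finite D] (P U : Subgroup D)
    (hUP : U ≤ P) (hU : ∀ x ∈ P, x ^ p ∈ U) (E : Subgroup (MulAut D))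
    (hEP : ∀ φ ∈ E, ∀ x ∈ P, φ x ∈ P) (hEU : ∀ φ ∈ E, ∀ x ∈ U, φ x ∈ U) :
    ∃ (W : Type) (_ : AddCommGroup W) (_ : Module (ZMod p) W) (_ : Finite W) (q : D → W)
      (H : Subgroup (W ≃ₗ[ZMod p] W)) (_ : Finite H),
      (∀ x ∈ P, ∀ y ∈ P, q (x * y) = q x + q y) ∧ (∀ w, ∃ x ∈ P, q x = w) ∧
      (∀ x ∈ P, q x = 0 ↔ x ∈ U) ∧ (∀ x ∈ P, ∀ k : ℕ, q (x ^ k) = (k : ZMod p) • q x) ∧
      Nat.card P = Nat.card W * Nat.card U ∧ Nat.card H ∣ Nat.card E ∧
      (∀ φ ∈ E, ∃ T ∈ H, ∀ x ∈ P, T (q x) = q (φ x)) ∧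
      (∀ T ∈ H, ∃ φ ∈ E, ∀ x ∈ P, T (q x) = q (φ x)) := by
  classical
  have hp0 : ∀ w : BriW P U, p • w = 0 := by
    intro w
    obtain ⟨x, hx⟩ := QuotientGroup.mk_surjective (s := U.subgroupOf P) (Additive.toMul w)
    apply Additive.toMul.injective
    change (Additive.toMul w) ^ p = 1
    rw [← hx, ← QuotientGroup.mk_pow, QuotientGroup.eq_one_iff]
    exact hU x.1 x.2
  have iM : Module (ZMod p) (BriW P U) := AddCommGroup.zmodModule hp0
  have iF : Finite (BriW P U) := inferInstanceAs (Finite (P ⧸ U.subgroupOf P))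
  let q : D → BriW P U := fun x => if h : x ∈ P then
    Additive.ofMul (QuotientGroup.mk (s := U.subgroupOf P) ⟨x, h⟩) else 0
  have hq : ∀ (x : D) (h : x ∈ P),
      q x = Additive.ofMul (QuotientGroup.mk (s := U.subgroupOf P) ⟨x, h⟩) :=
    fun x h => dif_pos h
  -- the restriction to `P`
  let r : E → (P →* P) := fun φ =>
    { toFun := fun x => ⟨φ.1 x.1, hEP φ.1 φ.2 x.1 x.2⟩
      map_one' := Subtype.ext (map_one φ.1)
      map_mul' := fun a b => Subtype.ext (map_mul φ.1 a.1 b.1) }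
  have hr : ∀ φ : E, U.subgroupOf P ≤ (U.subgroupOf P).comap (r φ) := by
    intro φ x hx
    exact hEU φ.1 φ.2 x.1 hx
  let t : E → (BriW P U →ₗ[ZMod p] BriW P U) := fun φ =>
    (MonoidHom.toAdditive (QuotientGroup.map (U.subgroupOf P) (U.subgroupOf P) (r φ)
      (hr φ))).toZModLinearMap p
  have ht : ∀ (φ : E) (x : D), x ∈ P → t φ (q x) = q (φ.1 x) := by
    intro φ x hx
    rw [hq x hx, hq (φ.1 x) (hEP φ.1 φ.2 x hx)]
    rfl
  have hsurj : ∀ w : BriW P U, ∃ x ∈ P, q x = w := by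
    intro w
    obtain ⟨x, hx⟩ := QuotientGroup.mk_surjective (s := U.subgroupOf P) (Additive.toMul w)
    refine ⟨x.1, x.2, ?_⟩
    rw [hq x.1 x.2]
    exact congrArg Additive.ofMul hx
  let Fm : E →* Module.End (ZMod p) (BriW P U) :=
    { toFun := t
      map_one' := by
        apply LinearMap.ext
        intro w
        obtain ⟨x, hx, rfl⟩ := hsurj w
        rw [ht 1 x hx]
        rfl
      map_mul' := by
        intro a b
        apply LinearMap.ext
        intro w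
        obtain ⟨x, hx, rfl⟩ := hsurj w
        rw [Module.End.mul_apply, ht (a * b) x hx, ht b x hx, ht a _ (hEP b.1 b.2 x hx)]
        rfl }
  let Fe : E →* (BriW P U ≃ₗ[ZMod p] BriW P U) :=
    (LinearMap.GeneralLinearGroup.generalLinearEquiv (ZMod p) (BriW P U)).toMonoidHom.comp Fm.toHomUnits
  have hFe : ∀ (φ : E) (w : BriW P U), Fe φ w = t φ w := fun φ w => rfl
  have iE : Finite (BriW P U ≃ₗ[ZMod p] BriW P U) :=
    Finite.of_injective (fun T : BriW P U ≃ₗ[ZMod p] BriW P U => (T : BriW P U → BriW P U)) DFunLike.coe_injective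
  refine ⟨BriW P U, inferInstance, iM, iF, q, Fe.range, inferInstance, ?_, hsurj, ?_, ?_, ?_, ?_, ?_, ?_⟩
  · intro x hx y hy
    rw [hq x hx, hq y hy, hq (x * y) (P.mul_mem hx hy)]
    rfl
  · intro x hx
    rw [hq x hx]
    constructor
    · intro h
      have h1 : QuotientGroup.mk (s := U.subgroupOf P) ⟨x, hx⟩ = 1 := Additive.ofMul.injective h
      rw [QuotientGroup.eq_one_iff] at h1
      exact h1
    · intro h
      apply congrArg Additive.ofMul (a₂ := (1 : P ⧸ U.subgroupOf P))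
      rw [QuotientGroup.eq_one_iff]
      exact h
  · intro x hx k
    rw [Nat.cast_smul_eq_nsmul, hq x hx, hq (x ^ k) (P.pow_mem hx k)]
    rfl
  · rw [Subgroup.card_eq_card_quotient_mul_card_subgroup (U.subgroupOf P)]
    congr 1
    exact Nat.card_congr (Subgroup.subgroupOfEquivOfLe hUP).toEquiv
  · exact Subgroup.card_range_dvd Fe
  · intro φ hφ
    exact ⟨Fe ⟨φ, hφ⟩, ⟨_, rfl⟩, fun x hx => ht ⟨φ, hφ⟩ x hx⟩
  · rintro _ ⟨φ, rfl⟩
    exact ⟨φ.1, φ.2, fun x hx => ht φ x hx⟩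

end Pool.Agent.KBR
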