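import Mathlib

/-! Finite groups in which the centralizers of nontrivial elements are commutative. -/

namespace Pool.Agent.KBR

private theorem gcnt_card_ne {α : Type*} [Finite α] (a : α) :
    Nat.card {x : α // x ≠ a} = Nat.card α - 1 := by
  classical
  have := Fintype.ofFinite α
  rw [Nat.card_eq_fintype_card, Nat.card_eq_fintype_card]
  exact Set.card_ne_eq a

/-- MODULE GCNT1. The conjugates of the centralizer of `g`. `Z` is the centralizer of `g ≠ 1`, commutative by
`hP`; `N` is the set of the `t` with `t g t⁻¹ ∈ Z`. PROOF: for `x : H`, `c ∈ Z`, `c ≠ 1` let `f (x, c) = x c x⁻¹`; `U` is its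
image (the elements `h ≠ 1` which commute with some `x g x⁻¹`: `x⁻¹ h x` commutes with `g`). The fibre over
`h = x₀ c₀ x₀⁻¹` is `{(x₀ n, n⁻¹ c₀ n) | n ∈ N}`: if `x c x⁻¹ = x₀ c₀ x₀⁻¹`, put `n = x₀⁻¹ x`,
`n c n⁻¹ = c₀ ∈ Z`. Elements of `H` commuting with `c ≠ 1` or with `g` are the same (`hP`: `Z` =
centralizer of `c`). So `n` maps the centralizer of `c` onto that of `c₀`: `n Z n⁻¹ = Z`, `n ∈ N`; conversely
for `n ∈ N`: `n g n⁻¹ ∈ Z`, `n g n⁻¹ ≠ 1`, so the centralizer `n Z n⁻¹` of `n g n⁻¹` is `Z`. So all fibres have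
`|N|` elements. -/
theorem GCnt_union {H : Type} [Group H] [Finite H]
    (hP : ∀ g : H, g ≠ 1 → ∀ h k, h * g = g * h → k * g = g * k → h * k = k * h)
    (g : H) (hg : g ≠ 1) :
    Nat.card {h : H // h ≠ 1 ∧ ∃ x : H, h * (x * g * x⁻¹) = (x * g * x⁻¹) * h} *
        Nat.card {t : H // (t * g * t⁻¹) * g = g * (t * g * t⁻¹)} =
      Nat.card H * (Nat.card {t : H // t * g = g * t} - 1) := by
  classical
  rw [← gcnt_card_ne (⟨1, by rw [one_mul, mul_one]⟩ : {t : H // t * g = g * t}), ← Nat.card_prod,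
    ← Nat.card_prod]
  have hx : ∀ h : {h : H // h ≠ 1 ∧ ∃ x : H, h * (x * g * x⁻¹) = (x * g * x⁻¹) * h},
      ∃ x : H, Commute (x⁻¹ * h.1 * x) g := by
    rintro ⟨h, h1, x, hx⟩
    refine ⟨x, ?_⟩
    have h2 : Commute h (x * g * x⁻¹) := hx
    rw [← Commute.conj_iff x]
    have h3 : x * (x⁻¹ * h * x) * x⁻¹ = h := by group
    rw [h3]
    exact h2
  choose X hX using hx
  have hm : ∀ (h : {h : H // h ≠ 1 ∧ ∃ x : H, h * (x * g * x⁻¹) = (x * g * x⁻¹) * h})
      (n : {t : H // (t * g * t⁻¹) * g = g * (t * g * t⁻¹)}),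
      (n.1⁻¹ * ((X h)⁻¹ * h.1 * X h) * n.1) * g = g * (n.1⁻¹ * ((X h)⁻¹ * h.1 * X h) * n.1) := by
    intro h n
    have h1 : Commute ((X h)⁻¹ * h.1 * X h) (n.1 * g * n.1⁻¹) := hP g hg _ _ (hX h) n.2
    have h2 : Commute (n.1⁻¹ * ((X h)⁻¹ * h.1 * X h) * n.1) g := by
      rw [← Commute.conj_iff n.1]
      have h3 : n.1 * (n.1⁻¹ * ((X h)⁻¹ * h.1 * X h) * n.1) * n.1⁻¹ = (X h)⁻¹ * h.1 * X h := by
        group
      rw [h3]
      exact h1
    exact h2
  have hne : ∀ (h : {h : H // h ≠ 1 ∧ ∃ x : H, h * (x * g * x⁻¹) = (x * g * x⁻¹) * h})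
      (n : H), n⁻¹ * ((X h)⁻¹ * h.1 * X h) * n ≠ 1 := by
    intro h n h1
    apply h.2.1
    have h2 : h.1 = X h * (n * (n⁻¹ * ((X h)⁻¹ * h.1 * X h) * n) * n⁻¹) * (X h)⁻¹ := by group
    rw [h2, h1]
    group
  refine Nat.card_congr (Equiv.ofBijective (fun y => (X y.1 * y.2.1,
    ⟨⟨y.2.1⁻¹ * ((X y.1)⁻¹ * y.1.1 * X y.1) * y.2.1, hm y.1 y.2⟩, fun h =>
      hne y.1 y.2.1 (congrArg Subtype.val h)⟩)) ⟨?_, ?_⟩)
  · rintro ⟨h, n⟩ ⟨h', n'⟩ e
    have e1 : X h * n.1 = X h' * n'.1 := congrArg Prod.fst e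
    have e2 : n.1⁻¹ * ((X h)⁻¹ * h.1 * X h) * n.1 = n'.1⁻¹ * ((X h')⁻¹ * h'.1 * X h') * n'.1 :=
      congrArg (fun z : H × {z : {t : H // t * g = g * t} // z ≠ ⟨1, by rw [one_mul, mul_one]⟩} =>
        z.2.1.1) e
    have e3 : h.1 = h'.1 := by
      have a1 : h.1 = (X h * n.1) * (n.1⁻¹ * ((X h)⁻¹ * h.1 * X h) * n.1) * (X h * n.1)⁻¹ := by
        group
      have a2 : h'.1 = (X h' * n'.1) * (n'.1⁻¹ * ((X h')⁻¹ * h'.1 * X h') * n'.1) *
          (X h' * n'.1)⁻¹ := by
        group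
      rw [a1, e1, e2, ← a2]
    have e4 : h = h' := Subtype.ext e3
    subst e4
    have e5 : n = n' := Subtype.ext (mul_left_cancel e1)
    rw [e5]
  · rintro ⟨x, ⟨⟨c, hc⟩, hc1⟩⟩
    have hc2 : c ≠ 1 := fun h => hc1 (Subtype.ext h)
    have hcc : Commute c g := hc
    have h1 : Commute (x * c * x⁻¹) (x * g * x⁻¹) := (Commute.conj_iff x).2 hcc
    have h2 : x * c * x⁻¹ ≠ 1 := by
      intro h
      apply hc2
      rw [mul_inv_eq_one] at h
      exact mul_left_cancel (h.trans (mul_one x).symm)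
    let h : {h : H // h ≠ 1 ∧ ∃ x : H, h * (x * g * x⁻¹) = (x * g * x⁻¹) * h} :=
      ⟨x * c * x⁻¹, h2, x, h1⟩
    have h3 : (X h)⁻¹ * h.1 * X h = ((X h)⁻¹ * x) * c * ((X h)⁻¹ * x)⁻¹ := by
      show (X h)⁻¹ * (x * c * x⁻¹) * X h = _
      group
    have h4 : Commute (((X h)⁻¹ * x) * c * ((X h)⁻¹ * x)⁻¹) (((X h)⁻¹ * x) * g * ((X h)⁻¹ * x)⁻¹) :=
      (Commute.conj_iff _).2 hcc
    have h5 : Commute (((X h)⁻¹ * x) * c * ((X h)⁻¹ * x)⁻¹) g := by
      rw [← h3]
      exact hX h
    have h6 : ((X h)⁻¹ * x) * c * ((X h)⁻¹ * x)⁻¹ ≠ 1 := by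
      intro h
      apply hc2
      rw [mul_inv_eq_one] at h
      exact mul_left_cancel (h.trans (mul_one _).symm)
    have h7 := hP _ h6 _ _ h4.symm h5.symm
    refine ⟨(h, ⟨(X h)⁻¹ * x, h7⟩), ?_⟩
    refine Prod.ext ?_ ?_
    · show X h * ((X h)⁻¹ * x) = x
      group
    · apply Subtype.ext
      apply Subtype.ext
      show ((X h)⁻¹ * x)⁻¹ * ((X h)⁻¹ * h.1 * X h) * ((X h)⁻¹ * x) = c
      rw [h3]
      group

/-- MODULE GCNT2. `|N| ≤ 2 |Z|`, and if `N ≠ Z` then `|N| = 2 |Z|` and `|Z|` is odd. PROOF: let `t ∈ N`, `t ∉ Z`. By `hQ`: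
`t g t⁻¹ = g⁻¹`, `t * t = 1`. If `t' ∈ N`, `t' ∉ Z` too then `t⁻¹ t'` commutes with `g`, so `N` is the disjoint union of
`Z` and `t Z` (`t z` for `z ∈ Z` is in `N`, not in `Z`): `|N| = 2 |Z|`. If `|Z|` is even, `Z` (a subgroup) has an element
`z` of order `2` (Cauchy). The centralizer of `z` is `Z` (`hP`), `t z t⁻¹` commutes with `t g t⁻¹ = g⁻¹`,
so with `g`, so with `z`; `hQ` for `z`: `t z = z t` or `t z t⁻¹ = z⁻¹ = z`: in both cases `t` commutes with `z`, so
with `g` (`hP`), contradiction. -/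
theorem GCnt_norm {H : Type} [Group H] [Finite H]
    (hP : ∀ g : H, g ≠ 1 → ∀ h k, h * g = g * h → k * g = g * k → h * k = k * h)
    (hQ : ∀ g : H, g ≠ 1 → ∀ t, (t * g * t⁻¹) * g = g * (t * g * t⁻¹) →
      t * g = g * t ∨ (t * t = 1 ∧ t * g * t⁻¹ = g⁻¹))
    (g : H) (hg : g ≠ 1) :
    Nat.card {t : H // (t * g * t⁻¹) * g = g * (t * g * t⁻¹)} = Nat.card {t : H // t * g = g * t} ∨
      (Nat.card {t : H // (t * g * t⁻¹) * g = g * (t * g * t⁻¹)} =
        2 * Nat.card {t : H // t * g = g * t} ∧ Odd (Nat.card {t : H // t * g = g * t})) := by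
  classical
  have hZN : ∀ t : H, t * g = g * t → (t * g * t⁻¹) * g = g * (t * g * t⁻¹) := by
    intro t ht
    rw [ht, mul_inv_cancel_right]
  by_cases hall : ∀ t : H, (t * g * t⁻¹) * g = g * (t * g * t⁻¹) → t * g = g * t
  · left
    exact Nat.card_congr (Equiv.subtypeEquivRight fun t => ⟨hall t, hZN t⟩)
  · right
    push Not at hall
    obtain ⟨t, htN, htZ⟩ := hall
    obtain ⟨htt, htg⟩ := (hQ g hg t htN).resolve_left htZ
    constructor
    · have hm : ∀ z : {t : H // t * g = g * t},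
          ((t * z.1) * g * (t * z.1)⁻¹) * g = g * ((t * z.1) * g * (t * z.1)⁻¹) := by
        intro z
        have h1 : (t * z.1) * g * (t * z.1)⁻¹ = g⁻¹ := by
          rw [mul_assoc t, z.2, mul_inv_rev, ← htg]
          group
        rw [h1, inv_mul_cancel, mul_inv_cancel]
      have hz : ∀ z : {t : H // t * g = g * t}, ¬ (t * z.1) * g = g * (t * z.1) := by
        intro z h1
        apply htZ
        rw [mul_assoc, z.2, ← mul_assoc, ← mul_assoc] at h1
        exact mul_right_cancel h1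
      have hb : Function.Bijective (fun y : {t : H // t * g = g * t} ⊕ {t : H // t * g = g * t} =>
          (Sum.elim (fun z => ⟨z.1, hZN z.1 z.2⟩) (fun z => ⟨t * z.1, hm z⟩) y :
            {t : H // (t * g * t⁻¹) * g = g * (t * g * t⁻¹)})) := by
        constructor
        · rintro (z | z) (z' | z') e
          · have e1 : z.1 = z'.1 := congrArg
              (Subtype.val : {t : H // (t * g * t⁻¹) * g = g * (t * g * t⁻¹)} → H) e
            rw [Subtype.ext e1]
          · have e1 : z.1 = t * z'.1 := congrArg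
              (Subtype.val : {t : H // (t * g * t⁻¹) * g = g * (t * g * t⁻¹)} → H) e
            exact absurd (e1 ▸ z.2) (hz z')
          · have e1 : t * z.1 = z'.1 := congrArg
              (Subtype.val : {t : H // (t * g * t⁻¹) * g = g * (t * g * t⁻¹)} → H) e
            exact absurd (e1 ▸ z'.2) (hz z)
          · have e1 : t * z.1 = t * z'.1 := congrArg
              (Subtype.val : {t : H // (t * g * t⁻¹) * g = g * (t * g * t⁻¹)} → H) e
            rw [Subtype.ext (mul_left_cancel e1)]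
        · rintro ⟨s, hs⟩
          by_cases hsZ : s * g = g * s
          · exact ⟨Sum.inl ⟨s, hsZ⟩, rfl⟩
          · obtain ⟨-, hsg⟩ := (hQ g hg s hs).resolve_left hsZ
            refine ⟨Sum.inr ⟨t⁻¹ * s, ?_⟩, ?_⟩
            · have h1 : t⁻¹ * g⁻¹ * t = g := by rw [← htg]; group
              have h2 : s * g = g⁻¹ * s := by rw [← hsg]; group
              rw [mul_assoc, h2]
              have h3 : t⁻¹ * (g⁻¹ * s) = (t⁻¹ * g⁻¹ * t) * (t⁻¹ * s) := by group
              rw [h3, h1]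
            · apply Subtype.ext
              show t * (t⁻¹ * s) = s
              group
      rw [← Nat.card_congr (Equiv.ofBijective _ hb), Nat.card_sum, two_mul]
    · by_contra hodd
      rw [Nat.not_odd_iff_even] at hodd
      have hcard : Nat.card {t : H // t * g = g * t} =
          Nat.card (Subgroup.centralizer ({g} : Set H)) := by
        refine Nat.card_congr (Equiv.subtypeEquivRight fun t => ?_)
        rw [Subgroup.mem_centralizer_singleton_iff]
      rw [hcard] at hodd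
      obtain ⟨z, hz⟩ := exists_prime_orderOf_dvd_card' 2 hodd.two_dvd
      have hz1 : (z : H) * g = g * z := Subgroup.mem_centralizer_singleton_iff.1 z.2
      have hz2 : (z : H) * z = 1 := by
        have h1 := pow_orderOf_eq_one z
        rw [hz, pow_two] at h1
        exact congrArg Subtype.val h1
      have hz3 : (z : H) ≠ 1 := by
        intro h1
        have h2 : z = 1 := Subtype.ext h1
        rw [h2, orderOf_one] at hz
        omega
      have hz4 : (z : H)⁻¹ = z := inv_eq_of_mul_eq_one_left hz2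
      have h1 : Commute (t * (z : H) * t⁻¹) (t * g * t⁻¹) :=
        (Commute.conj_iff t).2 hz1
      rw [htg] at h1
      have h2 : Commute (t * (z : H) * t⁻¹) g := by
        have h3 := h1.inv_right
        rwa [inv_inv] at h3
      have h3 := hP g hg _ _ h2 hz1
      have h4 : t * (z : H) = z * t := by
        rcases hQ _ hz3 t h3 with h4 | ⟨-, h4⟩
        · exact h4
        · rw [hz4, mul_inv_eq_iff_eq_mul] at h4
          exact h4
      exact htZ (hP _ hz3 t g h4 hz1.symm)

private theorem gcnt_meet {H : Type} [Group H]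
    (hP : ∀ g : H, g ≠ 1 → ∀ h k, h * g = g * h → k * g = g * k → h * k = k * h)
    {g g' : H} (hg : g ≠ 1) {h : H} (h1 : h ≠ 1)
    {x y : H} (hx : h * (x * g * x⁻¹) = (x * g * x⁻¹) * h)
    (hy : h * (y * g' * y⁻¹) = (y * g' * y⁻¹) * h) (k : H)
    (hk : Commute k (x * g * x⁻¹)) : Commute k (y * g' * y⁻¹) := by
  have h2 : Commute (x * g * x⁻¹) (y * g' * y⁻¹) := hP h h1 _ _ hx.symm hy.symm
  have h3 : x * g * x⁻¹ ≠ 1 := by
    intro h
    apply hg
    rw [mul_inv_eq_one] at h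
    exact mul_left_cancel (h.trans (mul_one x).symm)
  exact hP _ h3 _ _ hk h2.symm

private theorem gcnt_sub {H : Type} [Group H]
    (hP : ∀ g : H, g ≠ 1 → ∀ h k, h * g = g * h → k * g = g * k → h * k = k * h)
    {g g' : H} (hg : g ≠ 1) {h : H} (h1 : h ≠ 1)
    {x y : H} (hx : h * (x * g * x⁻¹) = (x * g * x⁻¹) * h)
    (hy : h * (y * g' * y⁻¹) = (y * g' * y⁻¹) * h) (k : H)
    (hk : ∃ w, k * (w * g * w⁻¹) = (w * g * w⁻¹) * k) :
    ∃ w, k * (w * g' * w⁻¹) = (w * g' * w⁻¹) * k := by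
  obtain ⟨w, hw⟩ := hk
  have h2 : Commute k (w * g * w⁻¹) := hw
  have h3 : w * g * w⁻¹ = (w * x⁻¹) * (x * g * x⁻¹) * (w * x⁻¹)⁻¹ := by group
  have h4 : k = (w * x⁻¹) * ((w * x⁻¹)⁻¹ * k * (w * x⁻¹)) * (w * x⁻¹)⁻¹ := by group
  rw [h3, h4, Commute.conj_iff] at h2
  have h5 := gcnt_meet hP hg h1 hx hy _ h2
  rw [← Commute.conj_iff (w * x⁻¹), ← h4] at h5
  refine ⟨w * x⁻¹ * y, ?_⟩
  have h6 : w * x⁻¹ * y * g' * (w * x⁻¹ * y)⁻¹ = w * x⁻¹ * (y * g' * y⁻¹) * (w * x⁻¹)⁻¹ := by group
  rw [h6]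
  exact h5

private theorem gcnt_conj {H : Type} [Group H] (g x : H) :
    Nat.card {t : H // Commute t (x * g * x⁻¹)} = Nat.card {t : H // t * g = g * t} := by
  refine Nat.card_congr
    { toFun := fun t => ⟨x⁻¹ * t.1 * x, ?_⟩
      invFun := fun t => ⟨x * t.1 * x⁻¹, (Commute.conj_iff x).2 t.2⟩
      left_inv := fun t => Subtype.ext (by
        show x * (x⁻¹ * t.1 * x) * x⁻¹ = t.1
        group)
      right_inv := fun t => Subtype.ext (by
        show x⁻¹ * (x * t.1 * x⁻¹) * x = t.1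
        group) }
  have h1 : x * (x⁻¹ * t.1 * x) * x⁻¹ = t.1 := by group
  have h2 : Commute (x⁻¹ * t.1 * x) g := by
    rw [← Commute.conj_iff x, h1]
    exact t.2
  exact h2

private theorem gcnt_z {H : Type} [Group H]
    (hP : ∀ g : H, g ≠ 1 → ∀ h k, h * g = g * h → k * g = g * k → h * k = k * h)
    {g g' : H} (hg : g ≠ 1) (hg' : g' ≠ 1) {h : H} (h1 : h ≠ 1)
    {x y : H} (hx : h * (x * g * x⁻¹) = (x * g * x⁻¹) * h)
    (hy : h * (y * g' * y⁻¹) = (y * g' * y⁻¹) * h) :
    Nat.card {t : H // t * g = g * t} = Nat.card {t : H // t * g' = g' * t} := by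
  rw [← gcnt_conj g x, ← gcnt_conj g' y]
  exact Nat.card_congr (Equiv.subtypeEquivRight fun t =>
    ⟨gcnt_meet hP hg h1 hx hy t, gcnt_meet hP hg' h1 hy hx t⟩)

private theorem gcnt_arith (K u v a b : ℕ) (h1 : u * (2 * (3 + a)) = K * (a + 2))
    (h2 : v * (2 + b) = K * (b + 1)) (hsum : u + v + 1 = K) : 2 + b = 2 ∧ K = 2 * (3 + a) := by
  have h3 : (K : ℤ) * (a * b + 2 * b) + 2 * (a + 3) * (b + 2) = 2 * K := by
    have h1' : (u : ℤ) * (2 * (3 + a)) = K * (a + 2) := by exact_mod_cast h1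
    have h2' : (v : ℤ) * (2 + b) = K * (b + 1) := by exact_mod_cast h2
    have h3' : (u : ℤ) + v + 1 = K := by exact_mod_cast hsum
    linear_combination (-(b + 2) : ℤ) * h1' - 2 * (a + 3) * h2' + 2 * (a + 3) * (b + 2) * h3'
  have h4 : K * (a * b + 2 * b) + 2 * (a + 3) * (b + 2) = 2 * K := by exact_mod_cast h3
  have hb : b = 0 := by
    rcases Nat.eq_zero_or_pos b with h | h
    · exact h
    · exfalso
      have h5 : 2 * K ≤ K * (a * b + 2 * b) := by
        have h6 : 2 ≤ a * b + 2 * b := by nlinarith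
        nlinarith
      have h7 : 0 < 2 * (a + 3) * (b + 2) := by positivity
      omega
  subst hb
  simp only [mul_zero, add_zero, zero_add] at h4
  constructor
  · rfl
  · omega

/-- MODULE GCNT3. PROOF: write `z g`, `n g`, `U g` (a set of `u g` elements) for the numbers and sets in
`GCnt_union`; `u g * n g = |H| (z g - 1)`, `z g ≥ 2` (`1`, `g` commute with `g`). If two sets `U g`, `U g'` meet
then `g` and `g'` have conjugate centralizers (`hP`), so `U g = U g'`, `z g = z g'`, `n g = n g'`.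
If `n g = z g`: `2 * u g ≥ |H|`. If `n g = 2 z g`, `z g` odd, `z g ≥ 3`: `3 * u g ≥ |H|`.
CASE A: all `n g = z g`. If some `g ≠ 1` has `z g = |H|` then `g` is central and `H` is commutative by `hP`. Otherwise, if `H` is not
trivial, take `g ≠ 1`: `u g * z g = |H| (z g - 1)` and `z g < |H|` give `u g < |H| - 1`, so there is `h ≠ 1`, `h ∉ U g`;
`U g`, `U h` are disjoint, do not contain `1`, and have together at least `|H|` elements: contradiction.
CASE B: `n g = 2 z g` for some `g`: let `t ∈ N`, `t ∉ Z` for this `g`; `t * t = 1`, `t ≠ 1`, so `z t` is even (`t` is in its own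
centralizer, Lagrange), so `n t = z t`, and `U t`, `U g` are disjoint. Any `h ∉ U g ∪ U t`, `h ≠ 1` would give a
third disjoint set with at least `|H| / 3` elements: `1/2 + 1/3 + 1/3 > 1`. So `u g + u t = |H| - 1`. With
`z = z g`, `y = z t`: `|H| (z - 1) / (2 z) + |H| (y - 1) / y = |H| - 1`, so
`|H| / y = 1 + |H| / 2 - |H| / (2 z)...`: precisely `|H| * y * (z + 1) ... `; in the form
`1 / y = 1 / |H| + 1 / 2 - 1 / (2 z) > 1 / 3` so `y = 2` and `|H| = 2 z`. `C` = the centralizer of `g`, index `2`.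
For `t' ∉ C`: `N` has `2 z = |H|` elements so `t' ∈ N`; `hQ` for `g`: `t' * t' = 1`. For `c ∈ C`, `c ≠ 1`: `t' c t'⁻¹`
commutes with `t' g t'⁻¹ = g⁻¹`, so with `g` and with `c` (`hP`), and `hQ` for `c`: `t' c t'⁻¹ = c⁻¹` (otherwise
`t'` commutes with `c`, so with `g`). -/
theorem GCnt_main {H : Type} [Group H] [Finite H]
    (hP : ∀ g : H, g ≠ 1 → ∀ h k, h * g = g * h → k * g = g * k → h * k = k * h)
    (hQ : ∀ g : H, g ≠ 1 → ∀ t, (t * g * t⁻¹) * g = g * (t * g * t⁻¹) →
      t * g = g * t ∨ (t * t = 1 ∧ t * g * t⁻¹ = g⁻¹)) :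
    (∀ g h : H, g * h = h * g) ∨
      ∃ C : Subgroup H, C.index = 2 ∧ Odd (Nat.card C) ∧ (∀ a ∈ C, ∀ b ∈ C, a * b = b * a) ∧
        ∀ t, t ∉ C → t * t = 1 ∧ ∀ c ∈ C, t * c * t⁻¹ = c⁻¹ := by
  classical
  have := Fintype.ofFinite H
  -- the numbers
  obtain ⟨U, hU⟩ : ∃ U : H → Finset H, ∀ g h, h ∈ U g ↔
      h ≠ 1 ∧ ∃ x : H, h * (x * g * x⁻¹) = (x * g * x⁻¹) * h :=
    ⟨fun g => Finset.univ.filter fun h =>
      h ≠ 1 ∧ ∃ x : H, h * (x * g * x⁻¹) = (x * g * x⁻¹) * h, fun g h => by simp⟩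
  obtain ⟨z, hz⟩ : ∃ z : H → ℕ, ∀ g, z g = Nat.card {t : H // t * g = g * t} := ⟨_, fun _ => rfl⟩
  obtain ⟨n, hn⟩ : ∃ n : H → ℕ, ∀ g, n g = Nat.card {t : H // (t * g * t⁻¹) * g =
    g * (t * g * t⁻¹)} := ⟨_, fun _ => rfl⟩
  have hu : ∀ g, g ≠ 1 → (U g).card * n g = Nat.card H * (z g - 1) := by
    intro g hg
    have h1 := GCnt_union hP g hg
    rw [← hz, ← hn] at h1
    rw [← h1]
    refine congrArg (· * n g) ?_
    rw [Nat.card_eq_fintype_card, Fintype.card_subtype]
    refine congrArg Finset.card ?_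
    ext h
    rw [hU, Finset.mem_filter]
    exact ⟨fun h => ⟨Finset.mem_univ _, h⟩, fun h => h.2⟩
  have hz2 : ∀ g, g ≠ 1 → 2 ≤ z g := by
    intro g hg
    rw [hz]
    have h1 : Nontrivial {t : H // t * g = g * t} :=
      ⟨⟨1, by rw [one_mul, mul_one]⟩, ⟨g, rfl⟩, fun h => hg (congrArg Subtype.val h).symm⟩
    exact Finite.one_lt_card
  have hself : ∀ g, g ≠ 1 → g ∈ U g := by
    intro g hg
    rw [hU]
    exact ⟨hg, 1, by group⟩
  have hone : ∀ g, (1 : H) ∉ U g := by
    intro g h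
    rw [hU] at h
    exact h.1 rfl
  have hdisj : ∀ g g', g ≠ 1 → g' ≠ 1 → g' ∉ U g → Disjoint (U g) (U g') := by
    intro g g' hg hg' hm
    rw [Finset.disjoint_left]
    intro h h1 h2
    rw [hU] at h1 h2
    obtain ⟨h3, x, hx⟩ := h1
    obtain ⟨-, y, hy⟩ := h2
    apply hm
    rw [hU]
    exact ⟨hg', gcnt_sub hP hg' h3 hy hx g' ⟨1, by group⟩⟩
  have hmeet : ∀ g g', g ≠ 1 → g' ≠ 1 → z g ≠ z g' → Disjoint (U g) (U g') := by
    intro g g' hg hg' hm
    rw [Finset.disjoint_left]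
    intro h h1 h2
    rw [hU] at h1 h2
    obtain ⟨h3, x, hx⟩ := h1
    obtain ⟨-, y, hy⟩ := h2
    apply hm
    rw [hz, hz]
    exact gcnt_z hP hg hg' h3 hx hy
  have hHpos : 0 < Nat.card H := Nat.card_pos
  have hnorm : ∀ g, g ≠ 1 → n g = z g ∨ (n g = 2 * z g ∧ Odd (z g)) := by
    intro g hg
    rw [hz, hn]
    exact GCnt_norm hP hQ g hg
  have hu2 : ∀ g, g ≠ 1 → n g = z g → Nat.card H ≤ 2 * (U g).card := by
    intro g hg hnz
    have h1 := hu g hg
    rw [hnz] at h1
    obtain ⟨m, hm⟩ := Nat.exists_eq_add_of_le (hz2 g hg)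
    rw [hm] at h1
    have h2 : 2 + m - 1 = m + 1 := by omega
    rw [h2] at h1
    nlinarith
  have hu3 : ∀ g, g ≠ 1 → Nat.card H ≤ 3 * (U g).card := by
    intro g hg
    rcases hnorm g hg with h | ⟨h, hodd⟩
    · have := hu2 g hg h
      omega
    · have h1 := hu g hg
      rw [h] at h1
      have h3 : 3 ≤ z g := by
        have h4 := hz2 g hg
        obtain ⟨k, hk⟩ := hodd
        omega
      obtain ⟨m, hm⟩ := Nat.exists_eq_add_of_le h3
      rw [hm] at h1
      have h2 : 3 + m - 1 = m + 2 := by omega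
      rw [h2] at h1
      nlinarith
  have hle : ∀ S : Finset H, (1 : H) ∉ S → S.card + 1 ≤ Nat.card H := by
    intro S hS
    rw [← Finset.card_insert_of_notMem hS, Nat.card_eq_fintype_card]
    exact Finset.card_le_univ _
  have hex : ∀ S : Finset H, (1 : H) ∉ S → S.card + 1 < Nat.card H → ∃ h, h ≠ 1 ∧ h ∉ S := by
    intro S hS hlt
    rw [← Finset.card_insert_of_notMem hS, Nat.card_eq_fintype_card] at hlt
    obtain ⟨h, hh⟩ := Finset.exists_mem_notMem_of_card_lt_card
      (hlt.trans_eq Finset.card_univ.symm)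
    rw [Finset.mem_insert, not_or] at hh
    exact ⟨h, hh.2.1, hh.2.2⟩
  by_cases hall : ∀ g, g ≠ 1 → n g = z g
  · left
    by_cases hcen : ∃ g, g ≠ 1 ∧ z g = Nat.card H
    · obtain ⟨g, hg, hzg⟩ := hcen
      have hc : ∀ t : H, t * g = g * t := by
        intro t
        by_contra ht
        have h1 : Nat.card {t : H // t * g = g * t} < Nat.card H :=
          Finite.card_subtype_lt ht
        rw [← hz, hzg] at h1
        exact lt_irrefl _ h1
      intro h k
      exact hP g hg h k (hc h) (hc k)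
    · by_contra hnc
      push Not at hcen hnc
      obtain ⟨a, b, hab⟩ := hnc
      have ha : a ≠ 1 := by
        intro h
        apply hab
        rw [h, one_mul, mul_one]
      have hza : z a < Nat.card H := lt_of_le_of_ne (by
        rw [hz]
        exact Finite.card_subtype_le _) (hcen a ha)
      have h1 := hu a ha
      rw [hall a ha] at h1
      obtain ⟨m, hm⟩ := Nat.exists_eq_add_of_le (hz2 a ha)
      have h2 : (U a).card + 1 < Nat.card H := by
        rw [hm] at h1 hza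
        have h2 : 2 + m - 1 = m + 1 := by omega
        rw [h2] at h1
        by_contra h3
        push Not at h3
        nlinarith
      obtain ⟨h, hh, hhU⟩ := hex _ (hone a) h2
      have h3 := hdisj a h ha hh hhU
      have h4 := hle (U a ∪ U h) (by
        rw [Finset.mem_union, not_or]
        exact ⟨hone a, hone h⟩)
      rw [Finset.card_union_of_disjoint h3] at h4
      have h5 := hu2 a ha (hall a ha)
      have h6 := hu2 h hh (hall h hh)
      omega
  · right
    push Not at hall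
    obtain ⟨g, hg, hng⟩ := hall
    obtain ⟨hn2, hodd⟩ := (hnorm g hg).resolve_left hng
    obtain ⟨t, htN, htZ⟩ : ∃ t, (t * g * t⁻¹) * g = g * (t * g * t⁻¹) ∧ ¬ t * g = g * t := by
      by_contra hcon
      push Not at hcon
      apply hng
      rw [hn, hz]
      exact Nat.card_congr (Equiv.subtypeEquivRight fun t => ⟨hcon t, fun ht => by
        rw [ht, mul_inv_cancel_right]⟩)
    obtain ⟨htt, htg⟩ := (hQ g hg t htN).resolve_left htZ
    have ht1 : t ≠ 1 := by
      intro h
      apply htZ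
      rw [h, one_mul, mul_one]
    have hzt : Even (z t) := by
      have hcard : z t = Nat.card (Subgroup.centralizer ({t} : Set H)) := by
        rw [hz]
        refine Nat.card_congr (Equiv.subtypeEquivRight fun s => ?_)
        rw [Subgroup.mem_centralizer_singleton_iff]
      rw [hcard, even_iff_two_dvd]
      have h1 : orderOf (⟨t, Subgroup.mem_centralizer_singleton_iff.2 rfl⟩ :
          Subgroup.centralizer ({t} : Set H)) = 2 := by
        apply orderOf_eq_prime
        · rw [pow_two]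
          exact Subtype.ext htt
        · intro h
          exact ht1 (congrArg Subtype.val h)
      rw [← h1]
      exact orderOf_dvd_natCard _
    have hnt : n t = z t := by
      rcases hnorm t ht1 with h | ⟨-, h⟩
      · exact h
      · exact absurd hzt (Nat.not_even_iff_odd.2 h)
    have hne : z g ≠ z t := by
      intro h
      rw [h] at hodd
      exact (Nat.not_even_iff_odd.2 hodd) hzt
    have hgt := hmeet g t hg ht1 hne
    have hsum : (U g).card + (U t).card + 1 = Nat.card H := by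
      by_contra hcon
      have h1 : (1 : H) ∉ U g ∪ U t := by
        rw [Finset.mem_union, not_or]
        exact ⟨hone g, hone t⟩
      have h2 := hle (U g ∪ U t) h1
      have h3 := hex (U g ∪ U t) h1
      rw [Finset.card_union_of_disjoint hgt] at h2 h3
      obtain ⟨h, hh, hhU⟩ := h3 (by omega)
      rw [Finset.mem_union, not_or] at hhU
      have h4 := hdisj g h hg hh hhU.1
      have h5 := hdisj t h ht1 hh hhU.2
      have h6 := hle ((U g ∪ U t) ∪ U h) (by
        rw [Finset.mem_union, not_or]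
        exact ⟨h1, hone h⟩)
      rw [Finset.card_union_of_disjoint (Finset.disjoint_union_left.2 ⟨h4, h5⟩),
        Finset.card_union_of_disjoint hgt] at h6
      have h7 := hu3 g hg
      have h8 := hu3 h hh
      have h9 := hu2 t ht1 hnt
      omega
    have hyz : z t = 2 ∧ Nat.card H = 2 * z g := by
      have h1 := hu g hg
      have h2 := hu t ht1
      rw [hn2] at h1
      rw [hnt] at h2
      have h3 : 3 ≤ z g := by
        have h4 := hz2 g hg
        obtain ⟨k, hk⟩ := hodd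
        omega
      have h4 := hz2 t ht1
      obtain ⟨a, ha⟩ := Nat.exists_eq_add_of_le h3
      obtain ⟨b, hb⟩ := Nat.exists_eq_add_of_le h4
      rw [ha] at h1 ⊢
      rw [hb] at h2 ⊢
      have e1 : 3 + a - 1 = a + 2 := by omega
      have e2 : 2 + b - 1 = b + 1 := by omega
      rw [e1] at h1
      rw [e2] at h2
      exact gcnt_arith _ _ _ a b h1 h2 hsum
    obtain ⟨hy2, hHz⟩ := hyz
    have hCcard : Nat.card (Subgroup.centralizer ({g} : Set H)) = z g := by
      rw [hz]
      refine Nat.card_congr (Equiv.subtypeEquivRight fun s => ?_)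
      rw [Subgroup.mem_centralizer_singleton_iff]
    refine ⟨Subgroup.centralizer ({g} : Set H), ?_, ?_, ?_, ?_⟩
    · have h1 := Subgroup.card_mul_index (Subgroup.centralizer ({g} : Set H))
      rw [hCcard, hHz, mul_comm 2] at h1
      exact Nat.eq_of_mul_eq_mul_left (by have := hz2 g hg; omega) h1
    · rw [hCcard]
      exact hodd
    · intro a ha b hb
      exact hP g hg a b (Subgroup.mem_centralizer_singleton_iff.1 ha)
        (Subgroup.mem_centralizer_singleton_iff.1 hb)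
    · intro s hs
      rw [Subgroup.mem_centralizer_singleton_iff] at hs
      have hsN : (s * g * s⁻¹) * g = g * (s * g * s⁻¹) := by
        by_contra hcon
        have h1 : Nat.card {t : H // (t * g * t⁻¹) * g = g * (t * g * t⁻¹)} < Nat.card H :=
          Finite.card_subtype_lt hcon
        rw [← hn, hn2, hHz] at h1
        exact lt_irrefl _ h1
      obtain ⟨hss, hsg⟩ := (hQ g hg s hsN).resolve_left hs
      refine ⟨hss, fun c hc => ?_⟩
      rw [Subgroup.mem_centralizer_singleton_iff] at hc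
      by_cases hc1 : c = 1
      · rw [hc1]
        group
      · have h1 : Commute (s * c * s⁻¹) (s * g * s⁻¹) := (Commute.conj_iff s).2 hc
        rw [hsg] at h1
        have h2 : Commute (s * c * s⁻¹) g := by
          have h3 := h1.inv_right
          rwa [inv_inv] at h3
        have h3 := hP g hg _ _ h2 hc
        rcases hQ c hc1 s h3 with h4 | ⟨-, h4⟩
        · exact absurd (hP c hc1 s g h4 hc.symm) hs
        · exact h4

end Pool.Agent.KBR
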