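import Mathlib

/-! Geometry of coprime linear groups: definitions. -/

namespace Pool.Agent.KBR

/-- A finite group of linear automorphisms of order prime to `p` is given by a subgroup `H` of
`W ≃ₗ[ZMod p] W`. `NoSc H`: the only element of `H` which is a scalar is `1`. -/
def NoSc {p : ℕ} {W : Type} [AddCommGroup W] [Module (ZMod p) W]
    (H : Subgroup (W ≃ₗ[ZMod p] W)) : Prop :=
  ∀ T ∈ H, ∀ c : ZMod p, (∀ x, T x = c • x) → T = 1

end Pool.Agent.KBR
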