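import Mathlib

/-! Coprime automorphisms of commutative `p`-groups. -/

namespace Pool.Agent.KBR

/-- MODULE GDUN1. PROOF: `c = φ x * x⁻¹` is fixed by `φ`, so `(φ ^ i) x = x * c ^ i`; `i = Nat.card E`: `c ^ i = 1`. The order
of `c` is a power of `p` (`hD`), so `c = 1`. -/
theorem DUni_main {p : ℕ} (hp : p.Prime) {D : Type} [CommGroup D] [Finite D] (hD : IsPGroup p D)
    (E : Subgroup (MulAut D)) (hE : ¬ p ∣ Nat.card E) (φ : MulAut D) (hφ : φ ∈ E) (x : D)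
    (h : φ (φ x * x⁻¹) = φ x * x⁻¹) : φ x = x := by
  obtain ⟨c, hc⟩ : ∃ c, c = φ x * x⁻¹ := ⟨_, rfl⟩
  rw [← hc] at h
  have hx : φ x = x * c := by rw [hc]; simp
  have hpow : ∀ i : ℕ, (φ ^ i) x = x * c ^ i := by
    intro i
    induction i with
    | zero => simp
    | succ i ih =>
      rw [pow_succ', MulAut.mul_apply, ih, map_mul, hx, map_pow, h, pow_succ']
      rw [mul_assoc]
  have h1 : φ ^ Nat.card E = 1 := by
    have h2 : (⟨φ, hφ⟩ : E) ^ Nat.card E = 1 := pow_card_eq_one'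
    exact congrArg Subtype.val h2
  have h2 : c ^ Nat.card E = 1 := by
    have h3 := hpow (Nat.card E)
    rw [h1, MulAut.one_apply] at h3
    exact (left_eq_mul.mp h3)
  obtain ⟨k, hk⟩ := hD c
  have h3 : c = 1 := by
    have h4 : orderOf c ∣ Nat.card E := orderOf_dvd_of_pow_eq_one h2
    have h5 : orderOf c ∣ p ^ k := orderOf_dvd_of_pow_eq_one hk
    have h6 : Nat.Coprime (Nat.card E) (p ^ k) :=
      Nat.Coprime.pow_right k ((Nat.Prime.coprime_iff_not_dvd hp).mpr hE).symm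
    have h7 : orderOf c = 1 := Nat.eq_one_of_dvd_coprimes h6 h4 h5
    exact orderOf_eq_one_iff.mp h7
  rw [hx, h3, mul_one]

/-- MODULE GDUN2. PROOF: by induction on `k`, `φ x = x` if `x ^ (p ^ k) = 1`: for `x ^ (p ^ (k + 1)) = 1` we have
`φ (x ^ p) = x ^ p`, so `c = φ x * x⁻¹` satisfies `c ^ p = 1`, `φ c = c`, `DUni_main`. -/
theorem DOm_main {p : ℕ} (hp : p.Prime) {D : Type} [CommGroup D] [Finite D] (hD : IsPGroup p D)
    (E : Subgroup (MulAut D)) (hE : ¬ p ∣ Nat.card E) (φ : MulAut D) (hφ : φ ∈ E)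
    (h : ∀ x : D, x ^ p = 1 → φ x = x) : φ = 1 := by
  have key : ∀ k : ℕ, ∀ x : D, x ^ (p ^ k) = 1 → φ x = x := by
    intro k
    induction k with
    | zero =>
      intro x hx
      rw [pow_zero, pow_one] at hx
      rw [hx, map_one]
    | succ k ih =>
      intro x hx
      have h1 : φ (x ^ p) = x ^ p := ih _ (by rw [← pow_mul, ← pow_succ']; exact hx)
      apply DUni_main hp hD E hE φ hφ x
      apply h
      rw [mul_pow, inv_pow, ← map_pow, h1, mul_inv_cancel]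
  ext x
  obtain ⟨k, hk⟩ := hD x
  rw [key k x hk]
  rfl

/-- MODULE GDUN3. PROOF: let `E₁ ≤ E` be the subgroup of the `φ ∈ E` with `φ v = v`; `e = Nat.card E₁` divides
`Nat.card E`, so `p ∤ e`; choose `k` with `e * k ≡ 1` modulo `Nat.card D` (a power of `p`). Put
`x = (∏ φ : E₁, φ x₀) ^ k`: it is fixed by `E₁` (reindex), and `x ^ m = (∏ φ, φ (x₀ ^ m)) ^ k = v ^ (e * k) = v`. -/
theorem DAvg_main {p : ℕ} (hp : p.Prime) {D : Type} [CommGroup D] [Finite D] (hD : IsPGroup p D)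
    (E : Subgroup (MulAut D)) (hE : ¬ p ∣ Nat.card E) (v x₀ : D) (m : ℕ) (hv : x₀ ^ m = v) :
    ∃ x : D, x ^ m = v ∧ ∀ φ ∈ E, φ v = v → φ x = x := by
  let E₁ : Subgroup (MulAut D) :=
    { carrier := {φ | φ ∈ E ∧ φ v = v}
      mul_mem' := by
        rintro a b ⟨ha, ha'⟩ ⟨hb, hb'⟩
        exact ⟨E.mul_mem ha hb, by rw [MulAut.mul_apply, hb', ha']⟩
      one_mem' := ⟨E.one_mem, rfl⟩
      inv_mem' := by
        rintro a ⟨ha, ha'⟩
        refine ⟨E.inv_mem ha, ?_⟩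
        rw [MulAut.inv_apply, MulEquiv.symm_apply_eq, ha'] }
  have hle : E₁ ≤ E := fun φ hφ => hφ.1
  have : Finite (MulAut D) := Finite.of_injective (fun f : MulAut D => (f : D → D)) DFunLike.coe_injective
  have : Fintype E₁ := Fintype.ofFinite _
  have he : ¬ p ∣ Nat.card E₁ := fun h1 => hE (h1.trans (Subgroup.card_dvd_of_le hle))
  have : Fact p.Prime := ⟨hp⟩
  obtain ⟨a, ha⟩ := IsPGroup.iff_card.mp hD
  have hcop : Nat.Coprime (Nat.card E₁) (Nat.card D) := by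
    rw [ha]
    exact Nat.Coprime.pow_right a ((Nat.Prime.coprime_iff_not_dvd hp).mpr he).symm
  obtain ⟨k, hk⟩ : ∃ k : ℕ, Nat.card E₁ * k ≡ 1 [MOD Nat.card D] := by
    obtain ⟨k, hk⟩ := Int.mod_coprime hcop
    obtain ⟨k', hk'⟩ : ∃ k' : ℕ, (k' : ℤ) ≡ k [ZMOD Nat.card D] := by
      have hpos : (0 : ℤ) < Nat.card D := by exact_mod_cast Nat.card_pos
      refine ⟨(k % Nat.card D).toNat, ?_⟩
      rw [Int.toNat_of_nonneg (Int.emod_nonneg _ hpos.ne')]
      exact Int.mod_modEq _ _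
    refine ⟨k', ?_⟩
    rw [← Int.natCast_modEq_iff]
    push_cast
    exact (hk'.mul_left _).trans hk
  refine ⟨(∏ φ : E₁, (φ : MulAut D) x₀) ^ k, ?_, ?_⟩
  · have h1 : (∏ φ : E₁, (φ : MulAut D) x₀) ^ m = v ^ Nat.card E₁ := by
      rw [← Finset.prod_pow]
      rw [Finset.prod_congr rfl fun (φ : E₁) _ => show ((φ : MulAut D) x₀) ^ m = v by
        rw [← map_pow, hv]; exact φ.2.2]
      rw [Finset.prod_const, Finset.card_univ, Nat.card_eq_fintype_card]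
    rw [← pow_mul, mul_comm, pow_mul, h1, ← pow_mul]
    have h2 : v ^ (Nat.card E₁ * k) = v ^ 1 :=
      pow_eq_pow_iff_modEq.mpr (hk.of_dvd (orderOf_dvd_natCard v))
    rw [h2, pow_one]
  · intro φ hφ hφv
    rw [map_pow, map_prod]
    congr 1
    let ψ : E₁ := ⟨φ, hφ, hφv⟩
    exact Fintype.prod_equiv (Equiv.mulLeft ψ) _ _ fun χ => rfl

/-- MODULE GDUN4. PROOF: `x` from `DAvg_main`. If `φ ∈ E`, `φ (x * y) = x * y` then `(x * y) ^ m = v * 1`, so
`φ v = v`, `φ x = x`, `φ y = y`. -/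
theorem DAvg_two {p : ℕ} (hp : p.Prime) {D : Type} [CommGroup D] [Finite D] (hD : IsPGroup p D)
    (E : Subgroup (MulAut D)) (hE : ¬ p ∣ Nat.card E) (v x₀ : D) (m : ℕ) (hv : x₀ ^ m = v) :
    ∃ x : D, x ^ m = v ∧ (∀ φ ∈ E, φ v = v → φ x = x) ∧
      ∀ y : D, y ^ m = 1 → ∀ φ ∈ E, φ (x * y) = x * y → φ v = v ∧ φ x = x ∧ φ y = y := by
  obtain ⟨x, hx, hfix⟩ := DAvg_main hp hD E hE v x₀ m hv
  refine ⟨x, hx, hfix, ?_⟩
  intro y hy φ hφ hxy
  have h1 : φ v = v := by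
    have h2 : (x * y) ^ m = v := by rw [mul_pow, hx, hy, mul_one]
    rw [← h2, map_pow, hxy]
  have h2 := hfix φ hφ h1
  refine ⟨h1, h2, ?_⟩
  rw [map_mul, h2] at hxy
  exact mul_left_cancel hxy

end Pool.Agent.KBR
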