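import Pool.Agent.KBR.GAbl

/-! Good lines and regular vectors in dimension two. -/

namespace Pool.Agent.KBR

private theorem gf_span {p : ℕ} [Fact p.Prime] {W : Type} [AddCommGroup W]
    [Module (ZMod p) W] [Finite W] (hW : Nat.card W = p ^ 2) {w w' : W} (hw : w ≠ 0)
    (hw' : ∀ c : ZMod p, w' ≠ c • w) (x : W) : ∃ a b : ZMod p, x = a • w + b • w' := by
  have hinj : Function.Injective (fun c : ZMod p × ZMod p => c.1 • w + c.2 • w') := by
    rintro ⟨a, b⟩ ⟨a', b'⟩ h
    have h1 : a • w + b • w' = a' • w + b' • w' := h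
    have h2 : (b - b') • w' = (a' - a) • w := by
      rw [sub_smul, sub_smul]
      have : b • w' - b' • w' = (a • w + b • w') - a • w - b' • w' := by abel
      rw [this, h1]
      abel
    have hb : b = b' := by
      by_contra hne
      have hne' : b - b' ≠ 0 := sub_ne_zero.2 hne
      apply hw' ((b - b')⁻¹ * (a' - a))
      rw [mul_smul, ← h2, smul_smul, inv_mul_cancel₀ hne', one_smul]
    have ha : a = a' := by
      rw [hb, sub_self, zero_smul] at h2
      rcases smul_eq_zero.1 h2.symm with h3 | h3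
      · exact (sub_eq_zero.1 h3).symm
      · exact absurd h3 hw
    rw [ha, hb]
  have hbij := Function.Injective.bijective_of_nat_card_le hinj (by
    rw [hW, Nat.card_prod, Nat.card_zmod, sq])
  obtain ⟨⟨a, b⟩, hab⟩ := hbij.2 x
  exact ⟨a, b, hab.symm⟩

private theorem gf_coef {p : ℕ} [Fact p.Prime] {W : Type} [AddCommGroup W]
    [Module (ZMod p) W] {w w' : W}
    (hw' : ∀ c : ZMod p, w' ≠ c • w) {a b a' b' : ZMod p}
    (h : a • w + b • w' = a' • w + b' • w') : b = b' := by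
  by_contra hne
  have hne' : b - b' ≠ 0 := sub_ne_zero.2 hne
  apply hw' ((b - b')⁻¹ * (a' - a))
  have h2 : (b - b') • w' = (a' - a) • w := by
    rw [sub_smul, sub_smul]
    have : b • w' - b' • w' = (a • w + b • w') - a • w - b' • w' := by abel
    rw [this, h]
    abel
  rw [mul_smul, ← h2, smul_smul, inv_mul_cancel₀ hne', one_smul]

private theorem gf_out {p : ℕ} [Fact p.Prime] {W : Type} [AddCommGroup W]
    [Module (ZMod p) W] [Finite W] (hW : Nat.card W = p ^ 2) (w : W) :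
    ∃ w' : W, ∀ c : ZMod p, w' ≠ c • w := by
  by_contra hcon
  have hall : ∀ w' : W, ∃ c : ZMod p, w' = c • w := by
    intro w'
    by_contra h
    exact hcon ⟨w', fun c hc => h ⟨c, hc⟩⟩
  have hsurj : Function.Surjective (fun c : ZMod p => c • w) := fun x => by
    obtain ⟨c, hc⟩ := hall x
    exact ⟨c, hc.symm⟩
  have h1 := Nat.card_le_card_of_surjective _ hsurj
  rw [hW, Nat.card_zmod] at h1
  have hp : 1 < p := (Fact.out : p.Prime).one_lt
  nlinarith

private theorem gf_ne {p : ℕ} [Fact p.Prime] {W : Type} [AddCommGroup W]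
    [Module (ZMod p) W] [Finite W] (hW : Nat.card W = p ^ 2) : ∃ w : W, w ≠ 0 := by
  obtain ⟨w, hw⟩ := gf_out hW (0 : W)
  refine ⟨w, ?_⟩
  have := hw 0
  rwa [zero_smul] at this

private theorem gf_ext {p : ℕ} [Fact p.Prime] {W : Type} [AddCommGroup W]
    [Module (ZMod p) W] [Finite W] (hW : Nat.card W = p ^ 2) {w w' : W} (hw : w ≠ 0)
    (hw' : ∀ c : ZMod p, w' ≠ c • w) {T : W ≃ₗ[ZMod p] W} (h1 : T w = w) (h2 : T w' = w') :
    T = 1 := by
  apply LinearEquiv.ext
  intro x
  obtain ⟨a, b, rfl⟩ := gf_span hW hw hw' x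
  rw [map_add, map_smul, map_smul, h1, h2]
  rfl

private theorem gf_odd {G : Type*} [Group G] [Finite G] (C : Subgroup G)
    (hodd : Odd (Nat.card C)) {h : G} (hC : h ∈ C) (h2 : h * h = 1) : h = 1 := by
  have h3 : orderOf (⟨h, hC⟩ : C) ∣ 2 := by
    apply orderOf_dvd_of_pow_eq_one
    rw [pow_two]
    exact Subtype.ext h2
  have h4 : orderOf (⟨h, hC⟩ : C) ∣ Nat.card C := orderOf_dvd_natCard _
  have h5 : orderOf (⟨h, hC⟩ : C) = 1 := by
    rcases (Nat.dvd_prime Nat.prime_two).1 h3 with h6 | h6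
    · exact h6
    · exfalso
      rw [h6] at h4
      exact (Nat.not_even_iff_odd.2 hodd) (even_iff_two_dvd.2 h4)
  exact congrArg Subtype.val (orderOf_eq_one_iff.1 h5)

/-- an element of `C` with a fixed vector is trivial -/
private theorem gf_A {p : ℕ} [Fact p.Prime] {W : Type} [AddCommGroup W]
    [Module (ZMod p) W] [Finite W] (hW : Nat.card W = p ^ 2) (H : Subgroup (W ≃ₗ[ZMod p] W))
    [Finite H] (hH : ¬ p ∣ Nat.card H) (C : Subgroup H)
    (hodd : Odd (Nat.card C))
    (hinv : ∀ t, t ∉ C → t * t = 1 ∧ ∀ c ∈ C, t * c * t⁻¹ = c⁻¹) (t : H) (ht : t ∉ C)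
    (c : H) (hc : c ∈ C) {w : W} (hw : w ≠ 0) (hcw : c.1 w = w) : c = 1 := by
  obtain ⟨htt, hti⟩ := hinv t ht
  have h1 : ∀ x, c.1 (t.1 (c.1 x)) = t.1 x := by
    intro x
    have h2 : c * (t * c) = t := by
      have h3 := hti c hc
      calc c * (t * c) = c * ((t * c * t⁻¹) * t) := by group
        _ = t := by rw [h3]; group
    exact LinearEquiv.congr_fun (congrArg Subtype.val h2) x
  by_cases hx : ∃ a : ZMod p, t.1 w = a • w
  · obtain ⟨a, ha⟩ := hx
    obtain ⟨x, hx⟩ := gf_out hW w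
    obtain ⟨a₁, β, h3⟩ := gf_span hW hw hx (c.1 x)
    obtain ⟨a₂, γ, h4⟩ := gf_span hW hw hx (t.1 x)
    have ha0 : a ≠ 0 := by
      intro h0
      rw [h0, zero_smul] at ha
      exact hw ((t.1).map_eq_zero_iff.1 ha)
    have hγ : γ ≠ 0 := by
      intro h0
      rw [h0, zero_smul, add_zero] at h4
      apply hx (a₂ * a⁻¹)
      apply (t.1).injective
      rw [h4, map_smul, ha, smul_smul, mul_assoc, inv_mul_cancel₀ ha0, mul_one]
    have hβ : β * β = 1 := by
      have h5 := h1 x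
      rw [h3, map_add, map_smul, map_smul, ha, h4, map_add, map_smul, map_smul, map_smul, hcw,
        map_add, map_smul, map_smul, hcw, h3] at h5
      have h6 : (a₁ * a + β * a₂ + β * γ * a₁) • w + (β * γ * β) • x = a₂ • w + γ • x := by
        rw [← h5]
        module
      have h7 := gf_coef hx h6
      have h8 : γ * (β * β) = γ * 1 := by
        rw [mul_one]
        calc γ * (β * β) = β * γ * β := by ring
          _ = γ := h7
      exact mul_left_cancel₀ hγ h8
    have h9 : (c * c).1 x - x = (a₁ + β * a₁) • w := by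
      show c.1 (c.1 x) - x = _
      rw [h3, map_add, map_smul, map_smul, hcw, h3]
      have : a₁ • w + β • (a₁ • w + β • x) - x = (a₁ + β * a₁) • w + (β * β) • x - x := by module
      rw [this, hβ, one_smul, add_sub_cancel_right]
    have hccw : (c * c).1 w = w := by
      show c.1 (c.1 w) = w
      rw [hcw, hcw]
    have h10 : (c * c).1 x = x := by
      apply GUni_main H hH (c * c).1 (c * c).2
      rw [h9, map_smul, hccw]
    have h11 : c * c = 1 := Subtype.ext (gf_ext hW hw hx hccw h10)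
    exact gf_odd C hodd hc h11
  · have h3 : c.1 (t.1 w) = t.1 w := by
      have := h1 w
      rwa [hcw] at this
    exact Subtype.ext (gf_ext hW hw (fun a ha => hx ⟨a, ha⟩) hcw h3)

/-- MODULE GFLG1. The dihedral case of `GLin_str`: an involution `t ∉ C` has a vector `w ≠ 0` with `t w = w`, and the
only elements of `H` which map `w` to a multiple of `w` are `1` and `t`. PROOF: `t * t = 1`, `t ≠ -1` (a scalar in `H` is `1`; and `-1 ≠ 1`
would give a contradiction to `hs`): some `x` has `t x ≠ - x`; `w = x + t x`. Let `h ∈ H`, `h w = c • w`. First `h ∈ C`: `t h t⁻¹ = h⁻¹`, so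
`h⁻¹ w = t (h (t w)) = c • w`, so `c * c = 1`, `h (h w) = w`. If `c = 1`... we show `h = 1`: `C` is
commutative of odd order; `k = h * h` fixes `w`; `t k t⁻¹ = k⁻¹`. Choose `w'` with `t w' = - w'`, `w' ≠ 0` (`t ≠ 1`: `w' = y - t y`); `w`, `w'`
span `W`. `k w' = a • w + b • w'`; `k⁻¹ w' = t k t⁻¹ w' = - t (k w') = - a • w + b • w'`, and
`w' = k (k⁻¹ w') = - a • w + b • (a • w + b • w')`, so `b ^ 2 = 1` and `a b = a`. `b = 1`: `k (k w' - w') = k w' - w'`
and `k w = w`, so `k = 1` by `GUni_main` (applied to `w'`). `b = -1`: then `a = 0` (`2 a = 0`), `k w' = - w'`, `k ^ 2 = 1`, and `k ∈ C` has odd order, so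
`k = 1`, contradiction to `p` odd. So `k = h * h = 1` and `h = 1` as `|C|` is odd. Now `h ∉ C`: `t h ∈ C`
(index `2`) and `t h w = c • w`, so `t h = 1`, `h = t⁻¹ = t`. -/
theorem GFlg_dih {p : ℕ} [Fact p.Prime] (hp2 : p ≠ 2) {W : Type} [AddCommGroup W]
    [Module (ZMod p) W] [Finite W] (hW : Nat.card W = p ^ 2) (H : Subgroup (W ≃ₗ[ZMod p] W))
    [Finite H] (hH : ¬ p ∣ Nat.card H) (hs : NoSc H) (C : Subgroup H) (hC2 : C.index = 2)
    (hodd : Odd (Nat.card C)) (hCc : ∀ a ∈ C, ∀ b ∈ C, a * b = b * a)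
    (hinv : ∀ t, t ∉ C → t * t = 1 ∧ ∀ c ∈ C, t * c * t⁻¹ = c⁻¹) (t : H) (ht : t ∉ C) :
    ∃ w : W, w ≠ 0 ∧ t.1 w = w ∧ ∀ h : H, ∀ c : ZMod p, h.1 w = c • w → h = 1 ∨ h = t := by
  obtain ⟨htt, hti⟩ := hinv t ht
  have htt' : ∀ x, t.1 (t.1 x) = x := fun x => LinearEquiv.congr_fun (congrArg Subtype.val htt) x
  obtain ⟨x, hx⟩ : ∃ x, t.1 x ≠ (-1 : ZMod p) • x := by
    by_contra hcon
    have h1 : ∀ x, t.1 x = (-1 : ZMod p) • x := fun x => by
      by_contra h
      exact hcon ⟨x, h⟩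
    have h2 : t = 1 := Subtype.ext (hs t.1 t.2 (-1) h1)
    exact ht (h2 ▸ C.one_mem)
  have hw : x + t.1 x ≠ 0 := by
    intro h0
    apply hx
    rw [neg_one_smul]
    exact (neg_eq_of_add_eq_zero_right h0).symm
  have htw : t.1 (x + t.1 x) = x + t.1 x := by
    rw [map_add, htt', add_comm]
  have key : ∀ h : H, h ∈ C → ∀ c : ZMod p, h.1 (x + t.1 x) = c • (x + t.1 x) → h = 1 := by
    intro h hC c hc
    obtain ⟨w, hww⟩ : ∃ w, w = x + t.1 x := ⟨_, rfl⟩
    rw [← hww] at hw htw hc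
    have h1 : h.1 (t.1 (h.1 w)) = t.1 w := by
      have h2 : h * (t * h) = t := by
        have h3 := hti h hC
        calc h * (t * h) = h * ((t * h * t⁻¹) * t) := by group
          _ = t := by rw [h3]; group
      exact LinearEquiv.congr_fun (congrArg Subtype.val h2) w
    have h3 : (h * h).1 w = w := by
      show h.1 (h.1 w) = w
      rw [hc, map_smul, htw] at h1
      rw [hc, h1]
    have h4 := gf_A hW H hH C hodd hinv t ht (h * h) (C.mul_mem hC hC) hw h3
    exact gf_odd C hodd hC h4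
  refine ⟨x + t.1 x, hw, htw, fun h c hc => ?_⟩
  by_cases hC : h ∈ C
  · exact Or.inl (key h hC c hc)
  · right
    have h1 : t * h ∈ C := by
      rw [Subgroup.mul_mem_iff_of_index_two hC2]
      exact ⟨fun h => absurd h ht, fun h => absurd h hC⟩
    have h2 : (t * h).1 (x + t.1 x) = c • (x + t.1 x) := by
      show t.1 (h.1 (x + t.1 x)) = _
      rw [hc, map_smul, htw]
    have h3 := key (t * h) h1 c h2
    calc h = t * t * h := by rw [htt, one_mul]
      _ = t * (t * h) := mul_assoc _ _ _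
      _ = t := by rw [h3, mul_one]

/-- MODULE GFLG2. A good line. PROOF: `GLin_str`. Commutative case: if `H` is trivial take any `w ≠ 0`; otherwise let `g ∈ H`, `g ≠ 1`:
not a scalar (`hs`); `w` from `GAbl_vec`; if `T ∈ H`, `T w = c • w` then `T` is a scalar, so `T = 1` (`hs`). Dihedral
case: choose `t ∉ C` and `w` from `GFlg_dih`: `T w = c • w` gives `T = 1` or `T = t`, so `T w = w`. -/
theorem GFlg_line {p : ℕ} [Fact p.Prime] (hp2 : p ≠ 2) {W : Type} [AddCommGroup W]
    [Module (ZMod p) W] [Finite W] (hW : Nat.card W = p ^ 2) (H : Subgroup (W ≃ₗ[ZMod p] W))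
    [Finite H] (hH : ¬ p ∣ Nat.card H) (hs : NoSc H) :
    ∃ w : W, w ≠ 0 ∧ ∀ T ∈ H, ∀ c : ZMod p, T w = c • w → T w = w := by
  rcases GLin_str hp2 hW H hH hs with hcom | ⟨C, hC2, hodd, hCc, hinv⟩
  · by_cases htriv : ∀ g ∈ H, g = 1
    · obtain ⟨w, hw⟩ := gf_ne hW
      exact ⟨w, hw, fun T hT c _ => by rw [htriv T hT]; rfl⟩
    · obtain ⟨g, hg, hg1⟩ : ∃ g ∈ H, g ≠ 1 := by
        by_contra hcon
        exact htriv fun g hg => by
          by_contra h
          exact hcon ⟨g, hg, h⟩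
      have hgs : ∀ c : ZMod p, ∃ x, g x ≠ c • x := by
        intro c
        by_contra hcon
        exact hg1 (hs g hg c fun x => by
          by_contra h
          exact hcon ⟨x, h⟩)
      obtain ⟨w, hw, hvec⟩ := GAbl_vec hW g hgs
      refine ⟨w, hw, fun T hT c hTw => ?_⟩
      have h1 : T * g = g * T := congrArg Subtype.val (hcom ⟨T, hT⟩ ⟨g, hg⟩)
      by_contra hne
      refine hvec T h1 (fun c' => ?_) c hTw
      by_contra hcon
      apply hne
      have h2 : T = 1 := hs T hT c' fun x => by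
        by_contra h
        exact hcon ⟨x, h⟩
      rw [h2]
      rfl
  · obtain ⟨t, ht⟩ : ∃ t, t ∉ C := by
      by_contra hcon
      have h1 : C = ⊤ := by
        rw [Subgroup.eq_top_iff']
        intro x
        by_contra h
        exact hcon ⟨x, h⟩
      rw [h1, Subgroup.index_top] at hC2
      omega
    obtain ⟨w, hw, htw, hl⟩ := GFlg_dih hp2 hW H hH hs C hC2 hodd hCc hinv t ht
    refine ⟨w, hw, fun T hT c hTw => ?_⟩
    rcases hl ⟨T, hT⟩ c hTw with h | h
    · have h1 : T = 1 := congrArg Subtype.val h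
      rw [h1]
      rfl
    · have h1 : T = t.1 := congrArg Subtype.val h
      rw [h1, htw]

/-- MODULE GFLG3. A regular vector. PROOF: `GLin_str`. Commutative case: `GAbl_reg`. Dihedral case: an element `c ∈ C`, `c ≠ 1`, fixes no
vector `w ≠ 0`: suppose `c w = w`; let `t ∉ C`: `c⁻¹ = t c t⁻¹` fixes `t w`, so `c` fixes `w` and `t w`; if `t w` is not a
multiple of `w` then `c = 1`; if `t w = a • w`, `a ^ 2 = 1`, `a = ±1`; choose a basis `w, w'` with `t w' = b • w'`...: simpler: `c` has the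
fixed vector `w`, and `c⁻¹` is conjugate to `c`, so `c` has determinant `det c = det c⁻¹`, `(det c) ^ 2 = 1`, and `c` has odd
order, so `det c = 1`; a map with a fixed vector and determinant `1` is unipotent (`c x - x ∈ span w`):
`c = 1` by `GUni_main`. So if no vector `w ≠ 0` is regular then each of the `p ^ 2 - 1` vectors `w ≠ 0` is fixed by an element
`t ∉ C`; `t` fixes `w` so it is the `t` of `GFlg_dih` up to the choice of the vector: the fixed vectors of `t ∉ C`
form a line (`t ≠ 1`, `t * t = 1`, `p` odd; two independent fixed vectors would give `t = 1`), so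
`p ^ 2 - 1 ≤ |H ∖ C| (p - 1) = |C| (p - 1)` and `|C| ≥ p + 1`; and no vector is fixed by two different `t, t' ∉ C` (`t t' ∈ C` would fix it), so
`|C| (p - 1) = p ^ 2 - 1` and `|C| = p + 1` is even: contradiction to `hodd`. -/
theorem GFlg_reg {p : ℕ} [Fact p.Prime] (hp2 : p ≠ 2) {W : Type} [AddCommGroup W]
    [Module (ZMod p) W] [Finite W] (hW : Nat.card W = p ^ 2) (H : Subgroup (W ≃ₗ[ZMod p] W))
    [Finite H] (hH : ¬ p ∣ Nat.card H) (hs : NoSc H) :
    ∃ w : W, w ≠ 0 ∧ ∀ T ∈ H, T w = w → T = 1 := by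
  classical
  rcases GLin_str hp2 hW H hH hs with hcom | ⟨C, hC2, hodd, hCc, hinv⟩
  · exact GAbl_reg hW H fun g hg h hh => congrArg Subtype.val (hcom ⟨g, hg⟩ ⟨h, hh⟩)
  · by_contra hcon
    have hfix : ∀ w : W, w ≠ 0 → ∃ T : H, T ∉ C ∧ T.1 w = w := by
      intro w hw
      by_contra h
      apply hcon
      refine ⟨w, hw, fun T hT hTw => ?_⟩
      have hTC : (⟨T, hT⟩ : H) ∈ C := by
        by_contra hTC
        exact h ⟨⟨T, hT⟩, hTC, hTw⟩
      obtain ⟨t, ht⟩ : ∃ t, t ∉ C := by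
        by_contra hcon
        have h1 : C = ⊤ := by
          rw [Subgroup.eq_top_iff']
          intro x
          by_contra h
          exact hcon ⟨x, h⟩
        rw [h1, Subgroup.index_top] at hC2
        omega
      exact congrArg Subtype.val (gf_A hW H hH C hodd hinv t ht ⟨T, hT⟩ hTC hw hTw)
    have huniq : ∀ w : W, w ≠ 0 → ∀ T T' : H, T ∉ C → T' ∉ C → T.1 w = w → T'.1 w = w →
        T = T' := by
      intro w hw T T' hT hT' h1 h2
      have h3 : T * T' ∈ C := by
        rw [Subgroup.mul_mem_iff_of_index_two hC2]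
        exact ⟨fun h => absurd h hT, fun h => absurd h hT'⟩
      have h4 : (T * T').1 w = w := by
        show T.1 (T'.1 w) = w
        rw [h2, h1]
      have h5 := gf_A hW H hH C hodd hinv T hT (T * T') h3 hw h4
      calc T = T * (T' * T') := by rw [(hinv T' hT').1, mul_one]
        _ = T * T' * T' := (mul_assoc _ _ _).symm
        _ = T' := by rw [h5, one_mul]
    choose w₀ hw₀ htw₀ hl₀ using fun T : {T : H // T ∉ C} =>
      GFlg_dih hp2 hW H hH hs C hC2 hodd hCc hinv T.1 T.2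
    have hbij : Function.Bijective (fun x : {T : H // T ∉ C} × {c : ZMod p // c ≠ 0} =>
        (⟨x.2.1 • w₀ x.1, smul_ne_zero x.2.2 (hw₀ x.1)⟩ : {w : W // w ≠ 0})) := by
      constructor
      · rintro ⟨T, c, hc⟩ ⟨T', c', hc'⟩ h
        have h1 : c • w₀ T = c' • w₀ T' := congrArg Subtype.val h
        have h2 : T = T' := by
          apply Subtype.ext
          apply huniq (c • w₀ T) (smul_ne_zero hc (hw₀ T)) T.1 T'.1 T.2 T'.2
          · rw [map_smul, htw₀]
          · rw [h1, map_smul, htw₀]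
        subst h2
        have h3 : c = c' := smul_left_injective _ (hw₀ T) h1
        subst h3
        rfl
      · rintro ⟨w, hw⟩
        obtain ⟨T, hT, hTw⟩ := hfix w hw
        have h1 : ∃ c : ZMod p, w = c • w₀ ⟨T, hT⟩ := by
          by_contra hne
          have h2 : T.1 = 1 := gf_ext hW (hw₀ ⟨T, hT⟩) (fun c hc => hne ⟨c, hc⟩)
            (htw₀ ⟨T, hT⟩) hTw
          have h3 : T = 1 := Subtype.ext h2
          exact hT (h3 ▸ C.one_mem)
        obtain ⟨c, hc⟩ := h1
        have hc0 : c ≠ 0 := by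
          intro h0
          rw [h0, zero_smul] at hc
          exact hw hc
        exact ⟨(⟨T, hT⟩, ⟨c, hc0⟩), Subtype.ext hc.symm⟩
    have hcard := Nat.card_congr (Equiv.ofBijective _ hbij)
    have hne : ∀ (A : Type) (_ : Finite A) (a : A), Nat.card {x : A // x ≠ a} = Nat.card A - 1 := by
      intro A _ a
      have h1 := Nat.card_congr (Equiv.sumCompl (fun x : A => x = a))
      rw [Nat.card_sum] at h1
      have h2 : Nat.card {x : A // x = a} = 1 := by
        rw [Nat.card_eq_one_iff_unique]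
        exact ⟨⟨fun x y => Subtype.ext (x.2.trans y.2.symm)⟩, ⟨⟨a, rfl⟩⟩⟩
      have h3 : Nat.card {x : A // x ≠ a} = Nat.card {x : A // ¬ x = a} := rfl
      omega
    have hTC : Nat.card {T : H // T ∉ C} = Nat.card C := by
      have h1 := Nat.card_congr (Equiv.sumCompl (fun x : H => x ∈ C))
      rw [Nat.card_sum] at h1
      have h2 := C.card_mul_index
      rw [hC2] at h2
      have h3 : Nat.card {x : H // x ∈ C} = Nat.card C := rfl
      have h4 : Nat.card {x : H // x ∉ C} = Nat.card {x : H // ¬ x ∈ C} := rfl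
      omega
    rw [Nat.card_prod, hTC, hne (ZMod p) inferInstance 0, hne W inferInstance 0, hW,
      Nat.card_zmod] at hcard
    have hp : 2 ≤ p := (Fact.out : p.Prime).two_le
    have h1 : Nat.card C * (p - 1) = (p + 1) * (p - 1) := by
      rw [hcard]
      obtain ⟨k, rfl⟩ : ∃ k, p = k + 1 := ⟨p - 1, by omega⟩
      rw [Nat.add_sub_cancel]
      have : (k + 1) ^ 2 = (k + 1 + 1) * k + 1 := by ring
      rw [this, Nat.add_sub_cancel]
    have h2 : Nat.card C = p + 1 := Nat.eq_of_mul_eq_mul_right (by omega) h1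
    have h3 : Odd p := (Fact.out : p.Prime).odd_of_ne_two hp2
    rw [h2] at hodd
    exact (Nat.not_even_iff_odd.2 hodd) h3.add_one

/-- `S` maps `w` to `α w` and `w'` to `β w'` modulo `w` -/
private def gf_tri {p : ℕ} {W : Type} [AddCommGroup W] [Module (ZMod p) W] (w w' : W)
    (S : W ≃ₗ[ZMod p] W) (α β : ZMod p) : Prop :=
  S w = α • w ∧ ∃ x : ZMod p, S w' = x • w + β • w'

private theorem gf_tri_mul {p : ℕ} {W : Type} [AddCommGroup W] [Module (ZMod p) W] {w w' : W}
    {S S' : W ≃ₗ[ZMod p] W} {α β α' β' : ZMod p} (h : gf_tri w w' S α β)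
    (h' : gf_tri w w' S' α' β') : gf_tri w w' (S * S') (α * α') (β * β') := by
  obtain ⟨h1, x, h2⟩ := h
  obtain ⟨h3, y, h4⟩ := h'
  refine ⟨?_, y * α + β' * x, ?_⟩
  · rw [LinearEquiv.mul_apply, h3, map_smul, h1, smul_smul, mul_comm]
  · rw [LinearEquiv.mul_apply, h4, map_add, map_smul, map_smul, h1, h2]
    module

private theorem gf_tri_pow {p : ℕ} {W : Type} [AddCommGroup W] [Module (ZMod p) W] {w w' : W}
    {S : W ≃ₗ[ZMod p] W} {α β : ZMod p} (h : gf_tri w w' S α β) (i : ℕ) :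
    gf_tri w w' (S ^ i) (α ^ i) (β ^ i) := by
  induction i with
  | zero =>
    rw [pow_zero, pow_zero, pow_zero]
    refine ⟨?_, 0, ?_⟩
    · rw [one_smul]
      rfl
    · rw [one_smul, zero_smul, zero_add]
      rfl
  | succ i ih =>
    rw [pow_succ, pow_succ, pow_succ]
    exact gf_tri_mul ih h

private theorem gf_gen {p : ℕ} [Fact p.Prime] {g : ZMod p} (hg : g ≠ 0)
    (h : ∀ s : ℕ, g ^ s = 1 → (p - 1) ∣ s) {y : ZMod p} (hy : y ≠ 0) : ∃ a : ℕ, y = g ^ a := by
  obtain ⟨u, hu⟩ : ∃ u : (ZMod p)ˣ, (u : ZMod p) = g := ⟨Units.mk0 g hg, rfl⟩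
  have hcard : Nat.card (ZMod p)ˣ = p - 1 := by
    rw [Nat.card_eq_fintype_card, ZMod.card_units]
  have h1 : orderOf u = Nat.card (ZMod p)ˣ := by
    apply Nat.dvd_antisymm (orderOf_dvd_natCard u)
    rw [hcard]
    apply h
    rw [← hu, ← Units.val_pow_eq_pow_val, pow_orderOf_eq_one, Units.val_one]
  have h2 : Subgroup.zpowers u = ⊤ := by
    apply Subgroup.eq_top_of_card_eq
    rw [Nat.card_zpowers, h1]
  have h3 : Units.mk0 y hy ∈ Subgroup.zpowers u := by
    rw [h2]
    exact Subgroup.mem_top _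
  obtain ⟨a, ha⟩ := mem_powers_iff_mem_zpowers.2 h3
  refine ⟨a, ?_⟩
  have h4 := congrArg Units.val ha
  rw [Units.val_mk0] at h4
  rw [← h4, ← hu]
  exact (Units.val_pow_eq_pow_val u a)

/-- MODULE GFLG4. PROOF: let `S ≤ H` be the subgroup of the `T ∈ H` which map `w` to a multiple of `w`. Choose
`w'` outside `span w`; `w`, `w'` span `W` (`|W| = p ^ 2`). For `T ∈ S`: `T w = α • w`, `T w' ∈ β • w' + span w`, `α, β ≠ 0`,
multiplicative in `T`. (0) If `α = β` then `T = 1`: `T x - α x ∈ span w` for all `x`, `T w = α w`; so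
`T ^ i x = α ^ i x + i α ^ (i - 1) (T x - α x)`; with `i = e (p - 1)`, `e = Nat.card H`: `T ^ i = 1`,
`α ^ i = 1`: `T x = α x`, a scalar, `T = 1` (`hs`). Let `n` have `α = J`, `β = J ^ k` (every nonzero element
of `ZMod p` is a power of `J`: `hJ` says that the order of `J` is a multiple of `p - 1`), and let `T w = w`, `β(T) = J ^ s`.
(1) let `d = gcd (k - 1) (p - 1)` in the integers, `m = (p - 1) / d`: `n ^ m` has `α = J ^ m`,
`β = J ^ (k m) = J ^ m` as `p - 1 ∣ (k - 1) m`; so `n ^ m = 1`, `J ^ m = 1`, `p - 1 ∣ m`, `d = 1`. (2) there is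
`a` with `(k - 1) a ≡ - s` modulo `p - 1`, `a ≥ 0`; `n ^ a T` has `α = J ^ a` and `β = J ^ (k a + s) = J ^ a`, so `n ^ a T = 1`,
`J ^ a = 1`, `p - 1 ∣ a`, `n ^ a = 1` (`α = β = 1` for it, (0)), so `T = 1`. -/
theorem GFlg_J {p : ℕ} [Fact p.Prime] (hp2 : p ≠ 2) {W : Type} [AddCommGroup W]
    [Module (ZMod p) W] [Finite W] (hW : Nat.card W = p ^ 2) (H : Subgroup (W ≃ₗ[ZMod p] W))
    [Finite H] (hH : ¬ p ∣ Nat.card H) (hs : NoSc H) (J : ZMod p) (hJ0 : J ≠ 0)
    (hJ : ∀ s : ℕ, J ^ s = 1 → (p - 1) ∣ s) (n : W ≃ₗ[ZMod p] W) (hn : n ∈ H) (w : W)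
    (hw : w ≠ 0) (hnw : n w = J • w) (T : W ≃ₗ[ZMod p] W) (hT : T ∈ H) (hTw : T w = w) :
    T = 1 := by
  have hp : 2 ≤ p := (Fact.out : p.Prime).two_le
  obtain ⟨w', hw'⟩ := gf_out hW w
  -- (0)
  have h0 : ∀ S ∈ H, ∀ α : ZMod p, gf_tri w w' S α α → S = 1 := by
    rintro S hS α ⟨h1, x, h2⟩
    have hα : α ≠ 0 := by
      intro h
      rw [h, zero_smul] at h1
      exact hw (S.map_eq_zero_iff.1 h1)
    have hpow : ∀ i : ℕ, (S ^ i) w = α ^ i • w ∧
        (S ^ (i + 1)) w' = ((i + 1 : ZMod p) * α ^ i * x) • w + α ^ (i + 1) • w' := by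
      intro i
      induction i with
      | zero =>
        refine ⟨?_, ?_⟩
        · rw [pow_zero, pow_zero, one_smul]
          rfl
        · rw [zero_add, pow_one, h2]
          simp
      | succ i ih =>
        refine ⟨?_, ?_⟩
        · rw [pow_succ', LinearEquiv.mul_apply, ih.1, map_smul, h1, smul_smul, ← pow_succ]
        · rw [pow_succ', LinearEquiv.mul_apply, ih.2, map_add, map_smul, map_smul, h1, h2]
          push_cast
          module
    have hα1 : α ^ (p - 1) = 1 := ZMod.pow_card_sub_one_eq_one hα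
    obtain ⟨j, hj⟩ : ∃ j, p - 1 = j + 1 := ⟨p - 2, by omega⟩
    have h3 := (hpow (p - 1)).1
    rw [hα1, one_smul] at h3
    have h4 := (hpow j).2
    rw [← hj, hα1, one_smul] at h4
    have h5 : (S ^ (p - 1)) w' = w' := by
      apply GUni_main H hH (S ^ (p - 1)) (H.pow_mem hS _)
      rw [h4, add_sub_cancel_right, map_smul, h3]
    rw [h5] at h4
    have h6 : ((j + 1 : ZMod p) * α ^ j * x) • w = 0 := by
      have := h4.symm
      rwa [add_eq_right] at this
    have h7 : (j + 1 : ZMod p) = -1 := by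
      have h8 : ((j + 1 : ℕ) : ZMod p) = -1 := by
        rw [← hj, Nat.cast_sub (by omega)]
        simp
      push_cast at h8
      exact h8
    have hx : x = 0 := by
      rcases smul_eq_zero.1 h6 with h8 | h8
      · rw [h7] at h8
        rcases mul_eq_zero.1 h8 with h9 | h9
        · rcases mul_eq_zero.1 h9 with h10 | h10
          · exact absurd h10 (neg_ne_zero.2 one_ne_zero)
          · exact absurd h10 (pow_ne_zero _ hα)
        · exact h9
      · exact absurd h8 hw
    apply hs S hS α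
    intro y
    obtain ⟨a, b, rfl⟩ := gf_span hW hw hw' y
    rw [map_add, map_smul, map_smul, h1, h2, hx]
    module
  -- the coefficients
  have hex : ∀ S : W ≃ₗ[ZMod p] W, ∀ α : ZMod p, S w = α • w →
      ∃ β, β ≠ 0 ∧ gf_tri w w' S α β := by
    intro S α hα
    obtain ⟨x, β, h1⟩ := gf_span hW hw hw' (S w')
    have hα0 : α ≠ 0 := by
      intro h
      rw [h, zero_smul] at hα
      exact hw (S.map_eq_zero_iff.1 hα)
    refine ⟨β, ?_, hα, x, h1⟩
    intro h
    rw [h, zero_smul, add_zero] at h1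
    apply hw' (x * α⁻¹)
    apply S.injective
    rw [h1, map_smul, hα, smul_smul, mul_assoc, inv_mul_cancel₀ hα0, mul_one]
  obtain ⟨βn, hβn, htn⟩ := hex n J hnw
  obtain ⟨βT, hβT, htT⟩ := hex T 1 (by rw [hTw, one_smul])
  have hq : ∀ s : ℕ, (βn * J⁻¹) ^ s = 1 → (p - 1) ∣ s := by
    intro s hsq
    have h1 : βn ^ s = J ^ s := by
      rw [mul_pow, inv_pow] at hsq
      exact (mul_inv_eq_one₀ (pow_ne_zero _ hJ0)).1 hsq
    have h2 := gf_tri_pow htn s
    rw [h1] at h2
    have h3 := h0 (n ^ s) (H.pow_mem hn s) _ h2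
    apply hJ
    have h4 := h2.1
    rw [h3] at h4
    have h5 : w = J ^ s • w := h4
    have h6 : (1 - J ^ s) • w = 0 := by
      rw [sub_smul, one_smul, ← h5, sub_self]
    rcases smul_eq_zero.1 h6 with h7 | h7
    · exact (sub_eq_zero.1 h7).symm
    · exact absurd h7 hw
  have hq0 : βn * J⁻¹ ≠ 0 := mul_ne_zero hβn (inv_ne_zero hJ0)
  obtain ⟨a, ha⟩ := gf_gen hq0 hq (inv_ne_zero hβT)
  have h1 := gf_tri_mul (gf_tri_pow htn a) htT
  have h2 : βn ^ a * βT = J ^ a * 1 := by
    rw [mul_pow, inv_pow] at ha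
    have h3 : βn ^ a = βT⁻¹ * J ^ a := by
      rw [ha, mul_assoc, inv_mul_cancel₀ (pow_ne_zero _ hJ0), mul_one]
    rw [h3]
    field_simp
  rw [h2] at h1
  have h3 := h0 (n ^ a * T) (H.mul_mem (H.pow_mem hn a) hT) _ h1
  have h4 : J ^ a = 1 := by
    have h5 := h1.1
    rw [h3, mul_one] at h5
    have h5' : w = J ^ a • w := h5
    have h6 : (1 - J ^ a) • w = 0 := by
      rw [sub_smul, one_smul, ← h5', sub_self]
    rcases smul_eq_zero.1 h6 with h7 | h7
    · exact (sub_eq_zero.1 h7).symm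
    · exact absurd h7 hw
  obtain ⟨b, hb⟩ := hJ a h4
  have h5 : βT = 1 := by
    have h6 : (βn * J⁻¹) ^ a = 1 := by
      rw [hb, pow_mul, ZMod.pow_card_sub_one_eq_one hq0, one_pow]
    rw [h6] at ha
    exact inv_eq_one.1 ha
  rw [h5] at htT
  exact h0 T hT 1 htT

end Pool.Agent.KBR
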