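import Pool.Agent.KBR.GUni

/-! Homologies of coprime linear groups. -/

namespace Pool.Agent.KBR

/-- MODULE GHLG1. Two elements of `H` which fix `w` and act as scalars modulo `w` commute. PROOF:
`K = S * T * S⁻¹ * T⁻¹` fixes `w`, and `K x - x` is a multiple of `w` for every `x` (both `S T x` and `T S x` are
`μ ν x` modulo `w`, as `S`, `T` are linear and fix `w`). So `K (K x - x) = K x - x`, and `K = 1` by
`GUni_main`. -/
theorem GHlg_comm {p : ℕ} [Fact p.Prime] {V : Type} [AddCommGroup V] [Module (ZMod p) V]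
    (H : Subgroup (V ≃ₗ[ZMod p] V)) [Finite H] (hH : ¬ p ∣ Nat.card H) (S T : V ≃ₗ[ZMod p] V)
    (hS : S ∈ H) (hT : T ∈ H) (w : V) (hSw : S w = w) (hTw : T w = w) (μ ν : ZMod p)
    (hSμ : ∀ x, ∃ c : ZMod p, S x = μ • x + c • w) (hTν : ∀ x, ∃ c : ZMod p, T x = ν • x + c • w) :
    S * T = T * S := by
  have h1 : ∀ y, ∃ d : ZMod p, S (T y) - T (S y) = d • w := by
    intro y
    obtain ⟨c, hc⟩ := hTν y
    obtain ⟨c', hc'⟩ := hSμ y
    refine ⟨ν * c' + c - μ * c - c', ?_⟩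
    have e1 : S (T y) = ν • (μ • y + c' • w) + c • w := by
      rw [hc, map_add, map_smul, map_smul, hSw, hc']
    have e2 : T (S y) = μ • (ν • y + c • w) + c' • w := by
      rw [hc', map_add, map_smul, map_smul, hTw, hc]
    rw [e1, e2]
    module
  have hK : S * T * S⁻¹ * T⁻¹ ∈ H := H.mul_mem (H.mul_mem (H.mul_mem hS hT) (H.inv_mem hS))
    (H.inv_mem hT)
  have hSi : S⁻¹ w = w := by
    show S.symm w = w
    rw [LinearEquiv.symm_apply_eq, hSw]
  have hTi : T⁻¹ w = w := by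
    show T.symm w = w
    rw [LinearEquiv.symm_apply_eq, hTw]
  have hKw : (S * T * S⁻¹ * T⁻¹) w = w := by
    rw [LinearEquiv.mul_apply, LinearEquiv.mul_apply, LinearEquiv.mul_apply, hTi, hSi, hTw, hSw]
  have hKy : ∀ y, (S * T * S⁻¹ * T⁻¹) (T (S y)) = S (T y) := by
    intro y
    rw [LinearEquiv.mul_apply, LinearEquiv.mul_apply, LinearEquiv.mul_apply]
    have a1 : T⁻¹ (T (S y)) = S y := T.symm_apply_apply (S y)
    have a2 : S⁻¹ (S y) = y := S.symm_apply_apply y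
    rw [a1, a2]
  refine LinearEquiv.ext fun y => ?_
  have h2 := GUni_main H hH (S * T * S⁻¹ * T⁻¹) hK (T (S y)) (by
    obtain ⟨d, hd⟩ := h1 y
    rw [hKy, hd, map_smul, hKw])
  rw [hKy] at h2
  rw [LinearEquiv.mul_apply, LinearEquiv.mul_apply, h2]

/-- MODULE GHLG2. PROOF: if `μ = 1` then `T (T x - x) = T x - x` for all `x` (`T x - x` is a multiple of
`v`), so `T = 1` by `GUni_main`. -/
theorem GHlg_ne {p : ℕ} [Fact p.Prime] {V : Type} [AddCommGroup V] [Module (ZMod p) V]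
    (H : Subgroup (V ≃ₗ[ZMod p] V)) [Finite H] (hH : ¬ p ∣ Nat.card H) (T : V ≃ₗ[ZMod p] V)
    (hT : T ∈ H) (hT1 : T ≠ 1) (v : V) (hTv : T v = v) (μ : ZMod p)
    (hTμ : ∀ x, ∃ c : ZMod p, T x = μ • x + c • v) : μ ≠ 1 := by
  intro hμ
  apply hT1
  refine LinearEquiv.ext fun x => ?_
  have h2 := GUni_main H hH T hT x (by
    obtain ⟨c, hc⟩ := hTμ x
    have h3 : T x - x = c • v := by rw [hc, hμ]; module
    rw [h3, map_smul, hTv])
  rw [h2]
  rfl

/-- MODULE GHLG3. The axis of `T`. PROOF: given `x` with `T x = μ • x + c • v`; put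
`a = x + (c / (μ - 1)) • v` (`μ ≠ 1`): `T a = μ • x + c • v + (c / (μ - 1)) • v = μ • a`, since
`c + c / (μ - 1) = μ * (c / (μ - 1))`. And `x = a - (c / (μ - 1)) • v`. -/
theorem GHlg_dec {p : ℕ} [Fact p.Prime] {V : Type} [AddCommGroup V] [Module (ZMod p) V]
    (T : V ≃ₗ[ZMod p] V) (v : V) (hTv : T v = v) (μ : ZMod p) (hμ : μ ≠ 1)
    (hTμ : ∀ x, ∃ c : ZMod p, T x = μ • x + c • v) (x : V) :
    ∃ (b : ZMod p) (a : V), T a = μ • a ∧ x = b • v + a := by
  obtain ⟨c, hc⟩ := hTμ x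
  have h1 : μ - 1 ≠ 0 := sub_ne_zero.2 hμ
  have h2 : c = (μ - 1) * (c / (μ - 1)) := by field_simp
  set d : ZMod p := c / (μ - 1)
  refine ⟨-d, x + d • v, ?_, by module⟩
  rw [map_add, map_smul, hTv, hc, h2]
  module

/-- MODULE GHLG4. Symmetry: if `w` is on the axis of `T` (centre `v`) then `v` is on the axis of `T'`
(centre `w`). PROOF: `S = T * T' * T⁻¹ ∈ H` fixes `w` (`T⁻¹ w = μ⁻¹ w`, `μ ≠ 0` as `T` is injective and
`w ≠ 0`) and acts as `ν` modulo `w` (`S x = T (T' (T⁻¹ x))`, `T' y = ν y + c w`, `T w = μ w`). By `GHlg_comm`,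
`S` and `T'` commute. By `GHlg_dec` for `T'` it is enough to see `S a = ν a` for `a` with `T' a = ν a`: `T' (S a) =
S (T' a) = ν (S a)`, so `b = S a - ν a` satisfies `T' b = ν b` and `b` is a multiple of `w`, `T' b = b`, so `b = 0` as
`ν ≠ 1`. So `S = T'`, i.e. `T * T' = T' * T`. Now `v = b • w + a` with `T' a = ν a` (`GHlg_dec`).
`T v = v` and `T a` is again in the `ν`-eigenspace of `T'`; `T v = (b μ) w + T a`, so
`(b μ - b) • w = a - T a` is both a multiple of `w` and in the `ν`-eigenspace of `T'`, hence `0`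
(`ν ≠ 1`, `T' w = w`): `b (μ - 1) = 0`, `b = 0`, `v = a`. -/
theorem GHlg_symm {p : ℕ} [Fact p.Prime] {V : Type} [AddCommGroup V] [Module (ZMod p) V]
    (H : Subgroup (V ≃ₗ[ZMod p] V)) [Finite H] (hH : ¬ p ∣ Nat.card H) (T T' : V ≃ₗ[ZMod p] V)
    (hT : T ∈ H) (hT' : T' ∈ H) (v w : V) (hw0 : w ≠ 0) (hTv : T v = v)
    (hT'w : T' w = w) (μ ν : ZMod p) (hμ : μ ≠ 1) (hν : ν ≠ 1)
    (hTμ : ∀ x, ∃ c : ZMod p, T x = μ • x + c • v)
    (hT'ν : ∀ x, ∃ c : ZMod p, T' x = ν • x + c • w) (hw : T w = μ • w) : T' v = ν • v := by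
  have hμ0 : μ ≠ 0 := by
    intro h0
    rw [h0, zero_smul] at hw
    exact hw0 ((LinearEquiv.map_eq_zero_iff T).1 hw)
  have hwi : T⁻¹ w = μ⁻¹ • w := by
    show T.symm w = μ⁻¹ • w
    rw [LinearEquiv.symm_apply_eq, map_smul, hw, smul_smul, inv_mul_cancel₀ hμ0, one_smul]
  have hSw : (T * T' * T⁻¹) w = w := by
    rw [LinearEquiv.mul_apply, LinearEquiv.mul_apply, hwi, map_smul, hT'w, map_smul, hw, smul_smul,
      inv_mul_cancel₀ hμ0, one_smul]
  have hSν : ∀ x, ∃ c : ZMod p, (T * T' * T⁻¹) x = ν • x + c • w := by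
    intro x
    obtain ⟨c, hc⟩ := hT'ν (T⁻¹ x)
    have a1 : T (T⁻¹ x) = x := T.apply_symm_apply x
    refine ⟨c * μ, ?_⟩
    rw [LinearEquiv.mul_apply, LinearEquiv.mul_apply, hc, map_add, map_smul, map_smul, a1, hw,
      smul_smul]
  have hc := GHlg_comm H hH (T * T' * T⁻¹) T' (H.mul_mem (H.mul_mem hT hT') (H.inv_mem hT)) hT' w
    hSw hT'w ν ν hSν hT'ν
  have hν1 : ν - 1 ≠ 0 := sub_ne_zero.2 hν
  -- an element of the `ν`-eigenspace of `T'` which is a multiple of `w` vanishes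
  have hz : ∀ d : ZMod p, T' (d • w) = ν • (d • w) → d • w = 0 := by
    intro d hd
    rw [map_smul, hT'w] at hd
    have h1 : (ν - 1) • (d • w) = 0 := by rw [sub_smul, one_smul, ← hd, sub_self]
    exact (smul_eq_zero.1 h1).resolve_left hν1
  have hSa : ∀ a, T' a = ν • a → (T * T' * T⁻¹) a = ν • a := by
    intro a ha
    have h1 : T' ((T * T' * T⁻¹) a) = ν • (T * T' * T⁻¹) a := by
      have h2 : (T * T' * T⁻¹) (T' a) = T' ((T * T' * T⁻¹) a) := LinearEquiv.congr_fun hc a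
      rw [ha, map_smul] at h2
      exact h2.symm
    obtain ⟨c, hc'⟩ := hSν a
    have h3 : c • w = (T * T' * T⁻¹) a - ν • a := by rw [hc']; module
    have h4 := hz c (by rw [h3, map_sub, h1, map_smul, ha, smul_sub])
    rw [hc', h4, add_zero]
  have hTT : T * T' * T⁻¹ = T' := by
    refine LinearEquiv.ext fun x => ?_
    obtain ⟨b, a, ha, hx⟩ := GHlg_dec T' w hT'w ν hν hT'ν x
    rw [hx, map_add, map_add, map_smul, map_smul, hSw, hT'w, hSa a ha, ha]
  have hcc : T * T' = T' * T := by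
    rw [mul_inv_eq_iff_eq_mul] at hTT
    exact hTT
  obtain ⟨b, a, ha, hv⟩ := GHlg_dec T' w hT'w ν hν hT'ν v
  have h5 : T' (T a) = ν • T a := by
    have h2 := LinearEquiv.congr_fun hcc a
    rw [LinearEquiv.mul_apply, LinearEquiv.mul_apply, ha, map_smul] at h2
    exact h2.symm
  have h6 : T v = (b * μ) • w + T a := by
    rw [hv, map_add, map_smul, hw, smul_smul]
  have h7 : (b * μ - b) • w = a - T a := by
    have h8 : v = (b * μ) • w + T a := by rw [← h6, hTv]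
    have h9 : (b * μ) • w + T a = b • w + a := by rw [← h8, hv]
    have h10 : (b * μ - b) • w = ((b * μ) • w + T a) - (b • w + a) + (a - T a) := by module
    rw [h10, h9, sub_self, zero_add]
  have h11 := hz (b * μ - b) (by rw [h7, map_sub, h5, ha, smul_sub])
  have h12 : b * μ - b = 0 := (smul_eq_zero.1 h11).resolve_right hw0
  have h13 : b * (μ - 1) = 0 := by rw [mul_sub, mul_one]; exact h12
  have h14 : b = 0 := (mul_eq_zero.1 h13).resolve_right (sub_ne_zero.2 hμ)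
  rw [h14, zero_smul, zero_add] at hv
  rw [hv, ha]

private theorem ghlg_card {p : ℕ} [Fact p.Prime] {V : Type} [AddCommGroup V] [Module (ZMod p) V]
    [Fintype V] [DecidableEq V] (B : Submodule (ZMod p) V) [DecidablePred (· ∈ B)] :
    ∑ x : {x : V // x ≠ 0}, (if x.1 ∈ B then (1 : ZMod p) else 0) = (Nat.card B : ZMod p) - 1 := by
  have h1 := Fintype.sum_eq_add_sum_subtype_ne
    (fun x : V => if x ∈ B then (1 : ZMod p) else 0) 0
  rw [if_pos B.zero_mem, Finset.sum_boole] at h1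
  have h2 : (Finset.univ.filter (· ∈ B)).card = Nat.card B := by
    rw [Nat.card_eq_fintype_card, Fintype.card_subtype]
  rw [h2] at h1
  rw [h1]
  ring

/-- MODULE GHLG5. The trace argument. `A v` is a subspace of order `p ^ 2` for `v ≠ 0`. PROOF: let `I` be
the type of the nonzero vectors, `|I| = p ^ 3 - 1`, and `N : Matrix I I (ZMod p)`,
`N v w = if w ∈ A v then 1 else 0`; `J` = the matrix with all entries `1`. `N` is symmetric (`hs`), with zero
diagonal (`h0`). `(N * N) v w = #{x ≠ 0 | x ∈ A v, w ∈ A x} = #{x ≠ 0 | x ∈ A v ⊓ A w} = |A v ⊓ A w| - 1`,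
and `p` divides `|A v ⊓ A w|` (this is a power of `p`, and it is not `1` because
`|A v| * |A w| = |A v ⊔ A w| * |A v ⊓ A w|` and `|A v ⊔ A w| ≤ p ^ 3`). So `N * N = - J`.
`(N * J) v w = |A v| - 1 = -1`: `N * J = - J`. By induction `N ^ (k + 2) = (-1) ^ (k + 1) • J`, so
`trace (N ^ p) = (-1) ^ (p - 1) * |I| = (-1) ^ (p - 1) * (-1) ≠ 0` in `ZMod p`. But
`trace (N ^ p) = (trace N) ^ p = 0` (`ZMod.trace_pow_card`). -/
theorem GHlg_trace {p : ℕ} [Fact p.Prime] {V : Type} [AddCommGroup V] [Module (ZMod p) V]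
    [Finite V] (hV : Nat.card V = p ^ 3) (A : V → Submodule (ZMod p) V)
    (hA : ∀ v, v ≠ 0 → Nat.card (A v) = p ^ 2) (h0 : ∀ v, v ≠ 0 → v ∉ A v)
    (hs : ∀ v w, v ≠ 0 → w ≠ 0 → w ∈ A v → v ∈ A w) : False := by
  classical
  have hp : p.Prime := Fact.out
  have := Fintype.ofFinite V
  have hfr : ∀ (W : Submodule (ZMod p) V) (n : ℕ), Nat.card W = p ^ n →
      Module.finrank (ZMod p) W = n := by
    intro W n hW
    have h1 := Module.natCard_eq_pow_finrank (K := ZMod p) (V := W)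
    rw [hW, Nat.card_zmod] at h1
    exact (Nat.pow_right_injective hp.two_le h1).symm
  have hfV : Module.finrank (ZMod p) V = 3 := by
    have h1 := Module.natCard_eq_pow_finrank (K := ZMod p) (V := V)
    rw [hV, Nat.card_zmod] at h1
    exact (Nat.pow_right_injective hp.two_le h1).symm
  have hdiv : ∀ v w, v ≠ 0 → w ≠ 0 → (Nat.card (A v ⊓ A w : Submodule (ZMod p) V) : ZMod p) = 0 := by
    intro v w hv hw
    have h1 := Submodule.finrank_sup_add_finrank_inf_eq (A v) (A w)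
    have h2 : Module.finrank (ZMod p) (A v ⊔ A w : Submodule (ZMod p) V) ≤ 3 := by
      rw [← hfV]
      exact Submodule.finrank_le _
    rw [hfr _ 2 (hA v hv), hfr _ 2 (hA w hw)] at h1
    have h3 : 1 ≤ Module.finrank (ZMod p) (A v ⊓ A w : Submodule (ZMod p) V) := by omega
    have h4 := Module.natCard_eq_pow_finrank (K := ZMod p)
      (V := (A v ⊓ A w : Submodule (ZMod p) V))
    rw [h4, Nat.card_zmod, Nat.cast_pow, CharP.cast_eq_zero, zero_pow (by omega)]
  let N : Matrix {x : V // x ≠ 0} {x : V // x ≠ 0} (ZMod p) :=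
    Matrix.of fun v w => if w.1 ∈ A v.1 then 1 else 0
  let J : Matrix {x : V // x ≠ 0} {x : V // x ≠ 0} (ZMod p) := Matrix.of fun _ _ => 1
  have hNN : N * N = -J := by
    ext v w
    rw [Matrix.mul_apply, Matrix.neg_apply]
    show ∑ x : {x : V // x ≠ 0}, (if x.1 ∈ A v.1 then (1 : ZMod p) else 0) *
      (if w.1 ∈ A x.1 then 1 else 0) = -1
    have h1 : ∀ x : {x : V // x ≠ 0}, (if x.1 ∈ A v.1 then (1 : ZMod p) else 0) *
        (if w.1 ∈ A x.1 then 1 else 0) =
        if x.1 ∈ (A v.1 ⊓ A w.1 : Submodule (ZMod p) V) then 1 else 0 := by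
      intro x
      have h2 : w.1 ∈ A x.1 ↔ x.1 ∈ A w.1 :=
        ⟨hs _ _ x.2 w.2, hs _ _ w.2 x.2⟩
      by_cases ha : x.1 ∈ A v.1 <;> by_cases hb : x.1 ∈ A w.1 <;>
        simp [ha, hb, h2, Submodule.mem_inf]
    rw [Finset.sum_congr rfl fun x _ => h1 x, ghlg_card, hdiv _ _ v.2 w.2, zero_sub]
  have hNJ : N * J = -J := by
    ext v w
    rw [Matrix.mul_apply, Matrix.neg_apply]
    show ∑ x : {x : V // x ≠ 0}, (if x.1 ∈ A v.1 then (1 : ZMod p) else 0) * 1 = -1
    simp only [mul_one]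
    rw [ghlg_card, hA _ v.2, Nat.cast_pow, CharP.cast_eq_zero, zero_pow two_ne_zero, zero_sub]
  have hpow : ∀ k : ℕ, N ^ (k + 2) = (-1 : ZMod p) ^ (k + 1) • J := by
    intro k
    induction k with
    | zero => rw [zero_add, pow_two, hNN, zero_add, pow_one, neg_smul, one_smul]
    | succ k ih =>
      rw [show k + 1 + 2 = (k + 2) + 1 by ring, pow_succ', ih, mul_smul_comm, hNJ,
        pow_succ (-1 : ZMod p) (k + 1), mul_smul, neg_smul, one_smul]
  have hcI : (Fintype.card {x : V // x ≠ 0} : ZMod p) = -1 := by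
    have h1 := ghlg_card (⊤ : Submodule (ZMod p) V)
    have h2 : Nat.card (⊤ : Submodule (ZMod p) V) = p ^ 3 := by
      rw [← hV]
      exact Nat.card_congr (Equiv.Set.univ V)
    rw [h2] at h1
    simp only [Submodule.mem_top, if_true] at h1
    have h3 : ((p ^ 3 : ℕ) : ZMod p) = 0 := by
      rw [Nat.cast_pow, CharP.cast_eq_zero, zero_pow three_ne_zero]
    rw [Finset.sum_const, nsmul_eq_mul, mul_one, h3, zero_sub] at h1
    exact h1
  have hJ : Matrix.trace J = -1 := by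
    rw [Matrix.trace]
    show ∑ v : {x : V // x ≠ 0}, (1 : ZMod p) = -1
    rw [Finset.sum_const, nsmul_eq_mul, mul_one]
    exact hcI
  have hN : Matrix.trace N = 0 := by
    rw [Matrix.trace]
    refine Finset.sum_eq_zero fun v _ => ?_
    show (if v.1 ∈ A v.1 then (1 : ZMod p) else 0) = 0
    rw [if_neg (h0 _ v.2)]
  have h1 := ZMod.trace_pow_card N
  rw [hN, zero_pow hp.ne_zero] at h1
  obtain ⟨k, hk⟩ := Nat.exists_eq_add_of_le hp.two_le
  have h2 := hpow k
  rw [show k + 2 = p by omega] at h2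
  rw [h2, Matrix.trace_smul, hJ, smul_eq_mul] at h1
  have h3 : (-1 : ZMod p) ^ (k + 1) * -1 ≠ 0 :=
    mul_ne_zero (pow_ne_zero _ (neg_ne_zero.2 one_ne_zero)) (neg_ne_zero.2 one_ne_zero)
  exact h3 h1

/-- MODULE GHLG6. Some vector `v ≠ 0` is not the centre of a homology of `H`. PROOF: otherwise
for every `v ≠ 0` there are `T v ∈ H`, `T v ≠ 1`, `μ v` with `T v v = v` and `T v x ∈ μ v • x + span v`;
`μ v ≠ 1` (`GHlg_ne`). `A v` = the kernel of `T v - μ v • 1` (a submodule; `A 0 = ⊥`). `v ∉ A v`. By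
`GHlg_dec`, `V = span v ⊕ A v`, so `p * |A v| = p ^ 3` (the map `(b, a) ↦ b • v + a` from `ZMod p × A v` to `V` is
bijective). `GHlg_symm` and `GHlg_trace`. -/
theorem GHlg_main {p : ℕ} [Fact p.Prime] {V : Type} [AddCommGroup V] [Module (ZMod p) V]
    [Finite V] (hV : Nat.card V = p ^ 3) (H : Subgroup (V ≃ₗ[ZMod p] V)) [Finite H]
    (hH : ¬ p ∣ Nat.card H) :
    ∃ v : V, v ≠ 0 ∧ ∀ T ∈ H, T v = v → ∀ μ : ZMod p,
      (∀ x, ∃ c : ZMod p, T x = μ • x + c • v) → T = 1 := by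
  by_contra hcon
  have h1 : ∀ v : V, ∃ (T : V ≃ₗ[ZMod p] V) (μ : ZMod p), v ≠ 0 → T ∈ H ∧ T v = v ∧
      (∀ x, ∃ c : ZMod p, T x = μ • x + c • v) ∧ T ≠ 1 := by
    intro v
    by_cases hv : v = 0
    · exact ⟨1, 0, fun h => absurd hv h⟩
    · by_contra h2
      apply hcon
      refine ⟨v, hv, fun T hT hTv μ hμ => ?_⟩
      by_contra h3
      exact h2 ⟨T, μ, fun _ => ⟨hT, hTv, hμ, h3⟩⟩
  choose T μ hT using h1
  have hμ : ∀ v, v ≠ 0 → μ v ≠ 1 := fun v hv =>
    GHlg_ne H hH (T v) (hT v hv).1 (hT v hv).2.2.2 v (hT v hv).2.1 (μ v) (hT v hv).2.2.1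
  let A : V → Submodule (ZMod p) V := fun v =>
    LinearMap.ker ((T v : V →ₗ[ZMod p] V) - μ v • LinearMap.id)
  have hmem : ∀ v x, x ∈ A v ↔ T v x = μ v • x := by
    intro v x
    show x ∈ LinearMap.ker ((T v : V →ₗ[ZMod p] V) - μ v • LinearMap.id) ↔ _
    rw [LinearMap.mem_ker, LinearMap.sub_apply, LinearMap.smul_apply, LinearMap.id_apply,
      sub_eq_zero]
    rfl
  have h0 : ∀ v, v ≠ 0 → v ∉ A v := by
    intro v hv hm
    rw [hmem, (hT v hv).2.1] at hm
    have h2 : (μ v - 1) • v = 0 := by rw [sub_smul, ← hm, one_smul, sub_self]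
    rcases smul_eq_zero.1 h2 with h3 | h3
    · exact hμ v hv (sub_eq_zero.1 h3)
    · exact hv h3
  have hA : ∀ v, v ≠ 0 → Nat.card (A v) = p ^ 2 := by
    intro v hv
    have hb : Function.Bijective (fun x : ZMod p × A v => x.1 • v + (x.2 : V)) := by
      constructor
      · rintro ⟨b, a⟩ ⟨b', a'⟩ h
        have h' : b • v + (a : V) = b' • v + (a' : V) := h
        have h2 : (b - b') • v = ((a' - a : A v) : V) := by
          rw [Submodule.coe_sub, sub_smul]
          have h3 : b • v - b' • v = (b • v + (a : V)) - (b' • v + (a' : V)) + (a' - a) := by abel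
          rw [h3, h', sub_self, zero_add]
        by_cases hbb : b - b' = 0
        · rw [hbb, zero_smul] at h2
          have h4 : a' - a = 0 := Subtype.ext h2.symm
          rw [sub_eq_zero.1 hbb, sub_eq_zero.1 h4]
        · exfalso
          apply h0 v hv
          have h5 : (b - b')⁻¹ • ((a' - a : A v) : V) ∈ A v := (A v).smul_mem _ (a' - a).2
          rwa [← h2, smul_smul, inv_mul_cancel₀ hbb, one_smul] at h5
      · intro x
        obtain ⟨b, a, ha, hx⟩ := GHlg_dec (T v) v (hT v hv).2.1 (μ v) (hμ v hv)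
          (hT v hv).2.2.1 x
        exact ⟨(b, ⟨a, (hmem v a).2 ha⟩), hx.symm⟩
    have h2 := Nat.card_congr (Equiv.ofBijective _ hb)
    rw [Nat.card_prod, Nat.card_zmod, hV] at h2
    have hp : 0 < p := (Fact.out : p.Prime).pos
    have h3 : p * Nat.card (A v) = p * p ^ 2 := by rw [h2]; ring
    exact Nat.eq_of_mul_eq_mul_left hp h3
  refine GHlg_trace hV A hA h0 ?_
  intro v w hv hw hm
  rw [hmem] at hm ⊢
  exact GHlg_symm H hH (T v) (T w) (hT v hv).1 (hT w hw).1 v w hw (hT v hv).2.1 (hT w hw).2.1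
    (μ v) (μ w) (hμ v hv) (hμ w hw) (hT v hv).2.2.1 (hT w hw).2.2.1 hm

end Pool.Agent.KBR
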