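import Pool.Agent.KBR.GBri
import Pool.Agent.KBR.GDun
import Pool.Agent.KBR.GFlg
import Pool.Agent.KBR.GHlg

/-! Flags and bases of commutative `p`-groups of rank at most three. -/

namespace Pool.Agent.KBR

/-- `φ` acts as the power map `x ↦ x ^ μ` modulo the subgroup generated by `u`. -/
def ScMod {D : Type} [CommGroup D] (u : D) (φ : MulAut D) (μ : ℕ) : Prop :=
  ∀ x : D, φ x * (x ^ μ)⁻¹ ∈ Subgroup.zpowers u

/-- the subgroup of the `φ ∈ E` which fix `u` -/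
private def geoStab {D : Type} [CommGroup D] (E : Subgroup (MulAut D)) (u : D) :
    Subgroup (MulAut D) where
  carrier := {φ | φ ∈ E ∧ φ u = u}
  mul_mem' := by
    rintro a b ⟨ha, ha'⟩ ⟨hb, hb'⟩
    exact ⟨E.mul_mem ha hb, by rw [MulAut.mul_apply, hb', ha']⟩
  one_mem' := ⟨E.one_mem, rfl⟩
  inv_mem' := by
    rintro a ⟨ha, ha'⟩
    refine ⟨E.inv_mem ha, ?_⟩
    conv_lhs => rw [← ha']
    exact MulAut.inv_apply_self D a u

private theorem geoStab_le {D : Type} [CommGroup D] (E : Subgroup (MulAut D)) (u : D) :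
    geoStab E u ≤ E := fun _ h => h.1

private theorem geo_zp {D : Type} [CommGroup D] {u : D} {φ : MulAut D} (h : φ u = u) {x : D}
    (hx : x ∈ Subgroup.zpowers u) : φ x = x := by
  obtain ⟨k, rfl⟩ := Subgroup.mem_zpowers_iff.1 hx
  rw [map_zpow, h]

section qq

variable {p : ℕ} {D : Type} [CommGroup D] {P U : Subgroup D} {W : Type} [AddCommGroup W]
  [Module (ZMod p) W] {q : D → W}

private theorem geo_eq (hq : ∀ x ∈ P, ∀ y ∈ P, q (x * y) = q x + q y)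
    (h0 : ∀ x ∈ P, q x = 0 ↔ x ∈ U) {x y : D} (hx : x ∈ P) (hy : y ∈ P) :
    q x = q y ↔ x * y⁻¹ ∈ U := by
  have h1 : x * y⁻¹ ∈ P := P.mul_mem hx (P.inv_mem hy)
  have h2 := hq _ h1 _ hy
  rw [inv_mul_cancel_right] at h2
  rw [← h0 _ h1, h2, add_eq_right]

private theorem geo_zpow (hq : ∀ x ∈ P, ∀ y ∈ P, q (x * y) = q x + q y)
    (hk : ∀ x ∈ P, ∀ k : ℕ, q (x ^ k) = (k : ZMod p) • q x) {x : D} (hx : x ∈ P) (j : ℤ) :
    q (x ^ j) = (j : ZMod p) • q x := by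
  have h1 : q 1 = 0 := by
    have := hk 1 P.one_mem 0
    rwa [pow_zero, Nat.cast_zero, zero_smul] at this
  obtain ⟨n, rfl | rfl⟩ := j.eq_nat_or_neg
  · rw [zpow_natCast, hk x hx, Int.cast_natCast]
  · have h2 := hq (x ^ (-(n : ℤ))) (P.zpow_mem hx _) (x ^ n) (P.pow_mem hx _)
    have h3 : x ^ (-(n : ℤ)) * x ^ n = 1 := by
      rw [zpow_neg, zpow_natCast, inv_mul_cancel]
    rw [h3, h1, hk x hx] at h2
    rw [Int.cast_neg, Int.cast_natCast, neg_smul]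
    exact eq_neg_of_add_eq_zero_left h2.symm

end qq

/-- MODULE GGEO1 (the good line). PROOF: let `E₁ ≤ E` be the subgroup of the `φ ∈ E` with `φ u = u`, `p ∤ |E₁|`. `Bri_main` for
`P = ⊤`, `U = zpowers u`, `E₁`: `|W| * orderOf u = |D| = p ^ 2 * orderOf u`, so `|W| = p ^ 2`. `NoSc H`: if `T x = c • x` for all `x`,
`T` comes from `φ ∈ E₁`: `q (φ x) = q (x ^ c.val)`, so `ScMod u φ c.val` and `φ = 1` by `hG`, so `T = 1` (`q` is
surjective). `GFlg_line` gives `q w ≠ 0`. Let `φ ∈ E`, `φ u = u`, `φ w = u ^ i * w ^ j`: the `T` of `φ` has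
`T (q w) = j • q w`, so `T (q w) = q w`, `φ w * w⁻¹ ∈ zpowers u`, fixed by `φ`; `DUni_main`. -/
theorem GeoA_main {p : ℕ} [Fact p.Prime] (hp2 : p ≠ 2) {D : Type} [CommGroup D] [Finite D]
    (hD : IsPGroup p D) (E : Subgroup (MulAut D)) (hE : ¬ p ∣ Nat.card E) (u : D)
    (hcard : Nat.card D = p ^ 2 * orderOf u) (hexp : ∀ x : D, x ^ p ∈ Subgroup.zpowers u)
    (hG : ∀ φ ∈ E, φ u = u → ∀ μ : ℕ, ScMod u φ μ → φ = 1) :
    ∃ w : D, w ∉ Subgroup.zpowers u ∧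
      ∀ φ ∈ E, φ u = u → ∀ i j : ℤ, φ w = u ^ i * w ^ j → φ w = w := by
  have hp : p.Prime := Fact.out
  obtain ⟨W, _, _, _, q, H, _, hq, hsur, h0, hk, hc, hHE, hφT, hTφ⟩ := Bri_main (p := p)
    (⊤ : Subgroup D) (Subgroup.zpowers u) le_top (fun x _ => hexp x) (geoStab E u)
    (fun _ _ _ _ => Subgroup.mem_top _) (fun φ hφ x hx => by rw [geo_zp hφ.2 hx]; exact hx)
  have hW : Nat.card W = p ^ 2 := by
    rw [Subgroup.card_top, hcard, Nat.card_zpowers] at hc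
    exact (Nat.eq_of_mul_eq_mul_right (orderOf_pos u) hc).symm
  have hH : ¬ p ∣ Nat.card H := fun h => hE ((h.trans hHE).trans
    (Subgroup.card_dvd_of_le (geoStab_le E u)))
  have hs : NoSc H := by
    intro T hT c hTc
    obtain ⟨φ, hφ, hφT'⟩ := hTφ T hT
    have h1 : φ = 1 := by
      apply hG φ hφ.1 hφ.2 c.val
      intro x
      rw [← geo_eq hq h0 (Subgroup.mem_top _) (Subgroup.mem_top _), hk x (Subgroup.mem_top _),
        ZMod.natCast_zmod_val, ← hφT' x (Subgroup.mem_top _), hTc]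
    apply LinearEquiv.ext
    intro y
    obtain ⟨x, hx, rfl⟩ := hsur y
    rw [hφT' x hx, h1]
    rfl
  obtain ⟨w', hw', hwl⟩ := GFlg_line hp2 hW H hH hs
  obtain ⟨w, hw, rfl⟩ := hsur w'
  refine ⟨w, fun h => hw' ((h0 w hw).2 h), fun φ hφ hφu i j hij => ?_⟩
  obtain ⟨T, hT, hTφ'⟩ := hφT φ ⟨hφ, hφu⟩
  have h1 : T (q w) = (j : ZMod p) • q w := by
    rw [hTφ' w hw, hij, hq _ (Subgroup.mem_top _) _ (Subgroup.mem_top _),
      (h0 _ (Subgroup.mem_top _)).2 (Subgroup.zpow_mem _ (Subgroup.mem_zpowers u) i), zero_add,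
      geo_zpow hq hk hw]
  have h2 := hwl T hT _ h1
  rw [hTφ' w hw, geo_eq hq h0 (Subgroup.mem_top _) hw] at h2
  exact DUni_main hp hD E hE φ hφ w (geo_zp hφu h2)

/-- MODULE GGEO2 (no homology with centre `u`). PROOF: `Bri_main` for `P = ⊤`, `U = ⊥`: `|W| = p ^ 3`, `q` is bijective. `GHlg_main`: `v = q u`, `u ≠ 1`.
If `φ ∈ E`, `φ u = u`, `ScMod u φ μ`: for the `T` of `φ`: `T v = v` and `T (q x) = q (φ x) = q (x ^ μ * u ^ k)`, so
`T = 1` and `φ = 1`. -/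
theorem GeoB_main {p : ℕ} [Fact p.Prime] {D : Type} [CommGroup D] [Finite D]
    (hD : IsPGroup p D) (E : Subgroup (MulAut D)) (hE : ¬ p ∣ Nat.card E)
    (hcard : Nat.card D = p ^ 3) (hexp : ∀ x : D, x ^ p = 1) :
    ∃ u : D, u ≠ 1 ∧ ∀ φ ∈ E, φ u = u → ∀ μ : ℕ, ScMod u φ μ → φ = 1 := by
  obtain ⟨W, _, _, _, q, H, _, hq, hsur, h0, hk, hc, hHE, hφT, hTφ⟩ := Bri_main (p := p)
    (⊤ : Subgroup D) ⊥ le_top (fun x _ => by rw [hexp x]; exact Subgroup.one_mem _) E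
    (fun _ _ _ _ => Subgroup.mem_top _) (fun φ hφ x hx => by
      rw [Subgroup.mem_bot] at hx ⊢
      rw [hx, map_one])
  have hW : Nat.card W = p ^ 3 := by
    rw [Subgroup.card_top, hcard, Subgroup.card_bot, mul_one] at hc
    exact hc.symm
  have hH : ¬ p ∣ Nat.card H := fun h => hE (h.trans hHE)
  obtain ⟨v, hv, hvl⟩ := GHlg_main hW H hH
  obtain ⟨u, hu, rfl⟩ := hsur v
  refine ⟨u, fun h => hv ((h0 u hu).2 (by rw [h]; exact Subgroup.one_mem _)),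
    fun φ hφ hφu μ hμ => ?_⟩
  obtain ⟨T, hT, hTφ'⟩ := hφT φ hφ
  have h1 : T = 1 := by
    apply hvl T hT (by rw [hTφ' u hu, hφu]) (μ : ZMod p)
    intro y
    obtain ⟨x, hx, rfl⟩ := hsur y
    obtain ⟨k, hk'⟩ := Subgroup.mem_zpowers_iff.1 (hμ x)
    refine ⟨(k : ZMod p), ?_⟩
    have e : φ x = x ^ μ * u ^ k := by
      rw [hk', mul_comm, inv_mul_cancel_right]
    rw [hTφ' x hx, e, hq _ (Subgroup.mem_top _) _ (Subgroup.mem_top _), hk x hx,
      geo_zpow hq hk hu]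
  apply MulEquiv.ext
  intro x
  have h2 : q (φ x) = q x := by
    rw [← hTφ' x (Subgroup.mem_top _), h1]
    rfl
  rw [geo_eq hq h0 (Subgroup.mem_top _) (Subgroup.mem_top _), Subgroup.mem_bot,
    mul_inv_eq_one] at h2
  exact h2

/-- MODULE GGEO3. The `J`-lemma. PROOF: `Bri_main` for `P = ⊤`, `U = zpowers u`, `E`: `|W| = p ^ 2`, `NoSc H` as in `GeoA_main`. `w ∉ zpowers u`:
otherwise `φ₀ w = w`, so `w ^ J = w`, the order of `w` (divisible by `p`) divides `J - 1` (`J ≥ 1`), so `J ≡ 1 [MOD p]`,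
`p - 1 ∣ 1`, `p = 2`. So `q w ≠ 0`. `GFlg_J` with `(J : ZMod p)` (`(J : ZMod p) ^ s = 1 ↔ J ^ s ≡ 1 [MOD p]`), `n` = the `T` of `φ₀`, and the
`T` of `φ`: it is `1`. So `ScMod u φ 1` (`φ x * x⁻¹ ∈ zpowers u`) and `φ = 1` by `hG`. -/
theorem GeoJ_main {p : ℕ} [Fact p.Prime] (hp2 : p ≠ 2) {D : Type} [CommGroup D] [Finite D]
    (hD : IsPGroup p D) (E : Subgroup (MulAut D)) (hE : ¬ p ∣ Nat.card E) (u : D)
    (hu : ∀ φ ∈ E, φ u = u) (hcard : Nat.card D = p ^ 2 * orderOf u)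
    (hexp : ∀ x : D, x ^ p ∈ Subgroup.zpowers u)
    (hG : ∀ φ ∈ E, ∀ μ : ℕ, ScMod u φ μ → φ = 1) (J : ℕ) (hJp : ¬ p ∣ J)
    (hJ : ∀ s, J ^ s ≡ 1 [MOD p] → (p - 1) ∣ s) (φ₀ : MulAut D) (hφ₀ : φ₀ ∈ E) (w : D)
    (hw : w ≠ 1) (h : φ₀ w = w ^ J) (φ : MulAut D) (hφ : φ ∈ E) (hφw : φ w = w) : φ = 1 := by
  have hp : p.Prime := Fact.out
  obtain ⟨W, _, _, _, q, H, _, hq, hsur, h0, hk, hc, hHE, hφT, hTφ⟩ := Bri_main (p := p)
    (⊤ : Subgroup D) (Subgroup.zpowers u) le_top (fun x _ => hexp x) E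
    (fun _ _ _ _ => Subgroup.mem_top _) (fun φ hφ x hx => by rw [geo_zp (hu φ hφ) hx]; exact hx)
  have hW : Nat.card W = p ^ 2 := by
    rw [Subgroup.card_top, hcard, Nat.card_zpowers] at hc
    exact (Nat.eq_of_mul_eq_mul_right (orderOf_pos u) hc).symm
  have hH : ¬ p ∣ Nat.card H := fun h => hE (h.trans hHE)
  have hs : NoSc H := by
    intro T hT c hTc
    obtain ⟨φ, hφ, hφT'⟩ := hTφ T hT
    have h1 : φ = 1 := by
      apply hG φ hφ c.val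
      intro x
      rw [← geo_eq hq h0 (Subgroup.mem_top _) (Subgroup.mem_top _), hk x (Subgroup.mem_top _),
        ZMod.natCast_zmod_val, ← hφT' x (Subgroup.mem_top _), hTc]
    apply LinearEquiv.ext
    intro y
    obtain ⟨x, hx, rfl⟩ := hsur y
    rw [hφT' x hx, h1]
    rfl
  have hJ1 : 1 ≤ J := by
    rcases Nat.eq_zero_or_pos J with h' | h'
    · exact absurd (h' ▸ dvd_zero p) hJp
    · exact h'
  have hwu : w ∉ Subgroup.zpowers u := by
    intro hmem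
    have h1 := geo_zp (hu φ₀ hφ₀) hmem
    rw [h] at h1
    have h2 : w ^ (J - 1) = 1 := by
      have h3 : w ^ (J - 1) * w = 1 * w := by
        rw [← pow_succ, Nat.sub_add_cancel hJ1, h1, one_mul]
      exact mul_right_cancel h3
    have h4 : orderOf w ∣ J - 1 := orderOf_dvd_of_pow_eq_one h2
    obtain ⟨k, hk'⟩ := IsPGroup.iff_orderOf.1 hD w
    have h5 : p ∣ orderOf w := by
      rw [hk']
      rcases Nat.eq_zero_or_pos k with hk0 | hk0
      · rw [hk0, pow_zero, orderOf_eq_one_iff] at hk'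
        exact absurd hk' hw
      · exact dvd_pow_self p hk0.ne'
    have h6 : J ≡ 1 [MOD p] := ((Nat.modEq_iff_dvd' hJ1).2 (h5.trans h4)).symm
    have h7 := hJ 1 (by rw [pow_one]; exact h6)
    have h8 : p - 1 = 1 := Nat.dvd_one.1 h7
    have h9 := hp.two_le
    exact hp2 (by omega)
  have hqw : q w ≠ 0 := fun h => hwu ((h0 w (Subgroup.mem_top _)).1 h)
  have hJ0 : (J : ZMod p) ≠ 0 := by
    intro h
    exact hJp ((ZMod.natCast_eq_zero_iff J p).1 h)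
  have hJs : ∀ s : ℕ, (J : ZMod p) ^ s = 1 → (p - 1) ∣ s := by
    intro s hs
    apply hJ s
    rw [← ZMod.natCast_eq_natCast_iff, Nat.cast_pow, Nat.cast_one]
    exact hs
  obtain ⟨T₀, hT₀, hT₀'⟩ := hφT φ₀ hφ₀
  obtain ⟨T, hT, hT'⟩ := hφT φ hφ
  have h1 : T = 1 := by
    apply GFlg_J hp2 hW H hH hs (J : ZMod p) hJ0 hJs T₀ hT₀ (q w) hqw ?_ T hT ?_
    · rw [hT₀' w (Subgroup.mem_top _), h, hk w (Subgroup.mem_top _)]
    · rw [hT' w (Subgroup.mem_top _), hφw]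
  apply hG φ hφ 1
  intro x
  rw [pow_one, ← geo_eq hq h0 (Subgroup.mem_top _) (Subgroup.mem_top _),
    ← hT' x (Subgroup.mem_top _), h1]
  rfl

end Pool.Agent.KBR
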