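import Pool.Agent.KBR.GGeoA

/-! Bases of size two. -/

namespace Pool.Agent.KBR

/-- The elements `x` with `x ^ p = 1`. -/
def Om (p : ℕ) (D : Type) [CommGroup D] : Subgroup D where
  carrier := {x | x ^ p = 1}
  mul_mem' := by
    intro a b ha hb
    show (a * b) ^ p = 1
    rw [mul_pow, show a ^ p = 1 from ha, show b ^ p = 1 from hb, one_mul]
  one_mem' := one_pow p
  inv_mem' := by
    intro a ha
    show a⁻¹ ^ p = 1
    rw [inv_pow, show a ^ p = 1 from ha, inv_one]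

theorem Om_mem (p : ℕ) (D : Type) [CommGroup D] (x : D) : x ∈ Om p D ↔ x ^ p = 1 := Iff.rfl

/-- the subgroup of the `φ ∈ E` which fix `u` -/
private def gcStab {D : Type} [CommGroup D] (E : Subgroup (MulAut D)) (u : D) :
    Subgroup (MulAut D) where
  carrier := {φ | φ ∈ E ∧ φ u = u}
  mul_mem' := by
    rintro a b ⟨ha, ha'⟩ ⟨hb, hb'⟩
    exact ⟨E.mul_mem ha hb, by rw [MulAut.mul_apply, hb', ha']⟩
  one_mem' := ⟨E.one_mem, rfl⟩
  inv_mem' := by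
    rintro a ⟨ha, ha'⟩
    refine ⟨E.inv_mem ha, ?_⟩
    conv_lhs => rw [← ha']
    exact MulAut.inv_apply_self D a u

private theorem gcStab_le {D : Type} [CommGroup D] (E : Subgroup (MulAut D)) (u : D) :
    gcStab E u ≤ E := fun _ h => h.1

private theorem gc_zp {D : Type} [CommGroup D] {u : D} {φ : MulAut D} (h : φ u = u) {x : D}
    (hx : x ∈ Subgroup.zpowers u) : φ x = x := by
  obtain ⟨k, rfl⟩ := Subgroup.mem_zpowers_iff.1 hx
  rw [map_zpow, h]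

private theorem gc_om {p : ℕ} {D : Type} [CommGroup D] (φ : MulAut D) {x : D} (hx : x ∈ Om p D) :
    φ x ∈ Om p D := by
  rw [Om_mem] at hx ⊢
  rw [← map_pow, hx, map_one]

section qq

variable {p : ℕ} {D : Type} [CommGroup D] {P U : Subgroup D} {W : Type} [AddCommGroup W]
  [Module (ZMod p) W] {q : D → W}

private theorem gc_eq (hq : ∀ x ∈ P, ∀ y ∈ P, q (x * y) = q x + q y)
    (h0 : ∀ x ∈ P, q x = 0 ↔ x ∈ U) {x y : D} (hx : x ∈ P) (hy : y ∈ P) :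
    q x = q y ↔ x * y⁻¹ ∈ U := by
  have h1 : x * y⁻¹ ∈ P := P.mul_mem hx (P.inv_mem hy)
  have h2 := hq _ h1 _ hy
  rw [inv_mul_cancel_right] at h2
  rw [← h0 _ h1, h2, add_eq_right]

private theorem gc_zpow (hq : ∀ x ∈ P, ∀ y ∈ P, q (x * y) = q x + q y)
    (hk : ∀ x ∈ P, ∀ k : ℕ, q (x ^ k) = (k : ZMod p) • q x) {x : D} (hx : x ∈ P) (j : ℤ) :
    q (x ^ j) = (j : ZMod p) • q x := by
  have h1 : q 1 = 0 := by
    have := hk 1 P.one_mem 0
    rwa [pow_zero, Nat.cast_zero, zero_smul] at this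
  obtain ⟨n, rfl | rfl⟩ := j.eq_nat_or_neg
  · rw [zpow_natCast, hk x hx, Int.cast_natCast]
  · have h2 := hq (x ^ (-(n : ℤ))) (P.zpow_mem hx _) (x ^ n) (P.pow_mem hx _)
    have h3 : x ^ (-(n : ℤ)) * x ^ n = 1 := by
      rw [zpow_neg, zpow_natCast, inv_mul_cancel]
    rw [h3, h1, hk x hx] at h2
    rw [Int.cast_neg, Int.cast_natCast, neg_smul]
    exact eq_neg_of_add_eq_zero_left h2.symm

end qq

private theorem gc_ord {p : ℕ} (hp : p.Prime) {D : Type} [CommGroup D] {v : D}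
    (hv : v ∈ Om p D) (hv1 : v ≠ 1) : orderOf v = p := by
  have : Fact p.Prime := ⟨hp⟩
  exact orderOf_eq_prime ((Om_mem p D v).1 hv) hv1

/-- the end of the arguments -/
private theorem gc_end {p : ℕ} (hp : p.Prime) {D : Type} [CommGroup D] [Finite D]
    (hD : IsPGroup p D) (E : Subgroup (MulAut D)) (hE : ¬ p ∣ Nat.card E) (v : D)
    (φ : MulAut D) (hφ : φ ∈ E) (hφv : φ v = v)
    (h : ∀ x ∈ Om p D, φ x * x⁻¹ ∈ Subgroup.zpowers v) : φ = 1 := by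
  apply DOm_main hp hD E hE φ hφ
  intro x hx
  exact DUni_main hp hD E hE φ hφ x (gc_zp hφv (h x hx))

/-- a subgroup of order at most `p ^ 2` is generated by two independent elements -/
private theorem gc_span {p : ℕ} (hp : p.Prime) {D : Type} [CommGroup D] [Finite D]
    (hD : IsPGroup p D) (V : Subgroup D) (hVc : Nat.card V ≤ p ^ 2) (v v' : D) (hv : v ∈ V)
    (hv' : v' ∈ V) (hvo : orderOf v = p) (hvv : v' ∉ Subgroup.zpowers v) (x : D) (hx : x ∈ V) :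
    ∃ i j : ℤ, x = v ^ i * v' ^ j := by
  have : Fact p.Prime := ⟨hp⟩
  set K := Subgroup.zpowers v ⊔ Subgroup.zpowers v' with hK
  have hKV : K ≤ V := sup_le (by rwa [Subgroup.zpowers_le]) (by rwa [Subgroup.zpowers_le])
  have hvK : Subgroup.zpowers v ≤ K := le_sup_left
  obtain ⟨n, hn⟩ := (hD.to_subgroup K).exists_card_eq
  have hn2 : 2 ≤ n := by
    by_contra hlt
    push Not at hlt
    have h1 : Nat.card K ≤ Nat.card (Subgroup.zpowers v) := by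
      rw [hn, Nat.card_zpowers, hvo]
      calc p ^ n ≤ p ^ 1 := Nat.pow_le_pow_right hp.pos (by omega)
        _ = p := pow_one p
    have h2 := Subgroup.eq_of_le_of_card_ge hvK h1
    apply hvv
    rw [h2]
    exact (le_sup_right : Subgroup.zpowers v' ≤ K) (Subgroup.mem_zpowers v')
  have h3 : Nat.card V ≤ Nat.card K := by
    rw [hn]
    exact hVc.trans (Nat.pow_le_pow_right hp.pos hn2)
  have h4 := Subgroup.eq_of_le_of_card_ge hKV h3
  rw [← h4, hK, Subgroup.mem_sup] at hx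
  obtain ⟨a, ha, b, hb, rfl⟩ := hx
  obtain ⟨i, rfl⟩ := Subgroup.mem_zpowers_iff.1 ha
  obtain ⟨j, rfl⟩ := Subgroup.mem_zpowers_iff.1 hb
  exact ⟨i, j, rfl⟩

/-- MODULE GGEO4. `|Om p D| = p ^ 3`. PROOF: `Bri_main` for `P = Om p D`, `U = ⊥`, `E`: `|W| = p ^ 3`; `GHlg_main` gives `v ∈ Om p D`, `v ≠ 1`, such that no `φ ∈ E`
with `φ v = v` which acts on `Om p D` as `x ↦ x ^ μ` modulo `zpowers v` is nontrivial on `Om p D` (translate `T = 1` back). Then `Bri_main` for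
`P = Om p D`, `U = zpowers v`, `E₁ = {φ ∈ E | φ v = v}`: `|W| = p ^ 2`, `NoSc H` by the choice of `v` (a `T` with `T x = c • x` comes from
`φ ∈ E₁` acting as `x ↦ x ^ c.val` modulo `zpowers v`, so `φ` is trivial on `Om p D`, `T = 1`). `GFlg_reg`: `q y ≠ 0`, `y ∈ Om p D`. If
`φ ∈ E`, `φ v = v`, `φ y = y`: the `T` of `φ` is `1`, so `φ x * x⁻¹ ∈ zpowers v` for `x ∈ Om p D`, fixed by `φ`;
`DUni_main`: `φ x = x`; `DOm_main`: `φ = 1`. -/
theorem GeoC_three {p : ℕ} [Fact p.Prime] (hp2 : p ≠ 2) {D : Type} [CommGroup D] [Finite D]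
    (hD : IsPGroup p D) (E : Subgroup (MulAut D)) (hE : ¬ p ∣ Nat.card E)
    (hcard : Nat.card (Om p D) = p ^ 3) :
    ∃ v ∈ Om p D, ∃ y ∈ Om p D, v ≠ 1 ∧ ∀ φ ∈ E, φ v = v → φ y = y → φ = 1 := by
  have hp : p.Prime := Fact.out
  obtain ⟨v, hv, hv1, hcl⟩ : ∃ v ∈ Om p D, v ≠ 1 ∧ ∀ φ ∈ E, φ v = v → ∀ μ : ℕ,
      (∀ x ∈ Om p D, φ x * (x ^ μ)⁻¹ ∈ Subgroup.zpowers v) → ∀ x ∈ Om p D, φ x = x := by
    obtain ⟨W, _, _, _, q, H, _, hq, hsur, h0, hk, hc, hHE, hφT, hTφ⟩ := Bri_main (p := p)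
      (Om p D) ⊥ bot_le (fun x hx => by
        rw [(Om_mem p D x).1 hx]
        exact Subgroup.one_mem _) E
      (fun φ _ x hx => gc_om φ hx) (fun φ hφ x hx => by
        rw [Subgroup.mem_bot] at hx ⊢
        rw [hx, map_one])
    have hW : Nat.card W = p ^ 3 := by
      rw [hcard, Subgroup.card_bot, mul_one] at hc
      exact hc.symm
    have hH : ¬ p ∣ Nat.card H := fun h => hE (h.trans hHE)
    obtain ⟨v', hv', hvl⟩ := GHlg_main hW H hH
    obtain ⟨v, hv, rfl⟩ := hsur v'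
    refine ⟨v, hv, fun h => hv' ((h0 v hv).2 (by rw [h]; exact Subgroup.one_mem _)),
      fun φ hφ hφv μ hμ => ?_⟩
    obtain ⟨T, hT, hTφ'⟩ := hφT φ hφ
    have h1 : T = 1 := by
      apply hvl T hT (by rw [hTφ' v hv, hφv]) (μ : ZMod p)
      intro y
      obtain ⟨x, hx, rfl⟩ := hsur y
      obtain ⟨k, hk'⟩ := Subgroup.mem_zpowers_iff.1 (hμ x hx)
      refine ⟨(k : ZMod p), ?_⟩
      have e : φ x = x ^ μ * v ^ k := by
        rw [hk', mul_comm, inv_mul_cancel_right]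
      rw [hTφ' x hx, e, hq _ (Subgroup.pow_mem _ hx _) _ (Subgroup.zpow_mem _ hv _), hk x hx,
        gc_zpow hq hk hv]
    intro x hx
    have h2 : q (φ x) = q x := by
      rw [← hTφ' x hx, h1]
      rfl
    rw [gc_eq hq h0 (gc_om φ hx) hx, Subgroup.mem_bot, mul_inv_eq_one] at h2
    exact h2
  have hvo := gc_ord hp hv hv1
  obtain ⟨W, _, _, _, q, H, _, hq, hsur, h0, hk, hc, hHE, hφT, hTφ⟩ := Bri_main (p := p)
    (Om p D) (Subgroup.zpowers v) (by rwa [Subgroup.zpowers_le]) (fun x hx => by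
      rw [(Om_mem p D x).1 hx]
      exact Subgroup.one_mem _) (gcStab E v)
    (fun φ _ x hx => gc_om φ hx) (fun φ hφ x hx => by rw [gc_zp hφ.2 hx]; exact hx)
  have hW : Nat.card W = p ^ 2 := by
    rw [hcard, Nat.card_zpowers, hvo, pow_succ] at hc
    exact (Nat.eq_of_mul_eq_mul_right hp.pos hc).symm
  have hH : ¬ p ∣ Nat.card H := fun h => hE ((h.trans hHE).trans
    (Subgroup.card_dvd_of_le (gcStab_le E v)))
  have hs : NoSc H := by
    intro T hT c hTc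
    obtain ⟨φ, hφ, hφT'⟩ := hTφ T hT
    have h1 : ∀ x ∈ Om p D, φ x = x := by
      apply hcl φ hφ.1 hφ.2 c.val
      intro x hx
      rw [← gc_eq hq h0 (gc_om φ hx) (Subgroup.pow_mem _ hx _), hk x hx,
        ZMod.natCast_zmod_val, ← hφT' x hx, hTc]
    apply LinearEquiv.ext
    intro y
    obtain ⟨x, hx, rfl⟩ := hsur y
    rw [hφT' x hx, h1 x hx]
    rfl
  obtain ⟨w, hw, hwl⟩ := GFlg_reg hp2 hW H hH hs
  obtain ⟨y, hy, rfl⟩ := hsur w
  refine ⟨v, hv, y, hy, hv1, fun φ hφ hφv hφy => ?_⟩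
  obtain ⟨T, hT, hTφ'⟩ := hφT φ ⟨hφ, hφv⟩
  have h1 : T = 1 := hwl T hT (by rw [hTφ' y hy, hφy])
  apply gc_end hp hD E hE v φ hφ hφv
  intro x hx
  rw [← gc_eq hq h0 (gc_om φ hx) hx, ← hTφ' x hx, h1]
  rfl

/-- MODULE GGEO5. `|Om p D| = p ^ 3`, `V ≤ Om p D` of order at least `p ^ 2`, preserved by `E`, and `V ≠ Om p D` (so `|V| = p ^ 2`). PROOF: choose
`v ∈ V`, `v ≠ 1`. `Bri_main` for `P = Om p D`, `U = zpowers v`, `E₁ = {φ ∈ E | φ v = v}`: `|W| = p ^ 2`. Choose `v' ∈ V` outside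
`zpowers v`; `V` is generated by `v`, `v'`, so every `T ∈ H` maps `q v' ≠ 0` to a multiple of it. `GAbl_line` and `GAbl_reg`: `q y ≠ 0`. End as in
`GeoC_three`. -/
theorem GeoC_two {p : ℕ} [Fact p.Prime] {D : Type} [CommGroup D] [Finite D]
    (hD : IsPGroup p D) (E : Subgroup (MulAut D)) (hE : ¬ p ∣ Nat.card E)
    (hcard : Nat.card (Om p D) = p ^ 3) (V : Subgroup D) (hV : V ≤ Om p D)
    (hVc : Nat.card V = p ^ 2) (hVE : ∀ φ ∈ E, ∀ x ∈ V, φ x ∈ V) :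
    ∃ v ∈ V, ∃ y ∈ Om p D, v ≠ 1 ∧ ∀ φ ∈ E, φ v = v → φ y = y → φ = 1 := by
  have hp : p.Prime := Fact.out
  obtain ⟨v, hvV, hv1⟩ : ∃ v ∈ V, v ≠ 1 := by
    by_contra hcon
    push Not at hcon
    have h1 : V = ⊥ := (Subgroup.eq_bot_iff_forall V).2 hcon
    rw [h1, Subgroup.card_bot] at hVc
    have h2 := hp.one_lt
    nlinarith
  have hv : v ∈ Om p D := hV hvV
  have hvo := gc_ord hp hv hv1
  obtain ⟨v', hv'V, hvv⟩ : ∃ v' ∈ V, v' ∉ Subgroup.zpowers v := by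
    by_contra hcon
    push Not at hcon
    have h1 : Nat.card V ≤ Nat.card (Subgroup.zpowers v) := Subgroup.card_le_of_le hcon
    rw [hVc, Nat.card_zpowers, hvo] at h1
    have h2 := hp.one_lt
    nlinarith
  obtain ⟨W, _, _, _, q, H, _, hq, hsur, h0, hk, hc, hHE, hφT, hTφ⟩ := Bri_main (p := p)
    (Om p D) (Subgroup.zpowers v) (by rwa [Subgroup.zpowers_le]) (fun x hx => by
      rw [(Om_mem p D x).1 hx]
      exact Subgroup.one_mem _) (gcStab E v)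
    (fun φ _ x hx => gc_om φ hx) (fun φ hφ x hx => by rw [gc_zp hφ.2 hx]; exact hx)
  have hW : Nat.card W = p ^ 2 := by
    rw [hcard, Nat.card_zpowers, hvo, pow_succ] at hc
    exact (Nat.eq_of_mul_eq_mul_right hp.pos hc).symm
  have hH : ¬ p ∣ Nat.card H := fun h => hE ((h.trans hHE).trans
    (Subgroup.card_dvd_of_le (gcStab_le E v)))
  have hqv' : q v' ≠ 0 := fun h => hvv ((h0 v' (hV hv'V)).1 h)
  have hcomm := GAbl_line hW H hH (q v') hqv' (fun T hT => by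
    obtain ⟨φ, hφ, hφT'⟩ := hTφ T hT
    obtain ⟨i, j, hij⟩ := gc_span hp hD V hVc.le v v' hvV hv'V hvo hvv (φ v')
      (hVE φ hφ.1 v' hv'V)
    refine ⟨(j : ZMod p), ?_⟩
    rw [hφT' v' (hV hv'V), hij, hq _ (Subgroup.zpow_mem _ hv _) _
      (Subgroup.zpow_mem _ (hV hv'V) _), (h0 _ (Subgroup.zpow_mem _ hv _)).2
      (Subgroup.zpow_mem _ (Subgroup.mem_zpowers v) i), zero_add, gc_zpow hq hk (hV hv'V)])
  obtain ⟨w, hw, hwl⟩ := GAbl_reg hW H hcomm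
  obtain ⟨y, hy, rfl⟩ := hsur w
  refine ⟨v, hvV, y, hy, hv1, fun φ hφ hφv hφy => ?_⟩
  obtain ⟨T, hT, hTφ'⟩ := hφT φ ⟨hφ, hφv⟩
  have h1 : T = 1 := hwl T hT (by rw [hTφ' y hy, hφy])
  apply gc_end hp hD E hE v φ hφ hφv
  intro x hx
  rw [← gc_eq hq h0 (gc_om φ hx) hx, ← hTφ' x hx, h1]
  rfl

/-- MODULE GGEO6. `|Om p D| ≤ p ^ 2` and `v ∈ Om p D`, `v ≠ 1`. PROOF: `|Om p D|` is a power of `p` (`p` or `p ^ 2`). If `Om p D = zpowers v` take `y = 1`;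
otherwise take `y ∈ Om p D` outside `zpowers v`: `v`, `y` generate `Om p D`. `DOm_main`. -/
theorem GeoC_one {p : ℕ} [Fact p.Prime] {D : Type} [CommGroup D] [Finite D]
    (hD : IsPGroup p D) (E : Subgroup (MulAut D)) (hE : ¬ p ∣ Nat.card E)
    (hcard : Nat.card (Om p D) ≤ p ^ 2) (v : D) (hv : v ∈ Om p D) (hv1 : v ≠ 1) :
    ∃ y ∈ Om p D, ∀ φ ∈ E, φ v = v → φ y = y → φ = 1 := by
  have hp : p.Prime := Fact.out
  have hvo := gc_ord hp hv hv1
  by_cases hall : ∀ y ∈ Om p D, y ∈ Subgroup.zpowers v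
  · refine ⟨1, Subgroup.one_mem _, fun φ hφ hφv _ => ?_⟩
    apply DOm_main hp hD E hE φ hφ
    intro x hx
    exact gc_zp hφv (hall x hx)
  · push Not at hall
    obtain ⟨y, hy, hyv⟩ := hall
    refine ⟨y, hy, fun φ hφ hφv hφy => ?_⟩
    apply DOm_main hp hD E hE φ hφ
    intro x hx
    obtain ⟨i, j, rfl⟩ := gc_span hp hD (Om p D) hcard v y hv hy hvo hyv x hx
    rw [map_mul, map_zpow, map_zpow, hφv, hφy]

end Pool.Agent.KBR
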