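import Pool.Agent.KBR.GGeoC

/-! The choice of `u` (and `w`) in a commutative `p`-group of rank at most three. -/

namespace Pool.Agent.KBR

/-- MODULE GGEO7. The exponent. PROOF: let `n` be the least number with `x ^ (p ^ n) = 1` for all `x` (`n ≥ 2` by `hne`: some `x ^ p ≠ 1`);
`m = p ^ (n - 1)`: `p ∣ m`, `x ^ (p * m) = 1` for all `x`, some `x₀ ^ m ≠ 1`. -/
theorem GeoD_exp {p : ℕ} (hp : p.Prime) {D : Type} [CommGroup D] [Finite D]
    (hD : IsPGroup p D) (hne : ∃ x : D, x ^ p ≠ 1) :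
    ∃ n : ℕ, 1 ≤ n ∧ (∀ x : D, x ^ (p * p ^ n) = 1) ∧ ∃ x₀ : D, x₀ ^ (p ^ n) ≠ 1 := by
  classical
  have hF : Fact p.Prime := ⟨hp⟩
  obtain ⟨k, hk⟩ := (IsPGroup.iff_card (p := p)).1 hD
  have hex : ∃ n : ℕ, ∀ x : D, x ^ (p ^ n) = 1 := ⟨k, fun x => by
    rw [← hk]
    exact pow_card_eq_one'⟩
  obtain ⟨x₁, hx₁⟩ := hne
  have h0 : Nat.find hex ≠ 0 := by
    intro h
    have h1 := Nat.find_spec hex x₁
    rw [h, pow_zero, pow_one] at h1
    exact hx₁ (by rw [h1, one_pow])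
  have h1 : Nat.find hex ≠ 1 := by
    intro h
    have h1 := Nat.find_spec hex x₁
    rw [h, pow_one] at h1
    exact hx₁ h1
  obtain ⟨n, hn⟩ : ∃ n, Nat.find hex = n + 1 := ⟨Nat.find hex - 1, by omega⟩
  refine ⟨n, by omega, fun x => ?_, ?_⟩
  · have h2 := Nat.find_spec hex x
    rw [hn] at h2
    rwa [← pow_succ']
  · have h2 := Nat.find_min hex (m := n) (by omega)
    push Not at h2
    exact h2

/-- MODULE GGEO8. Rank at most two, not elementary: a regular element. PROOF: `GeoD_exp`: `m = p ^ n`, `v = x₀ ^ m ∈ Om p D`,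
`v ≠ 1`. `GeoC_one`: `y`. `DAvg_two`: `x`; `y ^ m = 1` as `p ∣ m`. `u = x * y`: `φ u = u` gives `φ v = v`, `φ y = y`, so `φ = 1`. -/
theorem GeoD_two {p : ℕ} [Fact p.Prime] {D : Type} [CommGroup D] [Finite D]
    (hD : IsPGroup p D) (E : Subgroup (MulAut D)) (hE : ¬ p ∣ Nat.card E)
    (hcard : Nat.card (Om p D) ≤ p ^ 2) (hne : ∃ x : D, x ^ p ≠ 1) :
    ∃ u : D, ∀ φ ∈ E, φ u = u → φ = 1 := by
  have hp := (Fact.out : p.Prime)
  obtain ⟨n, hn, hexp, x₀, hx₀⟩ := GeoD_exp hp hD hne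
  have hv : x₀ ^ (p ^ n) ∈ Om p D := by
    rw [Om_mem, ← pow_mul, mul_comm]
    exact hexp x₀
  obtain ⟨y, hy, hy'⟩ := GeoC_one hD E hE hcard _ hv hx₀
  obtain ⟨x, -, -, hx⟩ := DAvg_two hp hD E hE (x₀ ^ (p ^ n)) x₀ (p ^ n) rfl
  have hym : y ^ (p ^ n) = 1 := by
    obtain ⟨c, hc⟩ : p ∣ p ^ n := dvd_pow_self p (by omega)
    rw [hc, pow_mul, (Om_mem p D y).1 hy, one_pow]
  refine ⟨x * y, fun φ hφ h => ?_⟩
  obtain ⟨h1, -, h3⟩ := hx y hym φ hφ h
  exact hy' φ hφ h1 h3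

/-- MODULE GGEO9. Rank three, `|D ^ m| ≥ p ^ 2`. `V` is the subgroup of the `x ^ (p ^ n)`, `V ≤ Om p D`. PROOF: `|V|` is `p ^ 2` or `p ^ 3`. In the second case `V = Om p D`
and `GeoC_three` gives `v`, `y`; in the first case `GeoC_two` (`V` is preserved by all automorphisms). `v = x₀ ^ (p ^ n)` for some `x₀`; `DAvg_two` with
`m = p ^ n` (`n ≥ 1`, so `y ^ m = 1`) gives `x`, `u = x * y`. -/
theorem GeoD_big {p : ℕ} [Fact p.Prime] (hp2 : p ≠ 2) {D : Type} [CommGroup D] [Finite D]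
    (hD : IsPGroup p D) (E : Subgroup (MulAut D)) (hE : ¬ p ∣ Nat.card E)
    (hcard : Nat.card (Om p D) = p ^ 3) (n : ℕ) (hn : 1 ≤ n) (hexp : ∀ x : D, x ^ (p * p ^ n) = 1)
    (V : Subgroup D) (hV : ∀ v, v ∈ V ↔ ∃ x : D, x ^ (p ^ n) = v) (hVc : p ^ 2 ≤ Nat.card V) :
    ∃ u : D, ∀ φ ∈ E, φ u = u → φ = 1 := by
  have hp : p.Prime := Fact.out
  have hVO : V ≤ Om p D := by
    intro v hv
    obtain ⟨x, hx⟩ := (hV v).1 hv
    rw [Om_mem, ← hx, ← pow_mul, mul_comm]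
    exact hexp x
  have hVE : ∀ φ ∈ E, ∀ x ∈ V, φ x ∈ V := by
    intro φ _ x hx
    obtain ⟨z, hz⟩ := (hV x).1 hx
    exact (hV _).2 ⟨φ z, by rw [← map_pow, hz]⟩
  have key : ∃ v ∈ V, ∃ y ∈ Om p D, v ≠ 1 ∧ ∀ φ ∈ E, φ v = v → φ y = y → φ = 1 := by
    have hdvd : Nat.card V ∣ p ^ 3 := by
      rw [← hcard]
      exact Subgroup.card_dvd_of_le hVO
    obtain ⟨k, hk3, hk⟩ := (Nat.dvd_prime_pow hp).1 hdvd
    have hk2 : 2 ≤ k := by
      rw [hk] at hVc
      exact (Nat.pow_le_pow_iff_right hp.one_lt).1 hVc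
    rcases Nat.lt_or_ge k 3 with h | h
    · have hk' : k = 2 := by omega
      rw [hk'] at hk
      exact GeoC_two hD E hE hcard V hVO hk hVE
    · have hk' : k = 3 := by omega
      rw [hk'] at hk
      have hVeq : V = Om p D := Subgroup.eq_of_le_of_card_ge hVO (by rw [hk, hcard])
      rw [hVeq]
      exact GeoC_three hp2 hD E hE hcard
  obtain ⟨v, hv, y, hy, -, hreg⟩ := key
  obtain ⟨x₀, hx₀⟩ := (hV v).1 hv
  obtain ⟨x, -, -, hx⟩ := DAvg_two hp hD E hE v x₀ (p ^ n) hx₀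
  have hy' : y ^ (p ^ n) = 1 := by
    obtain ⟨k, rfl⟩ := Nat.exists_eq_add_of_le' hn
    rw [pow_succ', pow_mul, (Om_mem p D y).1 hy, one_pow]
  exact ⟨x * y, fun φ hφ h => by
    obtain ⟨h1, -, h3⟩ := hx y hy' φ hφ h
    exact hreg φ hφ h1 h3⟩

private theorem geod_index (p : ℕ) (G : Type) [CommGroup G] [Finite G] :
    (powMonoidHom p : G →* G).range.index = Nat.card (Om p G) := by
  have h1 : (powMonoidHom p : G →* G).ker = Om p G := by
    ext x
    rw [MonoidHom.mem_ker, powMonoidHom_apply, Om_mem]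
  have h2 := Subgroup.card_mul_index (powMonoidHom p : G →* G).range
  have h3 := Subgroup.card_mul_index (powMonoidHom p : G →* G).ker
  rw [Subgroup.index_ker, h1] at h3
  rw [← h3, mul_comm (Nat.card (Om p G))] at h2
  exact Nat.eq_of_mul_eq_mul_left Nat.card_pos h2

private theorem geod_quot {p : ℕ} (hp : p.Prime) {D : Type} [CommGroup D] [Finite D]
    (hcard : Nat.card (Om p D) = p ^ 3) (x : D) (hx : ∀ z : D, z ^ p ≠ x) :
    Nat.card (Om p (D ⧸ Subgroup.zpowers x)) ≤ p ^ 2 := by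
  set N : Subgroup D := Subgroup.zpowers x with hN
  set R : Subgroup D := (powMonoidHom p : D →* D).range with hR
  set RQ : Subgroup (D ⧸ N) := (powMonoidHom p : (D ⧸ N) →* (D ⧸ N)).range with hRQ
  set R' : Subgroup D := RQ.comap (QuotientGroup.mk' N) with hR'
  have hle : R ≤ R' := by
    rintro _ ⟨z, rfl⟩
    rw [hR', Subgroup.mem_comap, hRQ]
    exact ⟨QuotientGroup.mk' N z, by rw [powMonoidHom_apply, powMonoidHom_apply, map_pow]⟩
  have h1 : R.relIndex R' * R'.index = R.index := Subgroup.relIndex_mul_index hle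
  have h2 : R'.index = Nat.card (Om p (D ⧸ N)) := by
    rw [hR', Subgroup.index_comap_of_surjective _ (QuotientGroup.mk'_surjective N), hRQ]
    exact geod_index p (D ⧸ N)
  have h3 : R.index = p ^ 3 := by
    rw [hR, geod_index, hcard]
  rw [h2, h3] at h1
  obtain ⟨k, hk3, hk⟩ := (Nat.dvd_prime_pow hp).1 (Dvd.intro_left _ h1)
  rcases Nat.lt_or_ge k 3 with h | h
  · rw [hk]
    exact Nat.pow_le_pow_right hp.pos (by omega)
  · exfalso
    have hk' : k = 3 := by omega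
    rw [hk'] at hk
    rw [hk] at h1
    have h4 : R.relIndex R' = 1 := by
      have h5 : 0 < p ^ 3 := pow_pos hp.pos 3
      exact Nat.eq_of_mul_eq_mul_right h5 (by rw [h1, one_mul])
    rw [Subgroup.relIndex_eq_one] at h4
    have h6 : x ∈ R' := by
      rw [hR', Subgroup.mem_comap]
      have h7 : QuotientGroup.mk' N x = 1 := by
        rw [QuotientGroup.mk'_apply, QuotientGroup.eq_one_iff, hN]
        exact Subgroup.mem_zpowers x
      rw [h7]
      exact RQ.one_mem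
    obtain ⟨z, hz⟩ := h4 h6
    exact hx z hz

/-- the automorphisms which fix `x` act on the quotient -/
private noncomputable def geod_hom {D : Type} [CommGroup D] (x : D) (E₁ : Subgroup (MulAut D))
    (h : ∀ φ ∈ E₁, φ x = x) : E₁ →* MulAut (D ⧸ Subgroup.zpowers x) where
  toFun φ := QuotientGroup.congr (Subgroup.zpowers x) (Subgroup.zpowers x) φ.1 (by
    rw [MonoidHom.map_zpowers]
    congr 1
    exact h φ.1 φ.2)
  map_one' := by
    ext z
    obtain ⟨z, rfl⟩ := QuotientGroup.mk_surjective z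
    rfl
  map_mul' := by
    intro φ ψ
    ext z
    obtain ⟨z, rfl⟩ := QuotientGroup.mk_surjective z
    rfl

private theorem geod_hom_mk {D : Type} [CommGroup D] (x : D) (E₁ : Subgroup (MulAut D))
    (h : ∀ φ ∈ E₁, φ x = x) (φ : E₁) (z : D) :
    geod_hom x E₁ h φ (QuotientGroup.mk z) = QuotientGroup.mk (φ.1 z) := rfl

/-- MODULE GGEO10. Rank three, `|D ^ m| = p`, `m = p ^ n`. `v` generates `D ^ m`; `x` is as in `DAvg_two` (`x ^ m = v ≠ 1`); the order of `x` is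
`p * m`. Case 1: `z ^ p ∉ zpowers x` for some `z`. PROOF: let `D₁ = D ⧸ zpowers x`, `E₁` = the image in `MulAut D₁` of `{φ ∈ E | φ v = v}` (these
`φ` fix `x`); `p ∤ |E₁|`. `D₁` is not elementary. `|Om p D₁| = |D₁ : D₁ ^ p| = |D : D ^ p * zpowers x| = |D : D ^ p| / p = |Om p D| / p = p ^ 2`
(for a finite commutative group `|Om p D| = |D : D ^ p|`, the kernel and the image of `x ↦ x ^ p`; `x ∉ D ^ p`, because `x = z ^ p` would give `z` the
order `p ^ 2 * m`; `x ^ p ∈ D ^ p`). `GeoD_two` for `D₁`, `E₁`: the class of some `y ∈ D` is regular. `y ^ m ∈ D ^ m = zpowers v = zpowers (x ^ m)`, `y ^ m = x ^ (k m)`; replace `y` by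
`y x ^ (-k)`: `y ^ m = 1`. `u = x * y`: `φ u = u` gives `φ v = v`, `φ x = x`, `φ y = y`, so `φ` induces `1` on `D₁`: `φ z * z⁻¹ ∈ zpowers x`, fixed by
`φ`; `DUni_main`: `φ = 1`. -/
theorem GeoD_one {p : ℕ} [Fact p.Prime] {D : Type} [CommGroup D] [Finite D]
    (hD : IsPGroup p D) (E : Subgroup (MulAut D)) (hE : ¬ p ∣ Nat.card E)
    (hcard : Nat.card (Om p D) = p ^ 3) (n : ℕ) (hn : 1 ≤ n) (hexp : ∀ x : D, x ^ (p * p ^ n) = 1)
    (v x : D) (hv1 : v ≠ 1) (hxv : x ^ (p ^ n) = v)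
    (hV : ∀ z : D, z ^ (p ^ n) ∈ Subgroup.zpowers v)
    (hx : ∀ y : D, y ^ (p ^ n) = 1 → ∀ φ ∈ E, φ (x * y) = x * y → φ v = v ∧ φ x = x ∧ φ y = y)
    (hz : ∃ z : D, z ^ p ∉ Subgroup.zpowers x) (hfix : ∀ φ ∈ E, φ v = v → φ x = x) :
    ∃ u : D, ∀ φ ∈ E, φ u = u → φ = 1 := by
  have hp : p.Prime := Fact.out
  have hxp : ∀ z : D, z ^ p ≠ x := by
    intro z hzx
    apply hv1
    rw [← hxv, ← hzx, ← pow_mul]
    exact hexp z
  set E₁ : Subgroup (MulAut D) := E ⊓ MulAction.stabilizer (MulAut D) v with hE₁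
  have hE₁x : ∀ φ ∈ E₁, φ x = x := by
    intro φ hφ
    rw [hE₁, Subgroup.mem_inf, MulAction.mem_stabilizer_iff] at hφ
    exact hfix φ hφ.1 hφ.2
  have hc : ¬ p ∣ Nat.card (geod_hom x E₁ hE₁x).range := by
    intro h
    have h1 : Nat.card (geod_hom x E₁ hE₁x).range ∣ Nat.card E₁ :=
      Subgroup.card_range_dvd _
    exact hE (h.trans (h1.trans (Subgroup.card_dvd_of_le inf_le_left)))
  obtain ⟨z, hz⟩ := hz
  obtain ⟨u₁, hu₁⟩ := GeoD_two (hD.to_quotient (Subgroup.zpowers x)) (geod_hom x E₁ hE₁x).range hc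
    (geod_quot hp hcard x hxp) ⟨QuotientGroup.mk z, by
      rw [← QuotientGroup.mk_pow]
      intro h
      exact hz ((QuotientGroup.eq_one_iff _).1 h)⟩
  obtain ⟨y, rfl⟩ := QuotientGroup.mk_surjective u₁
  obtain ⟨k, hk⟩ := Subgroup.mem_zpowers_iff.1 (hV y)
  set y' : D := y * x ^ (-k) with hy'
  have hy'1 : y' ^ (p ^ n) = 1 := by
    rw [hy', mul_pow, ← hk, ← zpow_natCast, ← zpow_mul, mul_comm, mul_comm (-k), zpow_mul,
      zpow_natCast, hxv, ← zpow_add, neg_add_cancel, zpow_zero]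
  have hmk : (QuotientGroup.mk y' : D ⧸ Subgroup.zpowers x) = QuotientGroup.mk y := by
    rw [hy', QuotientGroup.mk_mul_of_mem]
    exact Subgroup.zpow_mem_zpowers x (-k)
  refine ⟨x * y', fun φ hφ h => ?_⟩
  obtain ⟨h1, h2, h3⟩ := hx y' hy'1 φ hφ h
  have hφ₁ : φ ∈ E₁ := by
    rw [hE₁, Subgroup.mem_inf, MulAction.mem_stabilizer_iff]
    exact ⟨hφ, h1⟩
  have h4 : geod_hom x E₁ hE₁x ⟨φ, hφ₁⟩ = 1 := by
    refine hu₁ _ ⟨_, rfl⟩ ?_
    rw [← hmk, geod_hom_mk, h3]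
  ext w
  rw [MulAut.one_apply]
  refine DUni_main hp hD E hE φ hφ w ?_
  have h5 := geod_hom_mk x E₁ hE₁x ⟨φ, hφ₁⟩ w
  rw [h4, MulAut.one_apply, eq_comm, QuotientGroup.eq] at h5
  obtain ⟨j, hj⟩ := Subgroup.mem_zpowers_iff.1 h5
  have h6 : φ w * w⁻¹ = x ^ (-j) := by
    rw [zpow_neg, hj, mul_inv_rev, inv_inv, mul_comm]
  rw [h6, map_zpow, h2]

private theorem g11_zpow {D : Type} [CommGroup D] {x : D} {H : Subgroup D} {a b : ℤ}
    (hab : IsCoprime a b) (ha : x ^ a ∈ H) (hb : x ^ b ∈ H) : x ∈ H := by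
  obtain ⟨s, t, hst⟩ := hab
  have h1 : x = (x ^ a) ^ s * (x ^ b) ^ t := by
    rw [← zpow_mul, ← zpow_mul, ← zpow_add, mul_comm a s, mul_comm b t, hst, zpow_one]
  rw [h1]
  exact H.mul_mem (H.zpow_mem ha s) (H.zpow_mem hb t)

private theorem g11_range {p : ℕ} [Fact p.Prime] {D : Type} [CommGroup D] [Finite D]
    (n : ℕ) (hexp : ∀ x : D, x ^ (p * p ^ n) = 1)
    (v x : D) (hv1 : v ≠ 1) (hxv : x ^ (p ^ n) = v)
    (hz : ∀ z : D, z ^ p ∈ Subgroup.zpowers x) (hord : orderOf x = p ^ (n + 1)) :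
    (powMonoidHom p : D →* D).range = Subgroup.zpowers (x ^ p) ∧
      Nat.card (powMonoidHom p : D →* D).range = p ^ n := by
  have hp : p.Prime := Fact.out
  have h1 : Subgroup.zpowers (x ^ p) ≤ (powMonoidHom p : D →* D).range := by
    rw [Subgroup.zpowers_le]
    exact ⟨x, rfl⟩
  have h2 : (powMonoidHom p : D →* D).range ≤ Subgroup.zpowers x := by
    rintro _ ⟨z, rfl⟩
    exact hz z
  have h3 : Nat.card (Subgroup.zpowers (x ^ p)) = p ^ n := by
    rw [Nat.card_zpowers, orderOf_pow, hord, pow_succ, Nat.gcd_eq_right (Dvd.intro_left _ rfl),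
      Nat.mul_div_cancel _ hp.pos]
  have h4 : Nat.card (powMonoidHom p : D →* D).range ≠ p ^ (n + 1) := by
    intro h5
    have h6 : (powMonoidHom p : D →* D).range = Subgroup.zpowers x := by
      apply Subgroup.eq_of_le_of_card_ge h2
      rw [Nat.card_zpowers, hord, h5]
    have h7 : x ∈ (powMonoidHom p : D →* D).range := by
      rw [h6]
      exact Subgroup.mem_zpowers x
    obtain ⟨z, hz'⟩ := h7
    have h8 : z ^ p = x := hz'
    have h9 := hexp z
    rw [pow_mul, h8, hxv] at h9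
    exact hv1 h9
  have h5 : Nat.card (powMonoidHom p : D →* D).range ∣ p ^ (n + 1) := by
    rw [← hord, ← Nat.card_zpowers]
    exact Subgroup.card_dvd_of_le h2
  have h6 : p ^ n ∣ Nat.card (powMonoidHom p : D →* D).range := by
    rw [← h3]
    exact Subgroup.card_dvd_of_le h1
  have h7 : Nat.card (powMonoidHom p : D →* D).range = p ^ n := by
    obtain ⟨k, hk, hk'⟩ := (Nat.dvd_prime_pow hp).1 h5
    rw [hk'] at h6 h4 ⊢
    have h8 : n ≤ k := (Nat.pow_dvd_pow_iff_le_right hp.one_lt).1 h6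
    have h9 : k ≠ n + 1 := fun h => h4 (by rw [h])
    have h10 : k = n := by omega
    rw [h10]
  refine ⟨?_, h7⟩
  symm
  apply Subgroup.eq_of_le_of_card_ge h1
  rw [h3, h7]

/-- MODULE GGEO11. Case 2: `z ^ p ∈ zpowers x` for all `z`. PROOF: `|D ⧸ zpowers x| = |D : D ^ p * zpowers x| = p ^ 2` (see `GeoD_one`; now `D ^ p ≤ zpowers x`), so
`|D| = p ^ 2 * p * p ^ n`. Choose `y ∈ Om p D` outside `zpowers v`, `u = x * y`, `u ^ (p ^ n) = v`, `orderOf u = p * p ^ n`. (1) every `z ∈ D` is `x ^ a * s`, `s ∈ Om p D`: `z ^ m ∈ zpowers v`,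
`z ^ m = x ^ (k m)`, `b = z x ^ (-k)`, `b ^ m = 1`, `b ^ p = x ^ c`, `1 = b ^ m = x ^ (c m / p)`, so `p * m ∣ c m / p`, `c = p ^ 2 c'`, and
`s = b x ^ (- p c')` has `s ^ p = 1`. So `z ^ p = x ^ (a p) = u ^ (a p) ∈ zpowers u` (`u ^ p = x ^ p`). (2) let `φ ∈ E`, `φ u = u`, `ScMod u φ μ`. `φ x = x`, `φ v = v` (`hx`). `x ∉ zpowers u`: `x = u ^ k = x ^ k y ^ k` gives
`y ^ k ∈ Om p D ∩ zpowers x = zpowers v`, so `p ∣ k` (`y ∉ zpowers v`), `y ^ k = 1`, `x ^ (k - 1) = 1`, `p ∣ k - 1`: contradiction. `ScMod` at `x`: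
`x ^ (1 - μ) ∈ zpowers u`; as `x ^ p ∈ zpowers u`, `x ∉ zpowers u`: `p ∣ μ - 1`. So `z ^ (μ - 1) ∈ zpowers u`, `φ z * z⁻¹ ∈ zpowers u` for all `z`, fixed by `φ`:
`φ = 1` by `DUni_main`. -/
theorem GeoD_flag {p : ℕ} [Fact p.Prime] {D : Type} [CommGroup D] [Finite D]
    (hD : IsPGroup p D) (E : Subgroup (MulAut D)) (hE : ¬ p ∣ Nat.card E)
    (hcard : Nat.card (Om p D) = p ^ 3) (n : ℕ) (hn : 1 ≤ n) (hexp : ∀ x : D, x ^ (p * p ^ n) = 1)
    (v x : D) (hv1 : v ≠ 1) (hxv : x ^ (p ^ n) = v)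
    (hV : ∀ z : D, z ^ (p ^ n) ∈ Subgroup.zpowers v)
    (hx : ∀ y : D, y ^ (p ^ n) = 1 → ∀ φ ∈ E, φ (x * y) = x * y → φ v = v ∧ φ x = x ∧ φ y = y)
    (hz : ∀ z : D, z ^ p ∈ Subgroup.zpowers x) :
    ∃ u : D, Nat.card D = p ^ 2 * orderOf u ∧ (∀ z : D, z ^ p ∈ Subgroup.zpowers u) ∧
      ∀ φ ∈ E, φ u = u → ∀ μ : ℕ, ScMod u φ μ → φ = 1 := by
  have hp : p.Prime := Fact.out
  have hordx : orderOf x = p ^ (n + 1) := by
    refine orderOf_eq_prime_pow ?_ ?_
    · rw [hxv]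
      exact hv1
    · rw [pow_succ', hexp]
  obtain ⟨hr1, hr2⟩ := g11_range n hexp v x hv1 hxv hz hordx
  have hcD : Nat.card D = p ^ 2 * p ^ (n + 1) := by
    have h1 := Subgroup.card_eq_card_quotient_mul_card_subgroup (powMonoidHom p : D →* D).ker
    have h2 : Nat.card (D ⧸ (powMonoidHom p : D →* D).ker) = p ^ n := by
      rw [← hr2]
      exact Nat.card_congr (QuotientGroup.quotientKerEquivRange (powMonoidHom p : D →* D)).toEquiv
    have h3 : (powMonoidHom p : D →* D).ker = Om p D := by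
      ext z
      rw [MonoidHom.mem_ker, Om_mem]
      rfl
    rw [h2, h3, hcard] at h1
    rw [h1]
    ring
  -- the order of v
  have hvp : v ^ p = 1 := by
    rw [← hxv, ← pow_mul, mul_comm, hexp]
  have hordv : orderOf v = p := orderOf_eq_prime hvp hv1
  obtain ⟨y, hyO, hyv⟩ : ∃ y ∈ Om p D, y ∉ Subgroup.zpowers v := by
    by_contra hno
    push Not at hno
    have h1 : Om p D ≤ Subgroup.zpowers v := hno
    have h2 := Subgroup.card_le_of_le h1
    rw [hcard, Nat.card_zpowers, hordv] at h2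
    have h3 : p ^ 1 < p ^ 3 := Nat.pow_lt_pow_right hp.one_lt (by norm_num)
    rw [pow_one] at h3
    omega
  rw [Om_mem] at hyO
  have hyn : y ^ (p ^ n) = 1 := by
    obtain ⟨k, rfl⟩ : ∃ k, n = k + 1 := ⟨n - 1, by omega⟩
    rw [pow_succ', pow_mul, hyO, one_pow]
  have hun : (x * y) ^ (p ^ n) = v := by
    rw [mul_pow, hxv, hyn, mul_one]
  have hordu : orderOf (x * y) = p ^ (n + 1) := by
    refine orderOf_eq_prime_pow ?_ ?_
    · rw [hun]
      exact hv1
    · rw [pow_succ', hexp]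
  have hup : (x * y) ^ p = x ^ p := by
    rw [mul_pow, hyO, mul_one]
  have hzu : ∀ z : D, z ^ p ∈ Subgroup.zpowers (x * y) := by
    intro z
    have h1 : z ^ p ∈ (powMonoidHom p : D →* D).range := ⟨z, rfl⟩
    rw [hr1, ← hup] at h1
    exact (Subgroup.zpowers_le.2 (Subgroup.pow_mem _ (Subgroup.mem_zpowers (x * y)) p)) h1
  -- `y` is not in `zpowers x`
  have hyx : y ∉ Subgroup.zpowers x := by
    intro h1
    obtain ⟨j, hj⟩ := Subgroup.mem_zpowers_iff.1 h1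
    have h2 : x ^ (j * p) = 1 := by
      rw [zpow_mul, hj, zpow_natCast, hyO]
    rw [← orderOf_dvd_iff_zpow_eq_one, hordx] at h2
    have h3 : ((p ^ n : ℕ) : ℤ) ∣ j := by
      have h4 : ((p ^ n : ℕ) : ℤ) * p ∣ j * p := by
        have h5 : ((p ^ (n + 1) : ℕ) : ℤ) = ((p ^ n : ℕ) : ℤ) * p := by push_cast; ring
        rw [← h5]
        exact h2
      exact Int.dvd_of_mul_dvd_mul_right (by exact_mod_cast hp.ne_zero) h4
    obtain ⟨j', rfl⟩ := h3
    apply hyv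
    rw [Subgroup.mem_zpowers_iff]
    exact ⟨j', by rw [← hj, zpow_mul, zpow_natCast, hxv]⟩
  have hpow_y : ∀ k : ℤ, y ^ k ∈ Subgroup.zpowers x → (p : ℤ) ∣ k := by
    intro k hk
    by_contra hpk
    have h1 : IsCoprime (p : ℤ) k := by
      rw [Int.isCoprime_iff_gcd_eq_one]
      rcases (Nat.Prime.coprime_iff_not_dvd hp (n := k.natAbs)).2 (by
        intro h2
        exact hpk (Int.natCast_dvd.2 h2)) with h3
      exact h3
    apply hyx
    refine g11_zpow h1 ?_ hk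
    rw [zpow_natCast, hyO]
    exact Subgroup.one_mem _
  have hxu : x ∉ Subgroup.zpowers (x * y) := by
    intro h1
    obtain ⟨k, hk⟩ := Subgroup.mem_zpowers_iff.1 h1
    have h2 : y ^ k = x ^ (1 - k) := by
      rw [mul_zpow] at hk
      rw [zpow_sub, zpow_one, eq_mul_inv_iff_mul_eq, mul_comm]
      exact hk
    have h3 : (p : ℤ) ∣ k := hpow_y k (by
      rw [h2]
      exact Subgroup.zpow_mem _ (Subgroup.mem_zpowers x) _)
    have h4 : x ^ (1 - k) = 1 := by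
      rw [← h2]
      obtain ⟨k', rfl⟩ := h3
      rw [zpow_mul, zpow_natCast, hyO, one_zpow]
    rw [← orderOf_dvd_iff_zpow_eq_one, hordx] at h4
    have h5 : (p : ℤ) ∣ 1 - k := by
      refine dvd_trans ?_ h4
      push_cast
      rw [pow_succ']
      exact Dvd.intro _ rfl
    have h6 : (p : ℤ) ∣ 1 := by
      have h7 := dvd_add h5 h3
      rwa [sub_add_cancel] at h7
    exact hp.one_lt.ne' (by exact_mod_cast Int.eq_one_of_dvd_one (by positivity) h6)
  refine ⟨x * y, ?_, hzu, ?_⟩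
  · rw [hcD, hordu]
  · intro φ hφ hφu μ hμ
    obtain ⟨hφv, hφx, hφy⟩ := hx y hyn φ hφ hφu
    have h1 : (p : ℤ) ∣ (1 - (μ : ℤ)) := by
      by_contra hno
      have h2 : IsCoprime (p : ℤ) (1 - (μ : ℤ)) := by
        rw [Int.isCoprime_iff_gcd_eq_one]
        exact (Nat.Prime.coprime_iff_not_dvd hp (n := (1 - (μ : ℤ)).natAbs)).2 (by
          intro h2
          exact hno (Int.natCast_dvd.2 h2))
      apply hxu
      refine g11_zpow h2 ?_ ?_
      · rw [zpow_natCast]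
        exact hzu x
      · have h3 := hμ x
        rw [hφx] at h3
        rw [zpow_sub, zpow_one, zpow_natCast]
        exact h3
    have h2 : ∀ z, φ z * z⁻¹ ∈ Subgroup.zpowers (x * y) := by
      intro z
      obtain ⟨k, hk⟩ := h1
      have h3 : φ z * z⁻¹ = φ z * (z ^ μ)⁻¹ * (z ^ p) ^ (-k) := by
        have h4 : (z ^ p) ^ (-k) = z ^ ((μ : ℤ) - 1) := by
          rw [← zpow_natCast z p, ← zpow_mul]
          congr 1
          linarith
        rw [h4, zpow_sub, zpow_one, zpow_natCast, mul_assoc, ← mul_assoc (z ^ μ)⁻¹,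
          inv_mul_cancel, one_mul]
      rw [h3]
      exact Subgroup.mul_mem _ (hμ z) (Subgroup.zpow_mem _ (hzu z) _)
    have h3 : ∀ t ∈ Subgroup.zpowers (x * y), φ t = t := by
      intro t ht
      obtain ⟨k, rfl⟩ := Subgroup.mem_zpowers_iff.1 ht
      rw [map_zpow, hφu]
    ext z
    exact DUni_main hp hD E hE φ hφ z (h3 _ (h2 z))

/-- MODULE GGEO12. The choice of `u` and `w`. PROOF: if `x ^ p = 1` for all `x` then `|D| ∣ p ^ 3`; if `|D| ≤ p` the second alternative with `u = 1`; if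
`|D| = p ^ 2` with any `u ≠ 1` (order `p`); if `|D| = p ^ 3`: `GeoB_main` gives `u` of order `p` and `GeoA_main` gives `w`. Otherwise `GeoD_exp`: `n`. If
`|Om p D| ≤ p ^ 2`: `GeoD_two`. Otherwise `|Om p D| = p ^ 3` (a power of `p`); `V` = the range of `x ↦ x ^ (p ^ n)`, `1 ≠ V`; if `|V| ≥ p ^ 2`: `GeoD_big`. Otherwise `V` has order `p`, is
generated by `v = x₀ ^ (p ^ n) ≠ 1`; `DAvg_two`: `x`; `GeoD_one` or `GeoD_flag`, and `GeoA_main` (`w ^ p ∈ zpowers u` by the exponent condition). -/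
theorem GeoD_main {p : ℕ} [Fact p.Prime] (hp2 : p ≠ 2) {D : Type} [CommGroup D] [Finite D]
    (hD : IsPGroup p D) (E : Subgroup (MulAut D)) (hE : ¬ p ∣ Nat.card E)
    (hcard : Nat.card (Om p D) ≤ p ^ 3) :
    (∃ u : D, ∀ φ ∈ E, φ u = u → φ = 1) ∨ (∃ u : D, Nat.card D ≤ p * orderOf u) ∨
      ∃ u w : D, Nat.card D = p ^ 2 * orderOf u ∧ (∀ z : D, z ^ p ∈ Subgroup.zpowers u) ∧
        w ∉ Subgroup.zpowers u ∧ ∀ φ ∈ E, φ u = u → (∀ μ : ℕ, ScMod u φ μ → φ = 1) ∧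
          ∀ i j : ℤ, φ w = u ^ i * w ^ j → φ w = w := by
  have hp : p.Prime := Fact.out
  by_cases hel : ∀ x : D, x ^ p = 1
  · -- elementary abelian
    have hOm : Nat.card (Om p D) = Nat.card D := by
      have h1 : Om p D = ⊤ := by
        rw [eq_top_iff]
        intro x _
        exact hel x
      rw [h1, Subgroup.card_top]
    rw [hOm] at hcard
    obtain ⟨k, hk⟩ := IsPGroup.iff_card.1 hD
    have hk3 : k ≤ 3 := by
      rw [hk] at hcard
      exact (Nat.pow_le_pow_iff_right hp.one_lt).1 hcard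
    by_cases hk1 : k ≤ 1
    · right; left
      refine ⟨1, ?_⟩
      rw [orderOf_one, mul_one, hk]
      calc p ^ k ≤ p ^ 1 := Nat.pow_le_pow_right hp.pos hk1
        _ = p := pow_one p
    · by_cases hk2 : k = 2
      · right; left
        have h1 : 1 < Nat.card D := by
          rw [hk, hk2]
          exact Nat.one_lt_pow (by norm_num) hp.one_lt
        have h2 : Nontrivial D := Finite.one_lt_card_iff_nontrivial.1 h1
        obtain ⟨u, hu⟩ := exists_ne (1 : D)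
        refine ⟨u, ?_⟩
        rw [orderOf_eq_prime (hel u) hu, hk, hk2, pow_two]
      · have hk3' : k = 3 := by omega
        right; right
        obtain ⟨u, hu1, hu⟩ := GeoB_main hD E hE (by rw [hk, hk3']) hel
        have hou : orderOf u = p := orderOf_eq_prime (hel u) hu1
        have hc : Nat.card D = p ^ 2 * orderOf u := by rw [hk, hk3', hou]; ring
        have hz : ∀ z : D, z ^ p ∈ Subgroup.zpowers u := by
          intro z
          rw [hel z]
          exact Subgroup.one_mem _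
        obtain ⟨w, hw1, hw2⟩ := GeoA_main hp2 hD E hE u hc hz hu
        exact ⟨u, w, hc, hz, hw1, fun φ hφ hφu => ⟨hu φ hφ hφu, hw2 φ hφ hφu⟩⟩
  · have hne : ∃ x : D, x ^ p ≠ 1 := by
      push Not at hel
      exact hel
    obtain ⟨n, hn, hexp, x₀, hx₀⟩ := GeoD_exp hp hD hne
    by_cases hc2 : Nat.card (Om p D) ≤ p ^ 2
    · left
      exact GeoD_two hD E hE hc2 hne
    · have hc3 : Nat.card (Om p D) = p ^ 3 := by
        obtain ⟨k, hk⟩ := IsPGroup.iff_card.1 (hD.to_subgroup (Om p D))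
        rw [hk] at hcard hc2 ⊢
        have h1 : k ≤ 3 := (Nat.pow_le_pow_iff_right hp.one_lt).1 hcard
        have h2 : ¬ k ≤ 2 := fun h => hc2 (Nat.pow_le_pow_right hp.pos h)
        have h3 : k = 3 := by omega
        rw [h3]
      obtain ⟨V, hV⟩ : ∃ V : Subgroup D, ∀ v, v ∈ V ↔ ∃ x : D, x ^ (p ^ n) = v :=
        ⟨(powMonoidHom (p ^ n) : D →* D).range, fun v => Iff.rfl⟩
      by_cases hVc : p ^ 2 ≤ Nat.card V
      · left
        exact GeoD_big hp2 hD E hE hc3 n hn hexp V hV hVc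
      · -- `V` has order `p`
        obtain ⟨k, hk⟩ := IsPGroup.iff_card.1 (hD.to_subgroup V)
        have hv0 : x₀ ^ (p ^ n) ∈ V := (hV _).2 ⟨x₀, rfl⟩
        have hVp : Nat.card V ≤ p := by
          rw [hk] at hVc ⊢
          have h1 : ¬ 2 ≤ k := fun h => hVc (Nat.pow_le_pow_right hp.pos h)
          calc p ^ k ≤ p ^ 1 := Nat.pow_le_pow_right hp.pos (by omega)
            _ = p := pow_one p
        have hvp : (x₀ ^ (p ^ n)) ^ p = 1 := by
          rw [← pow_mul, mul_comm, hexp]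
        have hov : orderOf (x₀ ^ (p ^ n)) = p := orderOf_eq_prime hvp hx₀
        have hVv : Subgroup.zpowers (x₀ ^ (p ^ n)) = V := by
          apply Subgroup.eq_of_le_of_card_ge
          · rw [Subgroup.zpowers_le]
            exact hv0
          · rw [Nat.card_zpowers, hov]
            exact hVp
        obtain ⟨x, hxv, hxf, hx⟩ := DAvg_two hp hD E hE (x₀ ^ (p ^ n)) x₀ (p ^ n) rfl
        have hVz : ∀ z : D, z ^ (p ^ n) ∈ Subgroup.zpowers (x₀ ^ (p ^ n)) := by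
          intro z
          rw [hVv, hV]
          exact ⟨z, rfl⟩
        by_cases hz : ∃ z : D, z ^ p ∉ Subgroup.zpowers x
        · left
          exact GeoD_one hD E hE hc3 n hn hexp _ x hx₀ hxv hVz hx hz hxf
        · right; right
          push Not at hz
          obtain ⟨u, hu1, hu2, hu3⟩ := GeoD_flag hD E hE hc3 n hn hexp _ x hx₀ hxv hVz hx hz
          obtain ⟨w, hw1, hw2⟩ := GeoA_main hp2 hD E hE u hu1 hu2 hu3
          exact ⟨u, w, hu1, hu2, hw1, fun φ hφ hφu => ⟨hu3 φ hφ hφu, hw2 φ hφ hφu⟩⟩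

end Pool.Agent.KBR
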