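import Pool.Agent.KBR.GDefs

/-! Unipotent elements of order prime to `p` are trivial. -/

namespace Pool.Agent.KBR

/-- MODULE GUNI. PROOF: `T ^ e = 1` for `e = Nat.card H`. For `x`: `y = T x - x` satisfies `T y = y`, so
`T ^ i x = x + i • y` by induction, and `i = e`: `e • y = 0`, so `y = 0` (`e` is invertible modulo `p`,
`(p : ZMod p) = 0`). -/
theorem GUni_main {p : ℕ} [Fact p.Prime] {W : Type} [AddCommGroup W] [Module (ZMod p) W]
    (H : Subgroup (W ≃ₗ[ZMod p] W)) [Finite H] (hH : ¬ p ∣ Nat.card H) (T : W ≃ₗ[ZMod p] W)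
    (hT : T ∈ H) (x : W) (h : T (T x - x) = T x - x) : T x = x := by
  have h1 : ∀ i : ℕ, (T ^ i) x = x + (i : ZMod p) • (T x - x) := by
    intro i
    induction i with
    | zero =>
      rw [pow_zero, Nat.cast_zero, zero_smul, add_zero]
      rfl
    | succ i ih =>
      have h2 : (T ^ (i + 1)) x = T ((T ^ i) x) := by
        rw [pow_succ']
        rfl
      rw [h2, ih, map_add, map_smul, h, Nat.cast_succ, add_smul, one_smul]
      abel
  have h2 : T ^ Nat.card H = 1 := by
    have h3 : (⟨T, hT⟩ : H) ^ Nat.card H = 1 := pow_card_eq_one'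
    have h4 := congrArg (fun z : H => (z : W ≃ₗ[ZMod p] W)) h3
    exact h4
  have h3 := h1 (Nat.card H)
  rw [h2] at h3
  have h4 : ((Nat.card H : ℕ) : ZMod p) • (T x - x) = 0 := by
    have h5 : (1 : W ≃ₗ[ZMod p] W) x = x := rfl
    rw [h5] at h3
    exact (left_eq_add).1 h3
  rcases smul_eq_zero.1 h4 with h5 | h5
  · exact absurd ((ZMod.natCast_eq_zero_iff _ _).1 h5) hH
  · exact sub_eq_zero.1 h5

end Pool.Agent.KBR
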