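import Pool.Agent.KBR.GCnt
import Pool.Agent.KBR.GUni

/-! Coprime linear groups in dimension two. -/

namespace Pool.Agent.KBR

private theorem glin_span {p : ℕ} [Fact p.Prime] {W : Type} [AddCommGroup W] [Module (ZMod p) W]
    [Finite W] (hW : Nat.card W = p ^ 2) (w v : W) (hw : w ≠ 0) (hv : ∀ c : ZMod p, v ≠ c • w) :
    ∀ x, ∃ a b : ZMod p, x = a • w + b • v := by
  have hinj : Function.Injective (fun z : ZMod p × ZMod p => z.1 • w + z.2 • v) := by
    rintro ⟨a, b⟩ ⟨a', b'⟩ h
    simp only at h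
    have h1 : (b - b') • v = (a' - a) • w := by
      rw [sub_smul, sub_smul, sub_eq_sub_iff_add_eq_add, add_comm, h, add_comm]
    by_cases hb : b = b'
    · rw [hb, sub_self, zero_smul] at h1
      rcases smul_eq_zero.1 h1.symm with h2 | h2
      · rw [hb, sub_eq_zero.1 h2]
      · exact absurd h2 hw
    · exfalso
      have hb' : b - b' ≠ 0 := sub_ne_zero.2 hb
      apply hv ((b - b')⁻¹ * (a' - a))
      rw [mul_smul, ← h1, smul_smul, inv_mul_cancel₀ hb', one_smul]
  have hcard : Nat.card (ZMod p × ZMod p) = Nat.card W := by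
    rw [Nat.card_prod, Nat.card_zmod, hW, sq]
  have hfin : Finite (ZMod p × ZMod p) := inferInstance
  have hbij := (Nat.bijective_iff_injective_and_card _).2 ⟨hinj, hcard⟩
  intro x
  obtain ⟨⟨a, b⟩, h⟩ := hbij.2 x
  exact ⟨a, b, h.symm⟩

private theorem glin_ind {p : ℕ} [Fact p.Prime] {W : Type} [AddCommGroup W] [Module (ZMod p) W]
    (w v : W) (hw : w ≠ 0) (hv : ∀ c : ZMod p, v ≠ c • w) {a b a' b' : ZMod p}
    (h : a • w + b • v = a' • w + b' • v) : a = a' ∧ b = b' := by
  have h1 : (b - b') • v = (a' - a) • w := by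
    rw [sub_smul, sub_smul, sub_eq_sub_iff_add_eq_add, add_comm, h, add_comm]
  by_cases hb : b = b'
  · rw [hb, sub_self, zero_smul] at h1
    rcases smul_eq_zero.1 h1.symm with h2 | h2
    · exact ⟨(sub_eq_zero.1 h2).symm, hb⟩
    · exact absurd h2 hw
  · exfalso
    have hb' : b - b' ≠ 0 := sub_ne_zero.2 hb
    apply hv ((b - b')⁻¹ * (a' - a))
    rw [mul_smul, ← h1, smul_smul, inv_mul_cancel₀ hb', one_smul]

private theorem glin_ne {p : ℕ} {W : Type} [AddCommGroup W] [Module (ZMod p) W]
    (g : W ≃ₗ[ZMod p] W) {w : W} (hw : ∀ c : ZMod p, g w ≠ c • w) : w ≠ 0 := by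
  intro h
  apply hw 0
  rw [h, map_zero, smul_zero]

/-- MODULE GLIN1. `W` has dimension two; `g` is not a scalar. PROOF: there is a vector `w` such that `g w` is not a
multiple of `w` (if every vector is an eigenvector then `g` is a scalar: compare `x`, `y`, `x + y` for
independent `x`, `y`). The vectors `w`, `g w` are linearly independent; `|W| = p ^ 2`, so every vector is
`a • w + b • g w`. -/
theorem GLin_cyc {p : ℕ} [Fact p.Prime] {W : Type} [AddCommGroup W] [Module (ZMod p) W]
    [Finite W] (hW : Nat.card W = p ^ 2) (g : W ≃ₗ[ZMod p] W)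
    (hg : ∀ c : ZMod p, ∃ x, g x ≠ c • x) :
    ∃ w : W, (∀ c : ZMod p, g w ≠ c • w) ∧ ∀ x, ∃ a b : ZMod p, x = a • w + b • g w := by
  have h1 : ∃ w : W, ∀ c : ZMod p, g w ≠ c • w := by
    by_contra hcon
    push Not at hcon
    have hp1 : 1 < p := (Fact.out : p.Prime).one_lt
    have : Nontrivial W := by
      rw [← Finite.one_lt_card_iff_nontrivial, hW]
      exact one_lt_pow₀ hp1 two_ne_zero
    obtain ⟨x0, hx0⟩ := exists_ne (0 : W)
    obtain ⟨c0, hc0⟩ := hcon x0
    obtain ⟨x, hx⟩ := hg c0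
    obtain ⟨c1, hc1⟩ := hcon x
    obtain ⟨c2, hc2⟩ := hcon (x + x0)
    rw [map_add, hc1, hc0, smul_add] at hc2
    have h2 : (c1 - c2) • x = (c2 - c0) • x0 := by
      rw [sub_smul, sub_smul, sub_eq_sub_iff_add_eq_add, hc2, add_comm]
    by_cases h12 : c1 = c2
    · rw [h12, sub_self, zero_smul] at h2
      rcases smul_eq_zero.1 h2.symm with h3 | h3
      · apply hx
        rw [hc1, h12, sub_eq_zero.1 h3]
      · exact hx0 h3
    · have h3 : c1 - c2 ≠ 0 := sub_ne_zero.2 h12
      have h4 : x = ((c1 - c2)⁻¹ * (c2 - c0)) • x0 := by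
        rw [mul_smul, ← h2, smul_smul, inv_mul_cancel₀ h3, one_smul]
      apply hx
      rw [h4, map_smul, hc0, smul_comm]
  obtain ⟨w, hw⟩ := h1
  exact ⟨w, hw, glin_span hW w (g w) (glin_ne g hw) hw⟩

/-- MODULE GLIN2. The centralizer of a non-scalar `g` consists of the `a + b g`. PROOF: `w` from `GLin_cyc`; write
`h w = a • w + b • g w`. Then `h (g w) = g (h w) = a • g w + b • g (g w)`. So `h = a + b g` on `w` and on `g w`,
which span. -/
theorem GLin_cent {p : ℕ} [Fact p.Prime] {W : Type} [AddCommGroup W] [Module (ZMod p) W]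
    [Finite W] (hW : Nat.card W = p ^ 2) (g h : W ≃ₗ[ZMod p] W)
    (hg : ∀ c : ZMod p, ∃ x, g x ≠ c • x) (hgh : h * g = g * h) :
    ∃ a b : ZMod p, ∀ x, h x = a • x + b • g x := by
  obtain ⟨w, hw, hsp⟩ := GLin_cyc hW g hg
  obtain ⟨a, b, hab⟩ := hsp (h w)
  refine ⟨a, b, fun x => ?_⟩
  obtain ⟨c, d, rfl⟩ := hsp x
  have h1 : h (g w) = g (h w) := LinearEquiv.congr_fun hgh w
  rw [map_add, map_smul, map_smul, h1, hab]
  simp only [map_add, map_smul, smul_add, smul_smul]
  rw [mul_comm c a, mul_comm c b, mul_comm d a, mul_comm d b]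
  abel

/-- MODULE GLIN3. `p` odd. PROOF: `g` is not a scalar (`hs`, `g ≠ 1`). Cayley - Hamilton: there are `τ`, `δ` with
`g (g x) = τ • g x - δ • x` for all `x` (apply `g (g w) = a • w + b • g w` and `GLin_cyc`). Let `y = t g t⁻¹`; also
`y (y x) = τ • y x - δ • x`. By `GLin_cent`, `y x = a • x + b • g x`. Insert; as `w`, `g w` are independent:
`b (2 a + b τ - τ) = 0` and `a ^ 2 - b ^ 2 δ - τ a + δ = 0`. `b ≠ 0` (`y` is not a scalar, as `g` is not). So
`2 a = τ (1 - b)` and `(1 - b ^ 2) (τ ^ 2 - 4 δ) = 0` (four times the second equation). If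
`τ ^ 2 = 4 δ`: with `lam = τ / 2` (`p` odd): `n x = g x - lam • x` satisfies `n (n x) = 0`, `n ≠ 0`;
`g ^ i x = lam ^ i • x + (i lam ^ (i - 1)) • n x`; for `i = e = Nat.card H` (`g ^ e = 1`): applying `n`:
`n x = lam ^ e • n x`, so `lam ^ e = 1` and `(e lam ^ (e - 1)) • n x = 0`, contradiction to `p ∤ e` and `n ≠ 0`.
So `b = 1` or `b = -1`. `b = 1`: `a = 0` (`p` odd), `y = g`, `t g = g t`. `b = -1`: `a = τ`: `y x = τ • x - g x`.
If `y = g` we are in the first case; otherwise: CLAIM: every `t ∈ H` with `t g t⁻¹ x = τ • x - g x ≠ g x` (some `x`) has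
`t * t = 1`: `t y t⁻¹ = τ - t g t⁻¹ = g`, so `t ^ 2` commutes with `g`: `t ^ 2 = α + β g` (`GLin_cent`); `t ^ 2`
commutes with `t`: `α + β g = α + β y`, so `β = 0` (`g x ≠ y x` for some `x`), `t ^ 2` is a scalar in
`H`, so `1` by `hs`. Apply the claim to `t` and to `t * g` (`(t g) g (t g)⁻¹ = t g t⁻¹`):
`t * t = 1` and `t g t g = 1`, so `t g t⁻¹ = t g t = g⁻¹`. -/
theorem GLin_conj {p : ℕ} [Fact p.Prime] (hp2 : p ≠ 2) {W : Type} [AddCommGroup W]
    [Module (ZMod p) W] [Finite W] (hW : Nat.card W = p ^ 2) (H : Subgroup (W ≃ₗ[ZMod p] W))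
    [Finite H] (hH : ¬ p ∣ Nat.card H) (hs : NoSc H) (g t : W ≃ₗ[ZMod p] W) (hg : g ∈ H)
    (ht : t ∈ H) (hg1 : g ≠ 1) (h : (t * g * t⁻¹) * g = g * (t * g * t⁻¹)) :
    t * g = g * t ∨ (t * t = 1 ∧ t * g * t⁻¹ = g⁻¹) := by
  have hgs : ∀ c : ZMod p, ∃ x, g x ≠ c • x := by
    intro c
    by_contra hcon
    push Not at hcon
    exact hg1 (hs g hg c hcon)
  have h20 : (2 : ZMod p) ≠ 0 := by
    intro h2
    have h3 : ((2 : ℕ) : ZMod p) = 0 := by exact_mod_cast h2
    have h4 := (ZMod.natCast_eq_zero_iff 2 p).1 h3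
    exact hp2 ((Nat.prime_dvd_prime_iff_eq Fact.out Nat.prime_two).1 h4)
  obtain ⟨w, hw, hsp⟩ := GLin_cyc hW g hgs
  have hw0 := glin_ne g hw
  obtain ⟨d, τ, hd⟩ := hsp (g (g w))
  have hch : ∀ x, g (g x) = τ • g x + d • x := by
    intro x
    obtain ⟨a, b, rfl⟩ := hsp x
    simp only [map_add, map_smul, hd, smul_add, smul_smul]
    module
  set y : W ≃ₗ[ZMod p] W := t * g * t⁻¹ with hy
  have hyx : ∀ x, y x = t (g (t⁻¹ x)) := fun x => rfl
  have htt : ∀ x, t⁻¹ (t x) = x := fun x => t.symm_apply_apply x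
  have htt' : ∀ x, t (t⁻¹ x) = x := fun x => t.apply_symm_apply x
  have hyy : ∀ x, y (y x) = τ • y x + d • x := by
    intro x
    rw [hyx, hyx, htt, hch, map_add, map_smul, map_smul, htt']
  have hyH : y ∈ H := H.mul_mem (H.mul_mem ht hg) (H.inv_mem ht)
  obtain ⟨a, b, hab⟩ := GLin_cent hW g y hgs h
  have hb0 : b ≠ 0 := by
    intro hb
    apply hg1
    have h1 : y = 1 := hs y hyH a fun x => by rw [hab, hb, zero_smul, add_zero]
    rw [hy] at h1
    exact conj_eq_one_iff.1 h1
  have h1 : (a ^ 2 + b ^ 2 * d) • w + (2 * a * b + b ^ 2 * τ) • g w =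
      (τ * a + d) • w + (τ * b) • g w := by
    have h2 := hyy w
    rw [hab (y w), hab w, map_add, map_smul, map_smul, hch] at h2
    have h3 : (a ^ 2 + b ^ 2 * d) • w + (2 * a * b + b ^ 2 * τ) • g w =
        a • (a • w + b • g w) + b • (a • g w + b • (τ • g w + d • w)) := by
      module
    rw [h3, h2]
    module
  obtain ⟨h2, h3⟩ := glin_ind w (g w) hw0 hw h1
  have h4 : 2 * a = τ * (1 - b) := by
    have h5 : b * (2 * a) = b * (τ * (1 - b)) := by linear_combination h3
    exact mul_left_cancel₀ hb0 h5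
  have h5 : (1 - b ^ 2) * (τ ^ 2 + 4 * d) = 0 := by
    linear_combination (2 * a + τ * (1 - b) - 2 * τ) * h4 - 4 * h2
  rcases mul_eq_zero.1 h5 with h6 | h6
  · -- `b = 1` or `b = -1`
    have h7 : (1 - b) * (1 + b) = 0 := by linear_combination h6
    rcases mul_eq_zero.1 h7 with h8 | h8
    · left
      have hb1 : b = 1 := (sub_eq_zero.1 h8).symm
      have ha : a = 0 := by
        rw [hb1, sub_self, mul_zero] at h4
        exact (mul_eq_zero.1 h4).resolve_left h20
      have h9 : y = g := by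
        apply LinearEquiv.ext
        intro x
        rw [hab, hb1, ha, zero_smul, one_smul, zero_add]
      rw [hy, mul_inv_eq_iff_eq_mul] at h9
      exact h9
    · have hb1 : b = -1 := by linear_combination h8
      have ha : a = τ := by
        have h9 : 2 * a = 2 * τ := by rw [h4, hb1]; ring
        exact mul_left_cancel₀ h20 h9
      by_cases hyg : y = g
      · left
        rw [hy, mul_inv_eq_iff_eq_mul] at hyg
        exact hyg
      · right
        have hne : ∃ x, g x ≠ y x := by
          by_contra hcon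
          push Not at hcon
          exact hyg (LinearEquiv.ext fun x => (hcon x).symm)
        have hyab : ∀ x, y x = τ • x - g x := by
          intro x
          rw [hab, ha, hb1, neg_smul, one_smul, sub_eq_add_neg]
        have claim : ∀ u ∈ H, u * g * u⁻¹ = y → u * u = 1 := by
          intro u hu huy
          have hug : ∀ x, u (g x) = y (u x) := by
            intro x
            rw [← huy]
            exact congrArg (fun z => u (g z)) (u.symm_apply_apply x).symm
          have huy2 : ∀ x, u (y x) = g (u x) := by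
            intro x
            rw [hyab x, map_sub, map_smul, hug, hyab]
            abel
          have hcomm : (u * u) * g = g * (u * u) := by
            apply LinearEquiv.ext
            intro x
            change u (u (g x)) = g (u (u x))
            rw [hug, huy2]
          obtain ⟨α, β, hαβ⟩ := GLin_cent hW g (u * u) hgs hcomm
          have hβ : β = 0 := by
            obtain ⟨z, hz⟩ := hne
            by_contra hβ
            apply hz
            have h10 : u (u (u (u⁻¹ z))) = α • z + β • g z := by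
              have h11 : u (u⁻¹ z) = z := u.apply_symm_apply z
              rw [h11]
              exact hαβ z
            have h12 : u (u (u (u⁻¹ z))) = α • z + β • y z := by
              have h13 : u (u (u⁻¹ z)) = α • (u⁻¹ z) + β • g (u⁻¹ z) := hαβ (u⁻¹ z)
              have h11 : u (u⁻¹ z) = z := u.apply_symm_apply z
              rw [h13, map_add, map_smul, map_smul, hug, h11]
            have h14 : β • g z = β • y z := by
              rw [h10] at h12
              exact add_left_cancel h12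
            exact (smul_right_injective W hβ) h14
          refine hs (u * u) (H.mul_mem hu hu) α fun x => ?_
          rw [hαβ, hβ, zero_smul, add_zero]
        have c1 : t * t = 1 := claim t ht rfl
        have c2 : (t * g) * (t * g) = 1 := by
          refine claim (t * g) (H.mul_mem ht hg) ?_
          rw [hy]
          group
        refine ⟨c1, ?_⟩
        have h10 : t⁻¹ = t := inv_eq_of_mul_eq_one_left c1
        rw [hy, h10]
        apply eq_inv_of_mul_eq_one_left
        rw [← c2]
        group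
  · -- `τ ^ 2 + 4 d = 0`: impossible
    exfalso
    set l : ZMod p := τ / 2 with hl
    have hτ : τ = 2 * l := by rw [hl]; field_simp
    have hdl : d = - l ^ 2 := by
      have h7 : 4 * (d + l ^ 2) = 0 := by rw [hτ] at h6; linear_combination h6
      have h40 : (4 : ZMod p) ≠ 0 := by
        have h8 : (4 : ZMod p) = 2 * 2 := by norm_num
        rw [h8]
        exact mul_ne_zero h20 h20
      have h8 := (mul_eq_zero.1 h7).resolve_left h40
      linear_combination h8
    have hn : ∀ x, g (g x - l • x) = l • (g x - l • x) := by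
      intro x
      rw [map_sub, map_smul, hch, hτ, hdl]
      module
    have hpow : ∀ i : ℕ, ∀ x, (g ^ (i + 1)) x =
        l ^ (i + 1) • x + (((i + 1 : ℕ) : ZMod p) * l ^ i) • (g x - l • x) := by
      intro i
      induction i with
      | zero =>
        intro x
        rw [zero_add, pow_one, pow_one, pow_zero, mul_one, Nat.cast_one, one_smul]
        abel
      | succ i ih =>
        intro x
        have h7 : (g ^ (i + 1 + 1)) x = g ((g ^ (i + 1)) x) := by
          rw [pow_succ']
          rfl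
        rw [h7, ih, map_add, map_smul, map_smul, hn]
        have h8 : g x = l • x + (g x - l • x) := by abel
        push_cast
        generalize g x - l • x = z at *
        rw [h8]
        module
    obtain ⟨x, hx⟩ := hgs l
    have hx' : g x - l • x ≠ 0 := sub_ne_zero.2 hx
    have hcard : Nat.card H ≠ 0 := Nat.card_pos.ne'
    obtain ⟨e, he⟩ := Nat.exists_eq_succ_of_ne_zero hcard
    have hge : g ^ (e + 1) = 1 := by
      have h7 : (⟨g, hg⟩ : H) ^ Nat.card H = 1 := pow_card_eq_one'
      rw [he] at h7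
      exact congrArg (fun z : H => (z : W ≃ₗ[ZMod p] W)) h7
    have h7 : ∀ x, x = l ^ (e + 1) • x + (((e + 1 : ℕ) : ZMod p) * l ^ e) • (g x - l • x) := by
      intro x
      rw [← hpow, hge]
      rfl
    have h8 : l ^ (e + 1) = 1 := by
      have h9 := h7 (g x - l • x)
      rw [hn (x), sub_self, smul_zero, add_zero] at h9
      have h10 : (l ^ (e + 1) - 1) • (g x - l • x) = 0 := by
        rw [sub_smul, one_smul, ← h9, sub_self]
      exact sub_eq_zero.1 ((smul_eq_zero.1 h10).resolve_right hx')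
    have h9 := h7 x
    rw [h8, one_smul] at h9
    have h10 : (((e + 1 : ℕ) : ZMod p) * l ^ e) • (g x - l • x) = 0 := (left_eq_add).1 h9
    rcases smul_eq_zero.1 h10 with h11 | h11
    · rcases mul_eq_zero.1 h11 with h12 | h12
      · apply hH
        rw [he]
        exact (ZMod.natCast_eq_zero_iff _ _).1 h12
      · have h13 : l ^ (e + 1) = 0 := by rw [pow_succ, h12, zero_mul]
        rw [h8] at h13
        exact one_ne_zero h13
    · exact hx' h11

/-- MODULE GLIN4. PROOF: `GCnt_main` for the group `H`: `hP` by `GLin_cent` (an element `g ≠ 1` of `H` is not a scalar by `hs`;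
two elements `a + b g`, `a' + b' g` commute), `hQ` by `GLin_conj`. -/
theorem GLin_str {p : ℕ} [Fact p.Prime] (hp2 : p ≠ 2) {W : Type} [AddCommGroup W]
    [Module (ZMod p) W] [Finite W] (hW : Nat.card W = p ^ 2) (H : Subgroup (W ≃ₗ[ZMod p] W))
    [Finite H] (hH : ¬ p ∣ Nat.card H) (hs : NoSc H) :
    (∀ g h : H, g * h = h * g) ∨
      ∃ C : Subgroup H, C.index = 2 ∧ Odd (Nat.card C) ∧ (∀ a ∈ C, ∀ b ∈ C, a * b = b * a) ∧
        ∀ t, t ∉ C → t * t = 1 ∧ ∀ c ∈ C, t * c * t⁻¹ = c⁻¹ := by
  have hgs : ∀ g : H, g ≠ 1 → ∀ c : ZMod p, ∃ x, g.1 x ≠ c • x := by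
    intro g hg c
    by_contra hcon
    push Not at hcon
    exact hg (Subtype.ext (hs g.1 g.2 c hcon))
  refine GCnt_main ?_ ?_
  · intro g hg h k h1 h2
    obtain ⟨a, b, hab⟩ := GLin_cent hW g.1 h.1 (hgs g hg)
      (congrArg (fun z : H => (z : W ≃ₗ[ZMod p] W)) h1)
    obtain ⟨a', b', hab'⟩ := GLin_cent hW g.1 k.1 (hgs g hg)
      (congrArg (fun z : H => (z : W ≃ₗ[ZMod p] W)) h2)
    apply Subtype.ext
    apply LinearEquiv.ext
    intro x
    change h.1 (k.1 x) = k.1 (h.1 x)
    rw [hab, hab', hab', hab, map_add, map_smul, map_smul, map_add, map_smul, map_smul]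
    module
  · intro g hg t h1
    have h2 := GLin_conj hp2 hW H hH hs g.1 t.1 g.2 t.2 (fun h3 => hg (Subtype.ext h3))
      (congrArg (fun z : H => (z : W ≃ₗ[ZMod p] W)) h1)
    rcases h2 with h3 | ⟨h3, h4⟩
    · exact Or.inl (Subtype.ext h3)
    · exact Or.inr ⟨Subtype.ext h3, Subtype.ext h4⟩

end Pool.Agent.KBR
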